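import Pool.Agent.N365.SZ.C4

/-!
# Many primes divide the denominator of a rational function at almost all rational arguments
-/

set_option autoImplicit false

namespace Pool.Agent.N365.LS

open Finset Polynomial Filter UniqueFactorizationMonoid
open Pool.Agent.N365.SZ
open Pool.Agent.Y670.RD (fv fvq fv_eq fv_le fv_mul toQ toQ_inj clr clr_dvd fv_mod fv_zero)
open Pool.Agent.Y679.Md (rS rS_pos mx)

/-- `A / D` is a rational function of degree `N` -/
structure Rat (N : ℕ) (A D : ℤ[X]) : Prop where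
  pos : 1 ≤ N
  degA : A.natDegree ≤ N
  degD : D.natDegree ≤ N
  deg : A.natDegree = N ∨ D.natDegree = N
  coprime : IsCoprime (toQ A) (toQ D)

theorem Rat.D0 {N : ℕ} {A D : ℤ[X]} (h : Rat N A D) : D ≠ 0 := by
  rintro rfl
  have h1 : toQ (0 : ℤ[X]) = 0 := by unfold toQ; simp
  have h2 := h.coprime
  rw [h1, isCoprime_zero_right] at h2
  have h3 := natDegree_eq_zero_of_isUnit h2
  rw [toQ_deg] at h3
  have h4 := h.pos
  rcases h.deg with h5 | h5
  · omega
  · simp at h5; omega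

theorem Rat.A0 {N : ℕ} {A D : ℤ[X]} (h : Rat N A D) : A ≠ 0 := by
  rintro rfl
  have h1 : toQ (0 : ℤ[X]) = 0 := by unfold toQ; simp
  have h2 := h.coprime
  rw [h1, isCoprime_zero_left] at h2
  have h3 := natDegree_eq_zero_of_isUnit h2
  rw [toQ_deg] at h3
  have h4 := h.pos
  rcases h.deg with h5 | h5
  · simp at h5; omega
  · omega

theorem not_dvd_of {k : ℤ} {p : ℕ} (hk : k ≠ 0) (hp : p.Prime) (hn : p ∉ k.natAbs.primeFactors) :
    ¬ (p : ℤ) ∣ k := by
  intro hd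
  apply hn
  rw [Nat.mem_primeFactors]
  exact ⟨hp, by rwa [← Int.natCast_dvd], Int.natAbs_ne_zero.mpr hk⟩

/-- the numerator and the denominator have no common prime factor outside a finite set -/
theorem Rat.cop {N : ℕ} {A D : ℤ[X]} (h : Rat N A D) : ∃ S : Finset ℕ, (∀ p ∈ S, p.Prime) ∧
    ∀ s t : ℤ, IsCoprime s t → ∀ p : ℕ, p.Prime → p ∉ S → (p : ℤ) ∣ fv N D s t →
      ¬ (p : ℤ) ∣ fv N A s t := by
  classical
  obtain ⟨R, u, w, hR, hRe⟩ := bezZ h.coprime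
  obtain ⟨l, hl, hl'⟩ : ∃ l : ℤ, l ≠ 0 ∧ (l = A.coeff N ∨ l = D.coeff N) := by
    rcases h.deg with h1 | h1
    · refine ⟨A.coeff N, ?_, Or.inl rfl⟩
      rw [← h1]
      exact leadingCoeff_ne_zero.mpr h.A0
    · refine ⟨D.coeff N, ?_, Or.inr rfl⟩
      rw [← h1]
      exact leadingCoeff_ne_zero.mpr h.D0
  refine ⟨R.natAbs.primeFactors ∪ l.natAbs.primeFactors, ?_, ?_⟩
  · intro p hp
    rcases mem_union.mp hp with h1 | h1 <;> exact Nat.prime_of_mem_primeFactors h1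
  intro s t hst p hp hpS hD hA
  rw [mem_union, not_or] at hpS
  have hpr : Prime (p : ℤ) := Nat.prime_iff_prime_int.mp hp
  by_cases ht : (p : ℤ) ∣ t
  · have hs : ¬ (p : ℤ) ∣ s := fun hs => hpr.not_isUnit (hst.isUnit_of_dvd' hs ht)
    have key : ∀ f : ℤ[X], (p : ℤ) ∣ fv N f s t → (p : ℤ) ∣ f.coeff N := by
      intro f hf
      have h1 := ht.trans (fv_mod N f s t)
      have h2 : (p : ℤ) ∣ f.coeff N * s ^ N := by
        have e : f.coeff N * s ^ N = fv N f s t - (fv N f s t - f.coeff N * s ^ N) := by ring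
        rw [e]
        exact dvd_sub hf h1
      rcases hpr.dvd_or_dvd h2 with h3 | h3
      · exact h3
      · exact absurd (hpr.dvd_of_dvd_pow h3) hs
    refine not_dvd_of hl hp hpS.2 ?_
    rcases hl' with h1 | h1
    · rw [h1]; exact key A hA
    · rw [h1]; exact key D hD
  · obtain ⟨x, hx⟩ := chart hp ht 1 s
    have h1 := (fv_chart hp ht hx le_rfl h.degA).mp (by rwa [pow_one])
    have h2 := (fv_chart hp ht hx le_rfl h.degD).mp (by rwa [pow_one])
    rw [pow_one] at h1 h2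
    refine not_dvd_of hR hp hpS.1 ?_
    have h3 := congrArg (eval x) hRe
    rw [eval_C, eval_add, eval_mul, eval_mul] at h3
    rw [h3]
    exact dvd_add (h1.mul_left _) (h2.mul_left _)

/-- an irreducible factor -/
theorem pole_poly {D : ℤ[X]} (hD : 1 ≤ D.natDegree) : ∃ (g h : ℤ[X]) (m : ℤ), m ≠ 0 ∧
    1 ≤ g.natDegree ∧ Squarefree (toQ g) ∧ C m * D = g * h ∧
    g.natDegree + h.natDegree = D.natDegree := by
  have hD0 : D ≠ 0 := by
    rintro rfl
    simp at hD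
  have hq0 : toQ D ≠ 0 := by
    intro h
    exact hD0 (toQ_inj (by rw [h]; unfold toQ; simp))
  have hnu : ¬ IsUnit (toQ D) := by
    intro h
    have := natDegree_eq_zero_of_isUnit h
    rw [toQ_deg] at this
    omega
  obtain ⟨π, hπ, ρ, hρ⟩ := WfDvdMonoid.exists_irreducible_factor hnu hq0
  obtain ⟨m1, g, hm1, hg⟩ := clr π
  obtain ⟨m2, h, hm2, hh⟩ := clr ρ
  have hm1' : ((m1 : ℤ) : ℚ) ≠ 0 := by exact_mod_cast hm1
  have hm2' : ((m2 : ℤ) : ℚ) ≠ 0 := by exact_mod_cast hm2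
  have hρ0 : ρ ≠ 0 := by
    rintro rfl
    rw [mul_zero] at hρ
    exact hq0 hρ
  have e1 : g.natDegree = π.natDegree := by
    rw [← toQ_deg, hg, natDegree_C_mul hm1']
  have e2 : h.natDegree = ρ.natDegree := by
    rw [← toQ_deg, hh, natDegree_C_mul hm2']
  refine ⟨g, h, m1 * m2, mul_ne_zero hm1 hm2, ?_, ?_, ?_, ?_⟩
  · rw [e1]; exact hπ.natDegree_pos
  · rw [hg]
    have hu : IsUnit (C ((m1 : ℤ) : ℚ)) := isUnit_C.mpr (isUnit_iff_ne_zero.mpr hm1')
    have ha : Associated π (C ((m1 : ℤ) : ℚ) * π) :=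
      (associated_unit_mul_left π _ hu).symm
    exact ha.squarefree_iff.mp hπ.squarefree
  · apply toQ_inj
    rw [toQ_mul, toQ_mul, toQ_C, hg, hh, hρ]
    push_cast
    rw [C_mul]
    ring
  · rw [e1, e2, ← natDegree_mul hπ.ne_zero hρ0, ← hρ, toQ_deg]

theorem rr_pos {g : ℤ[X]} (hg : 1 ≤ g.natDegree) : 1 ≤ rr g := by
  have hg0 : g ≠ 0 := by
    rintro rfl
    simp at hg
  have hq0 : toQ g ≠ 0 := by
    intro h
    exact hg0 (toQ_inj (by rw [h]; unfold toQ; simp))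
  have hnu : ¬ IsUnit (toQ g) := by
    intro h
    have := natDegree_eq_zero_of_isUnit h
    rw [toQ_deg] at this
    omega
  obtain ⟨π, hπ, hd⟩ := WfDvdMonoid.exists_irreducible_factor hnu hq0
  obtain ⟨q, hq, ha⟩ := exists_mem_normalizedFactors_of_dvd hq0 hπ hd
  unfold rr
  have h1 : 1 ≤ q.natDegree := (irreducible_of_normalized_factor q hq).natDegree_pos
  have h2 : rho q.natDegree ≤ ((normalizedFactors (toQ g)).map fun π => rho π.natDegree).sum :=
    Multiset.single_le_sum (fun _ _ => Nat.zero_le _) _ (Multiset.mem_map_of_mem _ hq)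
  have h3 : 1 ≤ rho q.natDegree := by
    unfold rho
    split_ifs <;> omega
  omega

/-- the primes at which the value of the function has a pole -/
def Poles (N : ℕ) (A D : ℤ[X]) (c : ℝ) (B : ℕ) (P : ℤ × ℤ) : Prop :=
  fv N D P.1 P.2 ≠ 0 ∧ ∃ F : Finset ℕ, (∀ p ∈ F, p.Prime ∧ (p : ℤ) ∣ fv N D P.1 P.2 ∧
    ¬ (p : ℤ) ∣ fv N A P.1 P.2) ∧ c * (B : ℝ) ≤ ((∏ p ∈ F, p : ℕ) : ℝ)

theorem fv_pad {N : ℕ} {f : ℤ[X]} (hN : f.natDegree ≤ N) {s t : ℤ} (ht : t ≠ 0) :
    fv N f s t = t ^ (N - f.natDegree) * fv f.natDegree f s t := by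
  have h : ((fv N f s t : ℤ) : ℚ) = ((t ^ (N - f.natDegree) * fv f.natDegree f s t : ℤ) : ℚ) := by
    push_cast
    rw [fvq hN ht, fvq le_rfl ht, ← mul_assoc, ← pow_add]
    congr 2
    omega
  exact_mod_cast h

/-- a form without zeros -/
theorem nonzero {N : ℕ} {f : ℤ[X]} (hf : f ≠ 0) (hN : f.natDegree ≤ N) (δ : ℝ) (hδ : 0 < δ) :
    ∀ᶠ B : ℕ in atTop, ∃ E : Finset (ℤ × ℤ), (E.card : ℝ) ≤ δ * (B : ℝ) ^ 2 ∧
      ∀ P ∈ Box B, P ∉ E → fv N f P.1 P.2 ≠ 0 ∧ P.2 ≠ 0 := by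
  classical
  obtain ⟨τ, hτ, h1⟩ := card_small hf (δ / 2) (by positivity)
  filter_upwards [h1, card_zero (δ / 2) (by positivity), eventually_ge_atTop 1] with B h2 h3 h4
  have hB : (1 : ℝ) ≤ B := by exact_mod_cast h4
  refine ⟨((Box B).filter fun P => P.2 = 0) ∪ ((Box B).filter fun P => P.2 ≠ 0 ∧
    |(fv f.natDegree f P.1 P.2 : ℝ)| < τ * (B : ℝ) ^ f.natDegree), ?_, fun P hP hE => ?_⟩
  · have h5 := card_union_le ((Box B).filter fun P => P.2 = 0) ((Box B).filter fun P => P.2 ≠ 0 ∧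
      |(fv f.natDegree f P.1 P.2 : ℝ)| < τ * (B : ℝ) ^ f.natDegree)
    have h6 : ((((Box B).filter fun P => P.2 = 0) ∪ ((Box B).filter fun P => P.2 ≠ 0 ∧
      |(fv f.natDegree f P.1 P.2 : ℝ)| < τ * (B : ℝ) ^ f.natDegree)).card : ℝ) ≤
      (((Box B).filter fun P => P.2 = 0).card : ℝ) + (((Box B).filter fun P => P.2 ≠ 0 ∧
      |(fv f.natDegree f P.1 P.2 : ℝ)| < τ * (B : ℝ) ^ f.natDegree).card : ℝ) := by
      exact_mod_cast h5
    linarith
  · rw [mem_union, mem_filter, mem_filter, not_or] at hE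
    have ht : P.2 ≠ 0 := fun h => hE.1 ⟨hP, h⟩
    refine ⟨?_, ht⟩
    rw [fv_pad hN ht]
    refine mul_ne_zero (pow_ne_zero _ ht) fun h0 => hE.2 ⟨hP, ht, ?_⟩
    rw [h0]
    have : (0 : ℝ) < τ * (B : ℝ) ^ f.natDegree := by positivity
    simpa using this

theorem swap_Box {B : ℕ} {P : ℤ × ℤ} (h : P ∈ Box B) : P.swap ∈ Box B := by
  rw [mem_Box] at h ⊢
  exact ⟨⟨h.1.2, h.1.1⟩, h.2.symm⟩

/-- **the poles** -/
theorem poles {N : ℕ} {A D : ℤ[X]} (h : Rat N A D) (δ : ℝ) (hδ : 0 < δ) : ∃ c : ℝ, 0 < c ∧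
    ∀ᶠ B : ℕ in atTop, ∃ E : Finset (ℤ × ℤ), (E.card : ℝ) ≤ δ * (B : ℝ) ^ 2 ∧
      ∀ P ∈ Box B, P ∉ E → Poles N A D c B P := by
  classical
  obtain ⟨S0, hS0, hcop⟩ := h.cop
  rcases Nat.eq_zero_or_pos D.natDegree with hD | hD
  · -- the pole at infinity
    obtain ⟨d0, hd0⟩ : ∃ d0 : ℤ, D = C d0 := ⟨_, eq_C_of_natDegree_eq_zero hD⟩
    have hXq : toQ (X : ℤ[X]) = X := by unfold toQ; simp
    obtain ⟨S, c, -, hSS, hc, hev⟩ := main_count (g := (X : ℤ[X])) (by simp)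
      (by rw [hXq]; exact irreducible_X.squarefree) S0 hS0 1 (δ / 2) le_rfl (by positivity)
    refine ⟨c, hc, ?_⟩
    filter_upwards [hev, nonzero h.D0 h.degD (δ / 2) (by positivity), eventually_ge_atTop 1]
      with B h1 h2 h3
    have hB : (1 : ℝ) ≤ B := by exact_mod_cast h3
    obtain ⟨E1, hE1, g1⟩ := h1
    obtain ⟨E2, hE2, g2⟩ := h2
    refine ⟨E1.image Prod.swap ∪ E2, ?_, fun P hP hE => ?_⟩
    · have h5 : ((E1.image Prod.swap ∪ E2).card : ℝ) ≤ ((E1.image Prod.swap).card : ℝ) + E2.card := by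
        exact_mod_cast card_union_le _ _
      have h6 : ((E1.image Prod.swap).card : ℝ) ≤ E1.card := by exact_mod_cast card_image_le
      linarith
    · rw [mem_union, not_or] at hE
      have hsw : P.swap ∉ E1 := fun hs => hE.1 (mem_image.mpr ⟨P.swap, hs, Prod.swap_swap P⟩)
      obtain ⟨k1, k2, -⟩ := g1 P.swap (swap_Box hP) hsw
      obtain ⟨l1, l2⟩ := g2 P hP hE.2
      have e1 : fv (X : ℤ[X]).natDegree X P.swap.1 P.swap.2 = P.2 := by
        rw [natDegree_X]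
        unfold fv
        rw [sum_range_succ, sum_range_succ, range_zero, sum_empty]
        simp
      rw [e1] at k1 k2
      refine ⟨l1, P.2.natAbs.primeFactors \ S, fun p hp => ?_, ?_⟩
      · rw [Finset.mem_sdiff, Nat.mem_primeFactors] at hp
        have hpt : (p : ℤ) ∣ P.2 := by rw [Int.natCast_dvd]; exact hp.1.2.1
        have hpD : (p : ℤ) ∣ fv N D P.1 P.2 := by
          rw [fv_pad h.degD l2, hD, Nat.sub_zero]
          exact (dvd_pow hpt (by have := h.pos; omega)).mul_right _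
        exact ⟨hp.1.1, hpD, hcop P.1 P.2 (mem_Box.mp hP).2 p hp.1.1
          (fun hs => hp.2 (hSS hs)) hpD⟩
      · refine le_trans ?_ k2
        have h7 : (B : ℝ) ≤ (B : ℝ) ^ rr (X : ℤ[X]) := by
          calc (B : ℝ) = (B : ℝ) ^ 1 := (pow_one _).symm
            _ ≤ _ := pow_le_pow_right₀ hB (rr_pos (by simp))
        nlinarith
  · -- a finite pole
    obtain ⟨g, g', m, hm, hg1, hgsq, hgg, hdeg⟩ := pole_poly hD
    obtain ⟨S, c, -, hSS, hc, hev⟩ := main_count (g := g) hg1 hgsq (S0 ∪ m.natAbs.primeFactors)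
      (fun p hp => by
        rcases mem_union.mp hp with h1 | h1
        · exact hS0 p h1
        · exact Nat.prime_of_mem_primeFactors h1) 1 (δ / 2) le_rfl (by positivity)
    refine ⟨c, hc, ?_⟩
    filter_upwards [hev, nonzero h.D0 h.degD (δ / 2) (by positivity), eventually_ge_atTop 1]
      with B h1 h2 h3
    have hB : (1 : ℝ) ≤ B := by exact_mod_cast h3
    obtain ⟨E1, hE1, g1⟩ := h1
    obtain ⟨E2, hE2, g2⟩ := h2
    refine ⟨E1 ∪ E2, ?_, fun P hP hE => ?_⟩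
    · have h5 : ((E1 ∪ E2).card : ℝ) ≤ (E1.card : ℝ) + E2.card := by
        exact_mod_cast card_union_le _ _
      linarith
    · rw [mem_union, not_or] at hE
      obtain ⟨k1, k2, -⟩ := g1 P hP hE.1
      obtain ⟨l1, l2⟩ := g2 P hP hE.2
      have e1 : m * fv D.natDegree D P.1 P.2 =
          fv g.natDegree g P.1 P.2 * fv g'.natDegree g' P.1 P.2 := by
        rw [← fv_C, hgg, ← hdeg, fv_mul le_rfl le_rfl l2]
      refine ⟨l1, (fv g.natDegree g P.1 P.2).natAbs.primeFactors \ S, fun p hp => ?_, ?_⟩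
      · rw [Finset.mem_sdiff, Nat.mem_primeFactors] at hp
        have hpr : Prime (p : ℤ) := Nat.prime_iff_prime_int.mp hp.1.1
        have hpt : (p : ℤ) ∣ fv g.natDegree g P.1 P.2 := by rw [Int.natCast_dvd]; exact hp.1.2.1
        have hpm : ¬ (p : ℤ) ∣ m := not_dvd_of hm hp.1.1 fun h5 =>
          hp.2 (hSS (mem_union_right _ h5))
        have hpD : (p : ℤ) ∣ fv N D P.1 P.2 := by
          rw [fv_pad h.degD l2]
          refine Dvd.dvd.mul_left ?_ _
          have h5 : (p : ℤ) ∣ m * fv D.natDegree D P.1 P.2 := by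
            rw [e1]; exact hpt.mul_right _
          exact (hpr.dvd_or_dvd h5).resolve_left hpm
        exact ⟨hp.1.1, hpD, hcop P.1 P.2 (mem_Box.mp hP).2 p hp.1.1
          (fun hs => hp.2 (hSS (mem_union_left _ hs))) hpD⟩
      · refine le_trans ?_ k2
        have h7 : (B : ℝ) ≤ (B : ℝ) ^ rr g := by
          calc (B : ℝ) = (B : ℝ) ^ 1 := (pow_one _).symm
            _ ≤ _ := pow_le_pow_right₀ hB (rr_pos hg1)
        nlinarith

end Pool.Agent.N365.LS
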