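import Pool.Agent.Y725.LS.Final
import Pool.Agent.Y728.AK.JModel

/-!
# The truncated Szpiro-type bound from rational primes at which the invariant has a pole

The lemmas `good_j` and `szp` are adapted from `Pool/Agent/Y728/AK/JSz.lean` (helper728).
-/

set_option autoImplicit false

namespace Pool.Agent.N365.LS

open Height NumberField IsDedekindDomain TH951 Module Finset
open TH951.LS (GoodRed)
open Pool.Agent.TH942 (sw sw_ell)
open Pool.Agent.TH910.LS Pool.Agent.Y725.LS

section

variable {K : Type} [Field K] [NumberField K]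

theorem int_le_one (v : FinitePlace K) (x : ℤ) : v.val (x : K) ≤ 1 := by
  rcases Int.natAbs_eq x with h | h
  · rw [h, Int.cast_natCast]
    exact NF.natCast_le_one v _
  · rw [h, Int.cast_neg, AbsoluteValue.map_neg, Int.cast_natCast]
    exact NF.natCast_le_one v _

/-- a place above a prime number -/
theorem exists_place (K : Type) [Field K] [NumberField K] (p : ℕ) (hp : p.Prime) :
    ∃ v : FinitePlace K, v.val ((p : ℕ) : K) < 1 := by
  have hnu : ¬ IsUnit ((p : ℕ) : 𝓞 K) := by
    intro hu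
    have h1 : IsUnit (Algebra.norm ℤ ((p : ℕ) : 𝓞 K)) := hu.map _
    have h2 : Algebra.norm ℤ ((p : ℕ) : 𝓞 K) = (p : ℤ) ^ finrank ℤ (𝓞 K) := by
      have := Algebra.norm_algebraMap (S := 𝓞 K) (p : ℤ)
      simpa using this
    rw [h2] at h1
    have h3 : 0 < finrank ℤ (𝓞 K) := by
      rw [RingOfIntegers.rank]
      exact finrank_pos
    have h4 := (isUnit_pow_iff h3.ne').mp h1
    rw [Int.isUnit_iff_natAbs_eq] at h4
    simp at h4
    exact hp.one_lt.ne' h4
  obtain ⟨M, hM, hle⟩ := Ideal.exists_le_maximal (Ideal.span {((p : ℕ) : 𝓞 K)})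
    (by rwa [Ne, Ideal.span_singleton_eq_top])
  have hpM : ((p : ℕ) : 𝓞 K) ∈ M := hle (Ideal.mem_span_singleton_self _)
  have hne : M ≠ ⊥ := by
    rintro rfl
    rw [Ideal.mem_bot] at hpM
    have : (p : ℕ) = 0 := by exact_mod_cast hpM
    exact hp.ne_zero this
  refine ⟨FinitePlace.mk ⟨M, hM.isPrime, hne⟩, ?_⟩
  have h1 := (FinitePlace.norm_lt_one_iff_mem K
    (FinitePlace.mk (K := K) ⟨M, hM.isPrime, hne⟩).maximalIdeal ((p : ℕ) : 𝓞 K)).2
    (by rw [FinitePlace.maximalIdeal_mk]; exact hpM)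
  rw [FinitePlace.norm_embedding_eq] at h1
  have e : algebraMap (𝓞 K) K ((p : ℕ) : 𝓞 K) = ((p : ℕ) : K) := map_natCast _ _
  rw [e] at h1
  exact h1

/-- an integer prime to `p` is a unit at the places above `p` -/
theorem val_unit {v : FinitePlace K} {p : ℕ} (hp : p.Prime) (hv : v.val ((p : ℕ) : K) < 1) {x : ℤ}
    (hx : ¬ (p : ℤ) ∣ x) : v.val (x : K) = 1 := by
  refine le_antisymm (int_le_one v x) ?_
  by_contra hlt
  push Not at hlt
  have hpr : Prime (p : ℤ) := Nat.prime_iff_prime_int.mp hp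
  obtain ⟨u, w, h⟩ := (hpr.irreducible.coprime_iff_not_dvd).mpr hx
  have h1 : ((u * p + w * x : ℤ) : K) = 1 := by rw [h]; simp
  have h2 : v.val ((u * p + w * x : ℤ) : K) = 1 := by rw [h1, map_one]
  push_cast at h2
  have h3 := TH951.LS.na_val v ((u : K) * (p : K)) ((w : K) * (x : K))
  rw [h2, map_mul, map_mul] at h3
  have h4 : v.val (u : K) * v.val ((p : ℕ) : K) < 1 :=
    mul_lt_one_of_nonneg_of_lt_one_right (int_le_one v u) (v.val.nonneg _) hv
  have h5 : v.val (w : K) * v.val (x : K) < 1 :=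
    mul_lt_one_of_nonneg_of_lt_one_right (int_le_one v w) (v.val.nonneg _) hlt
  have h6 := max_lt h4 h5
  linarith

/-- the poles -/
theorem exists_poles (K : Type) [Field K] [NumberField K] {x y : ℤ} (hy : y ≠ 0) (F : Finset ℕ)
    (hF : ∀ p ∈ F, p.Prime ∧ (p : ℤ) ∣ y ∧ ¬ (p : ℤ) ∣ x) :
    ∃ V : Finset (FinitePlace K), (∀ v ∈ V, 1 < v.val ((x : K) / y)) ∧
      Real.log (∏ p ∈ F, p : ℕ) ≤ ∑ v ∈ V, Real.log (NF.Nm v) := by
  classical
  obtain ⟨pl, hpl⟩ : ∃ pl : ℕ → FinitePlace K, ∀ p : ℕ, p.Prime → (pl p).val ((p : ℕ) : K) < 1 := by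
    obtain ⟨v0, -⟩ := exists_place K 2 Nat.prime_two
    refine ⟨fun p => if h : p.Prime then (exists_place K p h).choose else v0, fun p hp => ?_⟩
    simp only [dif_pos hp]
    exact (exists_place K p hp).choose_spec
  have hNm : ∀ p ∈ F, p ≤ NF.Nm (pl p) := by
    intro p hp
    have hpp := (hF p hp).1
    have h1 : 0 < NF.Nm (pl p) := by
      have := NF.one_lt_Nm (pl p)
      omega
    refine Nat.le_of_dvd h1 ?_
    by_contra hnd
    have h2 := val_unit hpp (hpl p hpp) (x := (NF.Nm (pl p) : ℤ)) (by exact_mod_cast hnd)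
    have h3 := NF.Nm_le (pl p)
    have h4 : ((pl p).val ((NF.Nm (pl p) : ℕ) : K)) = 1 := by exact_mod_cast h2
    have h5 : (1 : ℝ) < NF.Nm (pl p) := by exact_mod_cast NF.one_lt_Nm (pl p)
    have h6 : ((NF.Nm (pl p) : ℝ))⁻¹ < 1 := inv_lt_one_of_one_lt₀ h5
    have h7 : (pl p) ((NF.Nm (pl p) : ℕ) : K) = 1 := h4
    linarith
  have hinj : Set.InjOn pl (F : Set ℕ) := by
    intro p hp q hq h
    by_contra hne
    have hpp := (hF p hp).1
    have hqp := (hF q hq).1
    have h1 : ¬ (p : ℤ) ∣ (q : ℤ) := by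
      intro hd
      exact hne ((Nat.prime_dvd_prime_iff_eq hpp hqp).mp (by exact_mod_cast hd))
    have h2 := val_unit hpp (hpl p hpp) h1
    have h3 := hpl q hqp
    rw [← h] at h3
    rw [Int.cast_natCast] at h2
    linarith
  refine ⟨F.image pl, ?_, ?_⟩
  · intro v hv
    obtain ⟨p, hp, rfl⟩ := mem_image.mp hv
    obtain ⟨hpp, hpy, hpx⟩ := hF p hp
    have h1 := val_unit hpp (hpl p hpp) hpx
    have h2 : (pl p).val (y : K) < 1 := by
      obtain ⟨k, hk⟩ := hpy
      rw [hk]
      push_cast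
      rw [map_mul, mul_comm]
      exact mul_lt_one_of_nonneg_of_lt_one_right (int_le_one _ k) ((pl p).val.nonneg _) (hpl p hpp)
    have h3 : 0 < (pl p).val (y : K) := (pl p).val.pos (by exact_mod_cast hy)
    rw [map_div₀, h1]
    exact (one_lt_div h3).mpr h2
  · rw [sum_image hinj, Nat.cast_prod, Real.log_prod (s := F) (f := fun p => ((p : ℕ) : ℝ))
      (fun p hp => by
        have := (hF p hp).1.pos
        positivity)]
    refine sum_le_sum fun p hp => ?_
    have := (hF p hp).1.pos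
    exact Real.log_le_log (by exact_mod_cast this) (by exact_mod_cast hNm p hp)

/-- the height of an integer -/
theorem logHeight_int (K : Type) [Field K] [NumberField K] {x : ℤ} (hx : x ≠ 0) :
    logHeight₁ (x : K) = finrank ℚ K * Real.log |(x : ℝ)| := by
  obtain ⟨n, hn, hxn⟩ : ∃ n : ℕ, 1 ≤ n ∧ (x = n ∨ x = -n) := by
    refine ⟨x.natAbs, by have := Int.natAbs_pos.mpr hx; omega, Int.natAbs_eq x⟩
  have key : logHeight₁ ((n : ℕ) : K) = finrank ℚ K * Real.log n := by
    rw [NumberField.logHeight₁_eq]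
    have h1 : ∑ v : InfinitePlace K, (v.mult : ℝ) * Real.posLog (v (n : K)) =
        finrank ℚ K * Real.log n := by
      have h2 : ∀ v : InfinitePlace K, (v.mult : ℝ) * Real.posLog (v (n : K)) =
          v.mult * Real.log n := by
        intro v
        rw [InfinitePlace.map_natCast, Real.posLog_eq_log]
        rw [abs_of_nonneg (Nat.cast_nonneg n)]
        exact_mod_cast hn
      rw [Finset.sum_congr rfl fun v _ => h2 v, ← Finset.sum_mul]
      congr 1
      exact_mod_cast InfinitePlace.sum_mult_eq (K := K)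
    have h2 : ∑ᶠ v : FinitePlace K, Real.posLog (v (n : K)) = 0 := by
      have : ∀ v : FinitePlace K, Real.posLog (v (n : K)) = 0 := fun v => by
        rw [Real.posLog_eq_zero_iff, abs_of_nonneg (apply_nonneg _ _)]
        exact NF.natCast_le_one v n
      simp [this]
    rw [h1, h2, add_zero]
  rcases hxn with rfl | rfl
  · rw [Int.cast_natCast, key, Int.cast_natCast, abs_of_nonneg (Nat.cast_nonneg n)]
  · rw [Int.cast_neg, Int.cast_natCast, logHeight₁_neg, key, Int.cast_neg, Int.cast_natCast, abs_neg,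
      abs_of_nonneg (Nat.cast_nonneg n)]

/-- the height of a quotient -/
theorem logHeight_le (K : Type) [Field K] [NumberField K] {x y : ℤ} (hx : x ≠ 0) (hy : y ≠ 0) {H : ℝ}
    (h1 : |(x : ℝ)| ≤ H) (h2 : |(y : ℝ)| ≤ H) :
    logHeight₁ ((x : K) / y) ≤ finrank ℚ K * (2 * Real.log H) := by
  rw [div_eq_mul_inv]
  refine (logHeight₁_mul_le _ _).trans ?_
  rw [logHeight₁_inv, logHeight_int K hx, logHeight_int K hy, ← mul_add]
  refine mul_le_mul_of_nonneg_left ?_ (Nat.cast_nonneg _)
  have hx0 : 0 < |(x : ℝ)| := abs_pos.mpr (by exact_mod_cast hx)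
  have hy0 : 0 < |(y : ℝ)| := abs_pos.mpr (by exact_mod_cast hy)
  have h3 := Real.log_le_log hx0 h1
  have h4 := Real.log_le_log hy0 h2
  linarith

end

/-- good reduction implies that the invariant is integral -/
theorem good_j {L : Type} [Field L] [NumberField L] (w : FinitePlace L) (W : WeierstrassCurve L)
    [W.IsElliptic] (h : GoodRed w.val W) : w.val W.j ≤ 1 := by
  obtain ⟨C, h1, h2, h3, h4, h6, hΔ⟩ := h
  have hna := TH951.LS.na_val w
  have hnat : ∀ n : ℕ, w.val (n : L) ≤ 1 := fun n => NF.natCast_le_one w n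
  have n4 : w.val (4 : L) ≤ 1 := by exact_mod_cast hnat 4
  have n2 : w.val (2 : L) ≤ 1 := by exact_mod_cast hnat 2
  have n24 : w.val (24 : L) ≤ 1 := by exact_mod_cast hnat 24
  have hb2 : w.val (C • W).b₂ ≤ 1 := by
    rw [WeierstrassCurve.b₂]
    refine (hna _ _).trans (max_le ?_ ?_)
    · rw [map_pow]
      exact pow_le_one₀ (w.val.nonneg _) h1
    · rw [map_mul]
      exact mul_le_one₀ n4 (w.val.nonneg _) h2
  have hb4 : w.val (C • W).b₄ ≤ 1 := by
    rw [WeierstrassCurve.b₄]
    refine (hna _ _).trans (max_le ?_ ?_)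
    · rw [map_mul]
      exact mul_le_one₀ n2 (w.val.nonneg _) h4
    · rw [map_mul]
      exact mul_le_one₀ h1 (w.val.nonneg _) h3
  have hc4 : w.val (C • W).c₄ ≤ 1 := by
    rw [WeierstrassCurve.c₄, sub_eq_add_neg]
    refine (hna _ _).trans (max_le ?_ ?_)
    · rw [map_pow]
      exact pow_le_one₀ (w.val.nonneg _) hb2
    · rw [AbsoluteValue.map_neg, map_mul]
      exact mul_le_one₀ n24 (w.val.nonneg _) hb4
  have hjj : (C • W).j * (C • W).Δ = (C • W).c₄ ^ 3 := by
    rw [WeierstrassCurve.j, ← (C • W).coe_Δ', mul_comm, ← mul_assoc, Units.mul_inv, one_mul]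
  rw [← WeierstrassCurve.variableChange_j W C]
  have e1 : w.val (C • W).j = w.val (C • W).c₄ ^ 3 := by
    rw [← map_pow, ← hjj, map_mul, hΔ, mul_one]
  rw [e1]
  exact pow_le_one₀ (w.val.nonneg _) hc4

/-- **the truncated Szpiro-type bound** -/
theorem szp {K : Type} [Field K] [NumberField K] {j : K} {σ : ℝ} (hσ : 0 ≤ σ)
    {V : Finset (FinitePlace K)} (hV : ∀ v ∈ V, 1 < v.val j)
    (hj : logHeight₁ j ≤ σ * ∑ v ∈ V, Real.log (NF.Nm v)) {a b : 𝓞 K}
    (hab : 4 * (a : K) ^ 3 + 27 * (b : K) ^ 2 ≠ 0) (hjab : jinv (a : K) b = j)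
    (L : Type) [Field L] [NumberField L] [Algebra K L] {δ : ℝ} (hδ : 0 ≤ δ) (M₀ : ℕ) :
    SzpiroLe σ δ 0 M₀ a b L := by
  classical
  choose up hup using exists_above (K := K) (L := L)
  refine ⟨∅, V.image up, by simp, ?_, ?_⟩
  · intro w hw
    obtain ⟨v, hv, rfl⟩ := Finset.mem_image.1 hw
    left
    intro hgood
    have hab' : 4 * (algebraMap K L a) ^ 3 + 27 * (algebraMap K L b) ^ 2 ≠ 0 := by
      have h1 : algebraMap K L (4 * (a : K) ^ 3 + 27 * (b : K) ^ 2) ≠ 0 := by
        rw [ne_eq, map_eq_zero]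
        exact hab
      rw [map_add, map_mul, map_mul, map_pow, map_pow, map_ofNat, map_ofNat] at h1
      exact h1
    have hell := sw_ell hab'
    have h2 := good_j (up v) _ hgood
    rw [jinv_eq _ _ hell] at h2
    have e1 : jinv (algebraMap K L (a : K)) (algebraMap K L (b : K)) = algebraMap K L j := by
      rw [← hjab]
      unfold jinv
      rw [map_div₀, map_add, map_mul, map_mul, map_mul, map_pow, map_pow, map_ofNat, map_ofNat,
        map_ofNat]
    rw [e1, ext_apply (K := K), hup] at h2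
    have hv' : 1 < v.val j := hV v hv
    have h3 : 1 < v.val j ^ ldeg K (up v) := one_lt_pow₀ hv' (ldeg_pos K (up v)).ne'
    linarith
  · intro S hS
    rw [hjab]
    have hinj : Set.InjOn up (V : Set (FinitePlace K)) := by
      intro v₁ _ v₂ _ h
      rw [← hup v₁, ← hup v₂, h]
    rw [Finset.sum_image hinj]
    have h1 : ∑ v ∈ V, Real.log (NF.Nm v) ≤
        ∑ v ∈ V, Real.log (Ideal.absNorm (up v).maximalIdeal.asIdeal) := by
      refine Finset.sum_le_sum fun v _ => ?_
      have h2 := Nm_below K (up v)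
      rw [hup v] at h2
      have h3 : NF.Nm v ≤ Ideal.absNorm (up v).maximalIdeal.asIdeal := by
        have h4 : Ideal.absNorm (up v).maximalIdeal.asIdeal = NF.Nm (up v) := rfl
        rw [h4, h2]
        refine Nat.le_self_pow ?_ _
        have := inert_pos K (up v)
        rw [hup v] at this
        exact this.ne'
      have h5 : 0 < NF.Nm v := by
        have := NF.one_lt_Nm v
        omega
      exact Real.log_le_log (by exact_mod_cast h5) (by exact_mod_cast h3)
    have h1' := mul_le_mul_of_nonneg_left h1 hσ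
    have h2 : ∑ v ∈ S, Real.log (v.val j) ≤ logHeight₁ j := by
      have h3 := FE.posLog_sum_le j S
      have h4 : (0 : ℝ) ≤ ∑ v : InfinitePlace K, (v.mult : ℝ) * Real.posLog (v.val j) :=
        Finset.sum_nonneg fun v _ => mul_nonneg (Nat.cast_nonneg _) Real.posLog_nonneg
      have h5 : ∑ v ∈ S, Real.log (v.val j) ≤ ∑ v ∈ S, Real.posLog (v.val j) :=
        Finset.sum_le_sum fun v _ => by
          rw [Real.posLog]
          exact le_max_right _ _
      linarith
    have h3 : 0 ≤ δ * logHeight₁ j := mul_nonneg hδ (zero_le_logHeight₁ j)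
    linarith

end Pool.Agent.N365.LS
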