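import Pool.Agent.N365.LS.A
import Pool.Agent.N365.LS.B

/-!
# The lower bound of Lang and Silverman at almost all rational arguments
-/

set_option autoImplicit false

namespace Pool.Agent.N365.LS

open Finset Polynomial Filter Module NumberField IsDedekindDomain Height
open Pool.Agent.N365.SZ (Box mem_Box)
open Pool.Agent.Y670.RD (fv fv_le)
open Pool.Agent.TH910.LS Pool.Agent.Y725.LS

/-- the bound, with constant `c`, for all forms of dimension `g` of the powers of the curve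
`y² = x³ + a x + b` over `K` that are split by `L` -/
def LangSilverman (c : ℝ) (g : ℕ) {K : Type} [Field K] [NumberField K] (a b : 𝓞 K) (L : Type)
    [Field L] [NumberField L] [Algebra K L] [DecidableEq L] : Prop :=
  ∀ (ρ : (L ≃ₐ[K] L) →* Matrix (Fin g) (Fin g) ℤ) (M : Matrix (Fin g) (Fin g) ℤ)
    (P : Fin g → Pts L a b) (T : Finset (HeightOneSpectrum (𝓞 L))),
    Polar ρ M → FixedPt ρ P → RamPrimes K T →
    (Generates P ∧ ¬ IsOfFinAddOrder P) ∨ (Faithful ρ ∧ DenseOrbit ρ P) →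
      c * (1 + absH (jinv (a : K) b) + logNorms T / finrank ℚ L) ≤ chatM M P / finrank ℚ L

/-- the bound for all curves of invariant `j` over all number fields of degree at most `d` -/
def AllCurves (c : ℝ) (d g : ℕ) (κ : ℝ) (j : ℚ) : Prop :=
  ∀ (K : Type) [Field K] [NumberField K], finrank ℚ K ≤ d →
    ∀ a b : 𝓞 K, 4 * (a : K) ^ 3 + 27 * (b : K) ^ 2 ≠ 0 →
      absH (a : K) + absH (b : K) ≤ κ * (1 + absH (jinv (a : K) b)) → jinv (a : K) b = (j : K) →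
      ∀ (L : Type) [Field L] [NumberField L] [Algebra K L] [IsGalois K L] [DecidableEq L],
        ChatLim L a b ∧ LangSilverman c g a b L

/-- from a truncated bound of Szpiro's type -/
theorem of_poles (d g : ℕ) (hg : 0 < g) (κ σ : ℝ) (hκ : 0 ≤ κ) (hσ : 0 ≤ σ) : ∃ c : ℝ, 0 < c ∧
    ∀ (x y : ℤ) (F : Finset ℕ), y ≠ 0 → (∀ p ∈ F, p.Prime ∧ (p : ℤ) ∣ y ∧ ¬ (p : ℤ) ∣ x) →
      (∃ H : ℝ, |(x : ℝ)| ≤ H ∧ |(y : ℝ)| ≤ H ∧ x ≠ 0 ∧
        (d : ℝ) * (2 * Real.log H) ≤ σ * Real.log (∏ p ∈ F, p : ℕ)) →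
      AllCurves c d g κ (x / y) := by
  obtain ⟨c, δ, hc, hδ, h⟩ := dense_main d g 0 hg κ σ hκ
  obtain ⟨A, c₀, hc₀, h⟩ := h 1 one_ne_zero
  refine ⟨min c c₀, lt_min hc hc₀, ?_⟩
  intro x y F hy hF hH K _ _ hK a b hab hab' hj L _ _ _ _ _
  obtain ⟨H, hxH, hyH, hx, hle⟩ := hH
  refine ⟨chatLim a b hab L, fun ρ M P T hM hP hT hor => ?_⟩
  obtain ⟨V, hV, hsum⟩ := exists_poles K hy F hF
  have hjK : jinv (a : K) b = (x : K) / y := by
    rw [hj]
    push_cast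
    rfl
  have hH1 : 1 ≤ H := by
    have h1 : (1 : ℤ) ≤ |y| := Int.one_le_abs hy
    have h2 : (1 : ℝ) ≤ |(y : ℝ)| := by exact_mod_cast h1
    linarith
  have hlogH : 0 ≤ Real.log H := Real.log_nonneg hH1
  have hheight : logHeight₁ ((x : K) / y) ≤ σ * ∑ v ∈ V, Real.log (TH951.NF.Nm v) := by
    refine (logHeight_le K hx hy hxH hyH).trans ?_
    calc (finrank ℚ K : ℝ) * (2 * Real.log H) ≤ d * (2 * Real.log H) := by
          refine mul_le_mul_of_nonneg_right (by exact_mod_cast hK) (by positivity)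
      _ ≤ σ * Real.log (∏ p ∈ F, p : ℕ) := hle
      _ ≤ _ := mul_le_mul_of_nonneg_left hsum hσ
  have hSz := szp hσ hV hheight hab hjK L hδ.le 1
  refine le_trans ?_ (h K hK a b hab hab' L hSz ρ M P T hM hP hT hor)
  have hpos : 0 ≤ 1 + absH (jinv (a : K) b) + logNorms T / finrank ℚ L := by
    have h2 : 0 ≤ absH (jinv (a : K) b) := by
      unfold absH
      exact div_nonneg (zero_le_logHeight₁ _) (Nat.cast_nonneg _)
    have h3 : 0 ≤ logNorms T / finrank ℚ L :=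
      div_nonneg (Finset.sum_nonneg fun _ _ => Real.log_natCast_nonneg _) (Nat.cast_nonneg _)
    linarith
  refine mul_le_mul_of_nonneg_right ?_ hpos
  split_ifs
  · exact min_le_left _ _
  · exact min_le_right _ _

/-- **almost all rational arguments** -/
theorem main_rat (N d g : ℕ) (hg : 0 < g) (κ : ℝ) (hκ : 0 ≤ κ) : ∃ c : ℝ, 0 < c ∧
    ∀ A D : ℤ[X], Rat N A D → ∀ δ : ℝ, 0 < δ → ∀ᶠ B : ℕ in atTop, ∃ E : Finset (ℤ × ℤ),
      (E.card : ℝ) ≤ δ * (B : ℝ) ^ 2 ∧ ∀ P ∈ Box B, P ∉ E → fv N D P.1 P.2 ≠ 0 ∧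
        AllCurves c d g κ (fv N A P.1 P.2 / fv N D P.1 P.2) := by
  classical
  obtain ⟨c, hc, hmain⟩ := of_poles d g hg κ (4 * N * d) hκ (by positivity)
  refine ⟨c, hc, fun A D hR δ hδ => ?_⟩
  obtain ⟨c0, hc0, hev⟩ := poles hR δ hδ
  obtain ⟨C, hC⟩ : ∃ C : ℝ, C = (∑ i ∈ range (N + 1), |(A.coeff i : ℝ)|) +
    (∑ i ∈ range (N + 1), |(D.coeff i : ℝ)|) + 1 := ⟨_, rfl⟩
  have hA0 : 0 ≤ ∑ i ∈ range (N + 1), |(A.coeff i : ℝ)| := sum_nonneg fun _ _ => abs_nonneg _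
  have hD0 : 0 ≤ ∑ i ∈ range (N + 1), |(D.coeff i : ℝ)| := sum_nonneg fun _ _ => abs_nonneg _
  have hC1 : 1 ≤ C := by rw [hC]; linarith
  have hN : (1 : ℝ) ≤ N := by exact_mod_cast hR.pos
  have hcast := tendsto_natCast_atTop_atTop (R := ℝ)
  have t1 : Tendsto (fun B : ℕ => Real.log (B : ℝ)) atTop atTop := Real.tendsto_log_atTop.comp hcast
  have t2 : Tendsto (fun B : ℕ => c0 * (B : ℝ)) atTop atTop := hcast.const_mul_atTop hc0
  filter_upwards [hev, t1.eventually_ge_atTop (Real.log C + 2 * |Real.log c0|),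
    t2.eventually_ge_atTop 2, eventually_ge_atTop 1] with B h1 h2 h3 h4
  obtain ⟨E, hE, hg'⟩ := h1
  have hB : (1 : ℝ) ≤ B := by exact_mod_cast h4
  refine ⟨E, hE, fun P hP hPE => ?_⟩
  obtain ⟨k1, F, hF, k2⟩ := hg' P hP hPE
  refine ⟨k1, ?_⟩
  have hPb := mem_Box.mp hP
  have hm : max |(P.1 : ℝ)| |(P.2 : ℝ)| ≤ B := by
    refine max_le ?_ ?_
    · exact_mod_cast hPb.1.1
    · exact_mod_cast hPb.1.2
  have hm0 : 0 ≤ max |(P.1 : ℝ)| |(P.2 : ℝ)| := le_max_of_le_left (abs_nonneg _)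
  have hpw : (max |(P.1 : ℝ)| |(P.2 : ℝ)|) ^ N ≤ (B : ℝ) ^ N := pow_le_pow_left₀ hm0 hm N
  have hbd : ∀ f : ℤ[X], (∑ i ∈ range (N + 1), |(f.coeff i : ℝ)|) ≤ C →
      |(fv N f P.1 P.2 : ℝ)| ≤ C * (B : ℝ) ^ N := by
    intro f hf
    refine (fv_le N f P.1 P.2).trans ?_
    exact mul_le_mul hf hpw (by positivity) (by linarith)
  have hprod : (2 : ℝ) ≤ ((∏ p ∈ F, p : ℕ) : ℝ) := by linarith
  have hx : fv N A P.1 P.2 ≠ 0 := by
    intro h0
    have hne : F.Nonempty := by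
      rw [nonempty_iff_ne_empty]
      rintro rfl
      simp at hprod
    obtain ⟨p, hp⟩ := hne
    refine (hF p hp).2.2 ?_
    rw [h0]
    exact dvd_zero _
  have hlog : Real.log (c0 * B) ≤ Real.log ((∏ p ∈ F, p : ℕ) : ℝ) :=
    Real.log_le_log (by linarith) k2
  rw [Real.log_mul hc0.ne' (by linarith)] at hlog
  refine hmain _ _ F k1 (fun p hp => ⟨(hF p hp).1, (hF p hp).2.1, (hF p hp).2.2⟩)
    ⟨C * (B : ℝ) ^ N, hbd A (by rw [hC]; linarith), hbd D (by rw [hC]; linarith), hx, ?_⟩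
  rw [Real.log_mul (by linarith) (by positivity), Real.log_pow]
  have hd : (0 : ℝ) ≤ d := Nat.cast_nonneg d
  have h5 : 0 ≤ |Real.log c0| := abs_nonneg _
  have h6 := neg_abs_le (Real.log c0)
  have h7 : 0 ≤ Real.log C := Real.log_nonneg hC1
  have h8 : Real.log C + N * Real.log B ≤ 2 * N * Real.log ((∏ p ∈ F, p : ℕ) : ℝ) := by
    have h9 : Real.log C ≤ N * Real.log B - 2 * N * |Real.log c0| := by
      have : Real.log C ≤ N * (Real.log B - 2 * |Real.log c0|) := by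
        have h10 : Real.log C ≤ Real.log B - 2 * |Real.log c0| := by linarith
        nlinarith
      linarith
    nlinarith
  have h10 := mul_le_mul_of_nonneg_left h8 (by positivity : (0 : ℝ) ≤ 2 * d)
  calc (d : ℝ) * (2 * (Real.log C + N * Real.log B)) = 2 * d * (Real.log C + N * Real.log B) := by ring
    _ ≤ 2 * d * (2 * N * Real.log ((∏ p ∈ F, p : ℕ) : ℝ)) := h10
    _ = _ := by ring

end Pool.Agent.N365.LS
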