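import Pool.Agent.N365.SZ.C2

/-!
# The radical of the values of a polynomial at almost all integers
-/

set_option autoImplicit false

namespace Pool.Agent.N365.LS

open Finset Polynomial Filter
open Pool.Agent.N365.SZ
open Pool.Agent.Y670.RD (fv toQ gp)
open Pool.Agent.Y679.Md (rS rS_pos)

/-- a residue class -/
theorem fiber_card {B q : ℕ} (hq : 1 ≤ q) (G : Finset ℤ) (hG : ∀ t ∈ G, |t| ≤ (B : ℤ))
    (h : ∀ t ∈ G, ∀ t' ∈ G, (q : ℤ) ∣ t - t') : (G.card : ℝ) ≤ 2 * B / q + 1 := by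
  have hq0 : (0 : ℤ) < q := by exact_mod_cast hq
  have hqR : (0 : ℝ) < q := by exact_mod_cast hq
  rcases G.eq_empty_or_nonempty with rfl | hne
  · simp only [card_empty, Nat.cast_zero]
    positivity
  obtain ⟨t0, ht0, hmin⟩ : ∃ t0 ∈ G, ∀ t ∈ G, t0 ≤ t := ⟨G.min' hne, G.min'_mem hne,
    fun t ht => G.min'_le t ht⟩
  have hcard : G.card ≤ (range (2 * B / q + 1)).card := by
    refine card_le_card_of_injOn (fun t => ((t - t0) / q).toNat) ?_ ?_
    · intro t ht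
      rw [mem_coe] at ht
      rw [coe_range, Set.mem_Iio]
      have h1 := hmin t ht
      have h2 := (abs_le.mp (hG t ht)).2
      have h3 := (abs_le.mp (hG t0 ht0)).1
      have h4 : (t - t0) / (q : ℤ) ≤ ((2 * B / q : ℕ) : ℤ) := by
        rw [Int.natCast_ediv]
        push_cast
        exact Int.ediv_le_ediv hq0 (by linarith)
      show ((t - t0) / (q : ℤ)).toNat < 2 * B / q + 1
      obtain ⟨x, hx⟩ : ∃ x : ℤ, x = (t - t0) / (q : ℤ) := ⟨_, rfl⟩
      obtain ⟨y, hy⟩ : ∃ y : ℕ, y = 2 * B / q := ⟨_, rfl⟩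
      rw [← hx, ← hy] at h4 ⊢
      omega
    · intro t ht t' ht' he
      rw [mem_coe] at ht ht'
      simp only at he
      have h1 := hmin t ht
      have h1' := hmin t' ht'
      have h2 : 0 ≤ (t - t0) / q := Int.ediv_nonneg (by linarith) hq0.le
      have h2' : 0 ≤ (t' - t0) / q := Int.ediv_nonneg (by linarith) hq0.le
      have h3 : (t - t0) / (q : ℤ) = (t' - t0) / (q : ℤ) := by
        obtain ⟨x, hx⟩ : ∃ x : ℤ, x = (t - t0) / (q : ℤ) := ⟨_, rfl⟩
        obtain ⟨y, hy⟩ : ∃ y : ℤ, y = (t' - t0) / (q : ℤ) := ⟨_, rfl⟩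
        rw [← hx, ← hy] at he ⊢
        rw [← hx] at h2
        rw [← hy] at h2'
        omega
      have h4 := Int.ediv_mul_cancel (h t ht t0 ht0)
      have h5 := Int.ediv_mul_cancel (h t' ht' t0 ht0)
      rw [h3] at h4
      linarith
  rw [card_range] at hcard
  have h6 : ((2 * B / q : ℕ) : ℝ) ≤ 2 * B / q := by
    have := @Nat.cast_div_le ℝ _ _ _ (2 * B) q
    push_cast at this
    exact this
  have h7 : (G.card : ℝ) ≤ ((2 * B / q : ℕ) : ℝ) + 1 := by exact_mod_cast hcard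
  linarith

theorem cls_card {B q : ℕ} (hq : 1 ≤ q) (A : Finset ℤ) (hA : ∀ t ∈ A, |t| ≤ (B : ℤ)) (m : ℕ)
    (r : ℤ → ℤ) (T : Finset ℤ) (hT : T.card ≤ m) (hr : ∀ t ∈ A, r t ∈ T)
    (h : ∀ t ∈ A, ∀ t' ∈ A, r t = r t' → (q : ℤ) ∣ t - t') :
    (A.card : ℝ) ≤ m * (2 * B / q + 1) := by
  classical
  have hqR : (0 : ℝ) < q := by exact_mod_cast hq
  rw [card_eq_sum_card_fiberwise (f := r) (t := T) (fun t ht => hr t ht)]
  push_cast
  calc ∑ b ∈ T, (((A.filter fun a => r a = b).card : ℕ) : ℝ) ≤ ∑ _b ∈ T, (2 * (B : ℝ) / q + 1) := by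
        refine sum_le_sum fun b _ => fiber_card hq _ (fun t ht => hA t (mem_filter.mp ht).1) ?_
        intro t ht t' ht'
        rw [mem_filter] at ht ht'
        exact h t ht.1 t' ht'.1 (by rw [ht.2, ht'.2])
    _ = T.card * (2 * (B : ℝ) / q + 1) := by rw [sum_const, nsmul_eq_mul]
    _ ≤ m * (2 * (B : ℝ) / q + 1) := by
        refine mul_le_mul_of_nonneg_right (by exact_mod_cast hT) (by positivity)

/-- the integers in `[- B, B]` at which `p ^ k` divides the value -/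
noncomputable def Z (f : ℤ[X]) (B p k : ℕ) : Finset ℤ := by
  classical
  exact (Icc (-(B : ℤ)) B).filter fun t => (p : ℤ) ^ k ∣ f.eval t

theorem mem_Z {f : ℤ[X]} {B p k : ℕ} {t : ℤ} :
    t ∈ Z f B p k ↔ |t| ≤ (B : ℤ) ∧ (p : ℤ) ^ k ∣ f.eval t := by
  classical
  unfold Z
  rw [mem_filter, mem_Icc, abs_le]

theorem sq_card {f u w : ℤ[X]} {R : ℤ} (hR : C R = u * f + w * f.derivative) {p : ℕ}
    (hp : p.Prime) (hpR : ¬ (p : ℤ) ∣ R) (B : ℕ) :
    ((Z f B p 2).card : ℝ) ≤ f.natDegree * (2 * B / (p : ℝ) ^ 2 + 1) := by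
  classical
  have := Fact.mk hp
  have hp0 : (0 : ℤ) < p := by exact_mod_cast hp.pos
  have hRx : ∀ x : ℤ, R = u.eval x * f.eval x + w.eval x * f.derivative.eval x := by
    intro x
    have := congrArg (eval x) hR
    rwa [eval_C, eval_add, eval_mul, eval_mul] at this
  obtain ⟨T, hT⟩ : ∃ T : Finset ℤ, T = (Ico (0 : ℤ) p).filter fun x => (p : ℤ) ∣ f.eval x := ⟨_, rfl⟩
  have hfp : f.map (Int.castRingHom (ZMod p)) ≠ 0 := by
    intro h0
    apply hpR
    rw [← ZMod.intCast_zmod_eq_zero_iff_dvd]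
    have h1 := congrArg (fun g : ℤ[X] => (g.map (Int.castRingHom (ZMod p)))) hR
    simp only [Polynomial.map_add, Polynomial.map_mul, map_C, h0, mul_zero, zero_add,
      ← derivative_map, derivative_zero] at h1
    have h2 := C_eq_zero.mp h1
    simpa using h2
  have hTc : T.card ≤ f.natDegree := by
    have h1 : T.card ≤ (f.map (Int.castRingHom (ZMod p))).roots.toFinset.card := by
      refine card_le_card_of_injOn (fun x => (x : ZMod p)) ?_ ?_
      · intro x hx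
        rw [mem_coe, hT, mem_filter] at hx
        rw [mem_coe, Multiset.mem_toFinset, mem_roots hfp, IsRoot.def, eval_intCast_map,
          eq_intCast]
        have h2 := (ZMod.intCast_zmod_eq_zero_iff_dvd (f.eval x) p).mpr hx.2
        simpa using h2
      · intro x hx y hy hxy
        rw [mem_coe, hT, mem_filter, mem_Ico] at hx hy
        simp only at hxy
        rw [ZMod.intCast_eq_intCast_iff_dvd_sub] at hxy
        have h3 := Int.eq_zero_of_abs_lt_dvd hxy (by rw [abs_lt]; constructor <;> omega)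
        omega
    exact h1.trans ((Multiset.toFinset_card_le _).trans ((card_roots' _).trans natDegree_map_le))
  have hpp : ((p ^ 2 : ℕ) : ℝ) = (p : ℝ) ^ 2 := by push_cast; ring
  rw [← hpp]
  refine cls_card (Nat.one_le_pow _ _ hp.pos) (Z f B p 2) (fun t ht => (mem_Z.mp ht).1) _
    (fun t => t % p) T hTc ?_ ?_
  · intro t ht
    rw [hT, mem_filter, mem_Ico]
    refine ⟨⟨Int.emod_nonneg _ hp0.ne', Int.emod_lt_of_pos _ hp0⟩, ?_⟩
    have h1 : (p : ℤ) ∣ f.eval t := (dvd_pow_self (p : ℤ) two_ne_zero).trans (mem_Z.mp ht).2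
    have h2 : (p : ℤ) ∣ t - t % p := Int.dvd_self_sub_emod
    have h3 : (p : ℤ) ∣ f.eval t - f.eval (t % p) := h2.trans (sub_dvd_eval_sub t (t % p) f)
    exact (dvd_sub_right h1).mp h3
  · intro t ht t' ht' he
    have h1 : (p : ℤ) ∣ t - t' := Int.ModEq.dvd (Int.ModEq.symm he)
    push_cast
    refine hensel hp (mem_Z.mp ht).2 (mem_Z.mp ht').2 h1 fun hd => hpR ?_
    rw [hRx t']
    exact dvd_add (((dvd_pow_self (p : ℤ) two_ne_zero).trans (mem_Z.mp ht').2).mul_left _)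
      (hd.mul_left _)

/-- powers of a fixed prime -/
theorem pow_card {f u w : ℤ[X]} {R : ℤ} (hR0 : R ≠ 0) (hR : C R = u * f + w * f.derivative) {p : ℕ}
    (hp : p.Prime) (δ : ℝ) (hδ : 0 < δ) : ∃ k : ℕ, ∀ᶠ B : ℕ in atTop,
      ((Z f B p k).card : ℝ) ≤ δ * B := by
  classical
  have hp0 : (0 : ℤ) < p := by exact_mod_cast hp.pos
  have hpr : Prime (p : ℤ) := Nat.prime_iff_prime_int.mp hp
  have hRx : ∀ x : ℤ, R = u.eval x * f.eval x + w.eval x * f.derivative.eval x := by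
    intro x
    have := congrArg (eval x) hR
    rwa [eval_C, eval_add, eval_mul, eval_mul] at this
  obtain ⟨e, he⟩ : ∃ e : ℕ, ¬ (p : ℤ) ^ e ∣ R := by
    refine ⟨R.natAbs, fun hd => ?_⟩
    have h1 := Int.natAbs_dvd_natAbs.mpr hd
    rw [Int.natAbs_pow, Int.natAbs_natCast] at h1
    have h2 := Nat.le_of_dvd (Int.natAbs_pos.mpr hR0) h1
    have h3 := Nat.lt_pow_self hp.one_lt (n := R.natAbs)
    omega
  have hpR : (1 : ℝ) < p := by exact_mod_cast hp.one_lt
  obtain ⟨j, hj⟩ : ∃ j : ℕ, 4 * (p : ℝ) ^ e / δ ≤ (p : ℝ) ^ j := by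
    obtain ⟨j, hj⟩ := pow_unbounded_of_one_lt (4 * (p : ℝ) ^ e / δ) hpR
    exact ⟨j, hj.le⟩
  refine ⟨e + j, ?_⟩
  filter_upwards [eventually_ge_atTop ⌈2 * (p : ℝ) ^ e / δ⌉₊] with B hB
  have hB' : 2 * (p : ℝ) ^ e / δ ≤ B := (Nat.le_ceil _).trans (by exact_mod_cast hB)
  have hpe : (0 : ℝ) < (p : ℝ) ^ e := by positivity
  have hpj : (0 : ℝ) < (p : ℝ) ^ j := by positivity
  have hmain : ((Z f B p (e + j)).card : ℝ) ≤ ((p ^ e : ℕ) : ℝ) * (2 * B / ((p ^ j : ℕ) : ℝ) + 1) := by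
    refine cls_card (Nat.one_le_pow _ _ hp.pos) _ (fun t ht => (mem_Z.mp ht).1) _
      (fun t => t % ((p ^ e : ℕ) : ℤ)) (Ico (0 : ℤ) ((p ^ e : ℕ) : ℤ)) ?_ ?_ ?_
    · rw [Int.card_Ico]
      simp
    · intro t _
      have h1 : (0 : ℤ) < ((p ^ e : ℕ) : ℤ) := by exact_mod_cast Nat.pow_pos hp.pos
      rw [mem_Ico]
      exact ⟨Int.emod_nonneg _ h1.ne', Int.emod_lt_of_pos _ h1⟩
    · intro t ht t' ht' hmod
      have h1 : ((p ^ e : ℕ) : ℤ) ∣ t' - t := Int.ModEq.dvd hmod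
      push_cast at h1 ⊢
      obtain ⟨q, hq⟩ := f.binomExpansion t (t' - t)
      have e1 : t + (t' - t) = t' := by ring
      rw [e1] at hq
      have h2 : (p : ℤ) ^ (e + j) ∣ (f.derivative.eval t + q * (t' - t)) * (t' - t) := by
        have e2 : (f.derivative.eval t + q * (t' - t)) * (t' - t) = f.eval t' - f.eval t := by
          rw [hq]; ring
        rw [e2]
        exact dvd_sub (mem_Z.mp ht').2 (mem_Z.mp ht).2
      have h3 : ¬ (p : ℤ) ^ e ∣ f.derivative.eval t + q * (t' - t) := by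
        intro hd
        have h4 : (p : ℤ) ^ e ∣ f.derivative.eval t := by
          have := dvd_sub hd (h1.mul_left q)
          rwa [add_sub_cancel_right] at this
        apply he
        rw [hRx t]
        exact dvd_add ((((pow_dvd_pow _ (Nat.le_add_right e j)).trans (mem_Z.mp ht).2)).mul_left _)
          (h4.mul_left _)
      have h5 := pow_split hpr h2 h3
      rwa [← dvd_neg, neg_sub] at h5
  refine hmain.trans ?_
  push_cast
  rw [div_le_iff₀ hδ] at hB' hj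
  have hB0 : (0 : ℝ) ≤ B := Nat.cast_nonneg B
  have h6 : (p : ℝ) ^ e * (2 * B / (p : ℝ) ^ j) ≤ δ / 2 * B := by
    rw [← mul_div_assoc, div_le_iff₀ hpj]
    nlinarith
  have h7 : (p : ℝ) ^ e ≤ δ / 2 * B := by linarith
  linarith

theorem fv_int (N : ℕ) {f : ℤ[X]} (hf : f.natDegree ≤ N) (t : ℤ) : fv N f t 1 = f.eval t := by
  have h := fv_mul_self hf t 1
  rw [mul_one, one_pow, one_mul] at h
  exact h

/-- large values -/
theorem large_val {f : ℤ[X]} (hf : 1 ≤ f.natDegree) : ∃ A0 : ℝ, 0 ≤ A0 ∧ ∀ t : ℤ,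
    |(t : ℝ)| - A0 ≤ |((f.eval t : ℤ) : ℝ)| := by
  have hf0 : f ≠ 0 := by
    rintro rfl
    simp at hf
  obtain ⟨A1, hA1⟩ : ∃ A1 : ℝ, A1 = ∑ α ∈ (f.map (Int.castRingHom ℂ)).roots.toFinset, |α.re| :=
    ⟨_, rfl⟩
  have hA10 : 0 ≤ A1 := by rw [hA1]; exact sum_nonneg fun _ _ => abs_nonneg _
  have hle : ∀ α ∈ (f.map (Int.castRingHom ℂ)).roots, |α.re| ≤ A1 := by
    intro α hα
    rw [hA1]
    exact single_le_sum (f := fun α : ℂ => |α.re|) (fun _ _ => abs_nonneg _)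
      (Multiset.mem_toFinset.mpr hα)
  refine ⟨A1 + 1, by linarith, fun t => ?_⟩
  rcases le_or_gt (|(t : ℝ)|) (A1 + 1) with h | h
  · have := abs_nonneg ((f.eval t : ℤ) : ℝ)
    linarith
  · by_contra hcon
    push Not at hcon
    obtain ⟨ρ, hρ⟩ : ∃ ρ : ℝ, ρ = |(t : ℝ)| - A1 := ⟨_, rfl⟩
    have hρ1 : 1 ≤ ρ := by rw [hρ]; linarith
    have h1 : ρ ≤ ρ ^ f.natDegree := by
      calc ρ = ρ ^ 1 := (pow_one _).symm
        _ ≤ _ := pow_le_pow_right₀ hρ1 hf
    obtain ⟨α, hα, h2⟩ := small_root hf0 (s := t) (t := 1) one_ne_zero (ρ := ρ) (by linarith) (by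
      rw [fv_int _ le_rfl]
      linarith)
    have h3 := hle α hα
    push_cast at h2
    rw [mul_one] at h2
    have h4 : |(t : ℝ)| ≤ |(t : ℝ) - α.re| + |α.re| := by
      have := abs_add_le ((t : ℝ) - α.re) α.re
      rwa [sub_add_cancel] at this
    linarith

theorem pi1_small (δ : ℝ) (hδ : 0 < δ) : ∀ᶠ B : ℕ in atTop,
    (Nat.primeCounting B : ℝ) ≤ δ * (B : ℝ) := by
  have h1 := Chebyshev.eventually_primeCounting_le one_pos
  have h2 := tendsto_natCast_atTop_atTop (R := ℝ)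
  have h3 : Tendsto (fun B : ℕ => Real.log (B : ℝ)) atTop atTop := Real.tendsto_log_atTop.comp h2
  filter_upwards [h2.eventually h1, h3.eventually_ge_atTop ((Real.log 4 + 1) / δ),
    h3.eventually_ge_atTop 1] with B h4 h5 h6
  rw [Nat.floor_natCast] at h4
  refine h4.trans ?_
  have h7 : (0 : ℝ) < Real.log (B : ℝ) := by linarith
  rw [div_le_iff₀ h7]
  rw [div_le_iff₀ hδ] at h5
  have h8 : (0 : ℝ) ≤ (B : ℝ) := by positivity
  nlinarith

/-- **the counting theorem** -/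
theorem count_int {f : ℤ[X]} (hf : 1 ≤ f.natDegree) (hsq : Squarefree (toQ f)) (S1 : Finset ℕ)
    (hS1 : ∀ p ∈ S1, p.Prime) (δ : ℝ) (hδ : 0 < δ) : ∃ (S : Finset ℕ) (c : ℝ), S1 ⊆ S ∧ 0 < c ∧
      ∀ᶠ B : ℕ in atTop, ∃ E : Finset ℤ, (E.card : ℝ) ≤ δ * B ∧ ∀ t : ℤ, |t| ≤ (B : ℤ) → t ∉ E →
        f.eval t ≠ 0 ∧ c * (B : ℝ) ≤ (rS S (f.eval t).natAbs : ℝ) := by
  classical
  obtain ⟨R, u, w, hR0, hR⟩ := bez_der hsq
  obtain ⟨A0, hA0, hlarge⟩ := large_val hf
  have hd : (0 : ℝ) < f.natDegree := by exact_mod_cast hf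
  obtain ⟨z, hz⟩ : ∃ z : ℕ, z = ⌈16 * (f.natDegree : ℝ) / δ⌉₊ + 1 := ⟨_, rfl⟩
  have hzR : 16 * (f.natDegree : ℝ) / δ ≤ z := by
    rw [hz]
    push_cast
    have := Nat.le_ceil (16 * (f.natDegree : ℝ) / δ)
    linarith
  obtain ⟨S, hS⟩ : ∃ S : Finset ℕ, S = S1 ∪ R.natAbs.primeFactors ∪ (range (z + 1)).filter Nat.Prime :=
    ⟨_, rfl⟩
  have hSp : ∀ p ∈ S, p.Prime := by
    intro p hp
    rw [hS, mem_union, mem_union, mem_filter] at hp
    rcases hp with (h | h) | h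
    · exact hS1 p h
    · exact Nat.prime_of_mem_primeFactors h
    · exact h.2
  obtain ⟨δ', hδ'⟩ : ∃ δ' : ℝ, δ' = δ / (4 * (S.card + 1)) := ⟨_, rfl⟩
  have hδ'0 : 0 < δ' := by rw [hδ']; positivity
  have hk : ∀ p : ℕ, ∃ k : ℕ, p.Prime → ∀ᶠ B : ℕ in atTop, ((Z f B p k).card : ℝ) ≤ δ' * B := by
    intro p
    by_cases hp : p.Prime
    · obtain ⟨k, hk⟩ := pow_card hR0 hR hp δ' hδ'0
      exact ⟨k, fun _ => hk⟩
    · exact ⟨0, fun h => absurd h hp⟩
  choose k hk using hk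
  obtain ⟨Q, hQ⟩ : ∃ Q : ℕ, Q = ∏ p ∈ S, p ^ k p := ⟨_, rfl⟩
  have hQ1 : 1 ≤ Q := by
    rw [hQ]
    exact Nat.one_le_iff_ne_zero.mpr (prod_ne_zero_iff.mpr fun p hp =>
      pow_ne_zero _ (hSp p hp).ne_zero)
  have hQR : (1 : ℝ) ≤ Q := by exact_mod_cast hQ1
  obtain ⟨c, hc⟩ : ∃ c : ℝ, c = min 1 (δ / (32 * Q)) := ⟨_, rfl⟩
  have hc0 : 0 < c := by rw [hc]; exact lt_min one_pos (by positivity)
  have hc1 : c ≤ 1 := by rw [hc]; exact min_le_left _ _
  have hc2 : c ≤ δ / (32 * Q) := by rw [hc]; exact min_le_right _ _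
  refine ⟨S, c, ?_, hc0, ?_⟩
  · rw [hS]
    exact subset_union_left.trans subset_union_left
  have hev : ∀ᶠ B : ℕ in atTop, ∀ p ∈ S, ((Z f B p (k p)).card : ℝ) ≤ δ' * B := by
    rw [Filter.eventually_all_finset]
    exact fun p hp => hk p (hSp p hp)
  filter_upwards [hev, pi1_small (δ / (8 * f.natDegree)) (by positivity),
    eventually_ge_atTop ⌈32 * (A0 + 1) / δ⌉₊, eventually_ge_atTop 1] with B h1 h2 h3 h4
  have hB1 : (1 : ℝ) ≤ B := by exact_mod_cast h4
  have hBA : 32 * (A0 + 1) ≤ δ * B := by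
    have h5 : 32 * (A0 + 1) / δ ≤ B := (Nat.le_ceil _).trans (by exact_mod_cast h3)
    rw [div_le_iff₀ hδ] at h5
    linarith
  obtain ⟨m, hm⟩ : ∃ m : ℕ, m = ⌊δ * B / 16⌋₊ := ⟨_, rfl⟩
  have hmle : (m : ℝ) ≤ δ * B / 16 := by rw [hm]; exact Nat.floor_le (by positivity)
  have hmlt : δ * B / 16 < m + 1 := by rw [hm]; exact Nat.lt_floor_add_one _
  obtain ⟨E1, hE1⟩ : ∃ E1 : Finset ℤ, E1 = Icc (-(m : ℤ)) m := ⟨_, rfl⟩
  obtain ⟨E2, hE2⟩ : ∃ E2 : Finset ℤ, E2 = S.biUnion fun p => Z f B p (k p) := ⟨_, rfl⟩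
  obtain ⟨E3, hE3⟩ : ∃ E3 : Finset ℤ, E3 = ((Ioc z B).filter Nat.Prime \ S).biUnion
    fun p => Z f B p 2 := ⟨_, rfl⟩
  have c1 : (E1.card : ℝ) ≤ δ / 4 * B := by
    rw [hE1, Int.card_Icc]
    have e : ((m : ℤ) + 1 - -(m : ℤ)).toNat = 2 * m + 1 := by omega
    rw [e]
    push_cast
    nlinarith
  have c2 : (E2.card : ℝ) ≤ δ / 4 * B := by
    rw [hE2]
    calc ((S.biUnion fun p => Z f B p (k p)).card : ℝ) ≤ ∑ p ∈ S, ((Z f B p (k p)).card : ℝ) := by
          exact_mod_cast card_biUnion_le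
      _ ≤ ∑ _p ∈ S, δ' * B := sum_le_sum h1
      _ = S.card * (δ' * B) := by rw [sum_const, nsmul_eq_mul]
      _ ≤ (S.card + 1) * (δ' * B) := by
          refine mul_le_mul_of_nonneg_right (by linarith) (by positivity)
      _ = δ / 4 * B := by rw [hδ']; field_simp
  have c3 : (E3.card : ℝ) ≤ δ / 4 * B := by
    rw [hE3]
    have g1 : ((((Ioc z B).filter Nat.Prime \ S).biUnion fun p => Z f B p 2).card : ℝ) ≤
        ∑ p ∈ (Ioc z B).filter Nat.Prime \ S, ((Z f B p 2).card : ℝ) := by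
      exact_mod_cast card_biUnion_le
    have g2 : ∑ p ∈ (Ioc z B).filter Nat.Prime \ S, ((Z f B p 2).card : ℝ) ≤
        ∑ p ∈ (Ioc z B).filter Nat.Prime \ S, (f.natDegree * (2 * B / (p : ℝ) ^ 2 + 1) : ℝ) := by
      refine sum_le_sum fun p hp => ?_
      rw [Finset.mem_sdiff, mem_filter] at hp
      refine sq_card hR hp.1.2 (fun hd => hp.2 ?_) B
      rw [hS, mem_union, mem_union]
      refine Or.inl (Or.inr ?_)
      rw [Nat.mem_primeFactors]
      exact ⟨hp.1.2, by rwa [← Int.natCast_dvd], Int.natAbs_ne_zero.mpr hR0⟩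
    have g3 : ∑ p ∈ (Ioc z B).filter Nat.Prime \ S, (f.natDegree * (2 * B / (p : ℝ) ^ 2 + 1) : ℝ) ≤
        ∑ p ∈ (Ioc z B).filter Nat.Prime, (f.natDegree * (2 * B / (p : ℝ) ^ 2 + 1) : ℝ) :=
      sum_le_sum_of_subset_of_nonneg sdiff_subset fun p _ _ => by positivity
    have g4 : ∑ p ∈ (Ioc z B).filter Nat.Prime, (f.natDegree * (2 * B / (p : ℝ) ^ 2 + 1) : ℝ) ≤
        f.natDegree * (2 * B) / z + f.natDegree * Nat.primeCounting B := by
      have h0 : ∀ p ∈ (Ioc z B).filter Nat.Prime, (f.natDegree * (2 * B / (p : ℝ) ^ 2 + 1) : ℝ) =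
          (f.natDegree * (2 * B)) * ((p : ℝ) ^ 2)⁻¹ + f.natDegree := fun p _ => by
        rw [div_eq_mul_inv]; ring
      rw [sum_congr rfl h0, sum_add_distrib, ← mul_sum, sum_const, nsmul_eq_mul]
      have k1 : ∑ p ∈ (Ioc z B).filter Nat.Prime, ((p : ℝ) ^ 2)⁻¹ ≤ (z : ℝ)⁻¹ := by
        refine (sum_le_sum_of_subset_of_nonneg (filter_subset _ _) fun i _ _ => by positivity).trans ?_
        rcases le_or_gt z B with h | h
        · refine (sum_Ioc_inv_sq_le_sub (by omega) h).trans ?_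
          have : (0 : ℝ) ≤ (B : ℝ)⁻¹ := by positivity
          linarith
        · rw [Ioc_eq_empty (by omega), sum_empty]
          positivity
      have k2 : (((Ioc z B).filter Nat.Prime).card : ℝ) ≤ Nat.primeCounting B := by
        have : ((Ioc z B).filter Nat.Prime).card ≤ Nat.primeCounting B := by
          rw [Nat.primeCounting, Nat.primeCounting', Nat.count_eq_card_filter_range]
          refine card_le_card ?_
          intro p hp
          rw [mem_filter, mem_Ioc] at hp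
          rw [mem_filter, mem_range]
          exact ⟨by omega, hp.2⟩
        exact_mod_cast this
      have k3 : (f.natDegree * (2 * B) : ℝ) * ∑ p ∈ (Ioc z B).filter Nat.Prime, ((p : ℝ) ^ 2)⁻¹ ≤
          f.natDegree * (2 * B) * (z : ℝ)⁻¹ := mul_le_mul_of_nonneg_left k1 (by positivity)
      have k4 : (((Ioc z B).filter Nat.Prime).card : ℝ) * f.natDegree ≤
          Nat.primeCounting B * f.natDegree := mul_le_mul_of_nonneg_right k2 (by positivity)
      rw [div_eq_mul_inv]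
      linarith
    have hz0 : (0 : ℝ) < z := by
      have : 0 < z := by omega
      exact_mod_cast this
    have g5 : f.natDegree * (2 * B) / (z : ℝ) ≤ δ / 8 * B := by
      rw [div_le_iff₀ hz0]
      rw [div_le_iff₀ hδ] at hzR
      nlinarith
    have g6 : (f.natDegree : ℝ) * Nat.primeCounting B ≤ δ / 8 * B := by
      calc (f.natDegree : ℝ) * Nat.primeCounting B ≤ f.natDegree * (δ / (8 * f.natDegree) * B) :=
            mul_le_mul_of_nonneg_left h2 hd.le
        _ = δ / 8 * B := by field_simp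
    linarith
  refine ⟨E1 ∪ E2 ∪ E3, ?_, fun t ht hE => ?_⟩
  · have h5 : ((E1 ∪ E2 ∪ E3).card : ℝ) ≤ (E1.card : ℝ) + E2.card + E3.card := by
      have k1 := card_union_le (E1 ∪ E2) E3
      have k2 := card_union_le E1 E2
      have k3 : (E1 ∪ E2 ∪ E3).card ≤ E1.card + E2.card + E3.card := by omega
      exact_mod_cast k3
    have h6 : 0 ≤ δ * B := by positivity
    linarith
  · rw [mem_union, mem_union, not_or, not_or] at hE
    obtain ⟨⟨n1, n2⟩, n3⟩ := hE
    have ht1 : (m : ℝ) + 1 ≤ |(t : ℝ)| := by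
      have h5 : (m : ℤ) < |t| := by
        by_contra hcon
        push Not at hcon
        apply n1
        rw [hE1, mem_Icc]
        exact abs_le.mp hcon
      have h6 : (m : ℤ) + 1 ≤ |t| := h5
      exact_mod_cast h6
    have hval : δ * B / 32 ≤ |((f.eval t : ℤ) : ℝ)| := by
      have := hlarge t
      linarith
    have hval0 : 0 < |((f.eval t : ℤ) : ℝ)| := by
      have : 0 < δ * B / 32 := by positivity
      linarith
    have hne : f.eval t ≠ 0 := by
      intro h0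
      rw [h0] at hval0
      simp at hval0
    have hy : (f.eval t).natAbs ≠ 0 := Int.natAbs_ne_zero.mpr hne
    refine ⟨hne, ?_⟩
    by_cases hbig : ∃ p : ℕ, p.Prime ∧ p ∉ S ∧ B < p ∧ p ∣ (f.eval t).natAbs
    · obtain ⟨p, hp, hpS, hpB, hpd⟩ := hbig
      have h5 := le_rS hy hp hpS hpd
      have h6 : (B : ℝ) ≤ (rS S (f.eval t).natAbs : ℝ) := by exact_mod_cast (by omega)
      nlinarith
    · push Not at hbig
      have hg : gp S (f.eval t).natAbs = rS S (f.eval t).natAbs := by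
        refine gp_rS hy fun p hp hpS hd => ?_
        have h5 : p ≤ B := by
          by_contra hcon
          push Not at hcon
          exact hbig p hp hpS hcon ((dvd_pow_self p two_ne_zero).trans hd)
        apply n3
        rw [hE3, mem_biUnion]
        refine ⟨p, ?_, mem_Z.mpr ⟨ht, ?_⟩⟩
        · rw [Finset.mem_sdiff, mem_filter, mem_Ioc]
          refine ⟨⟨⟨?_, h5⟩, hp⟩, hpS⟩
          by_contra hcon
          apply hpS
          rw [hS, mem_union, mem_filter, mem_range]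
          exact Or.inr ⟨by omega, hp⟩
        · rw [← Int.natCast_pow, Int.natCast_dvd]
          exact hd
      have h6 := gp_ge hy hSp k (fun p hp hd => n2 (by
        rw [hE2, mem_biUnion]
        refine ⟨p, hp, mem_Z.mpr ⟨ht, ?_⟩⟩
        rw [← Int.natCast_pow, Int.natCast_dvd]
        exact hd))
      rw [hg, ← hQ] at h6
      have h7 : ((f.eval t).natAbs : ℝ) ≤ (Q : ℝ) * (rS S (f.eval t).natAbs : ℝ) := by
        exact_mod_cast h6
      have h8 : ((f.eval t).natAbs : ℝ) = |((f.eval t : ℤ) : ℝ)| := by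
        rw [Nat.cast_natAbs, Int.cast_abs]
      rw [h8] at h7
      have h9 : c * B * Q ≤ δ * B / 32 := by
        have h10 : c * (32 * Q) ≤ δ := by
          rwa [le_div_iff₀ (by positivity)] at hc2
        nlinarith
      have h11 : c * B * Q ≤ (rS S (f.eval t).natAbs : ℝ) * Q := by linarith
      exact le_of_mul_le_mul_right h11 (by linarith)

end Pool.Agent.N365.LS
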