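import Pool.Agent.N365.LS.C
import Pool.Agent.N365.LS.D

/-!
# The lower bound of Lang and Silverman at almost all integral arguments
-/

set_option autoImplicit false

namespace Pool.Agent.N365.LS

open Finset Polynomial Filter Module NumberField IsDedekindDomain Height TH951
open Pool.Agent.Y670.RD (fv fv_le toQ)
open Pool.Agent.Y679.Md (rS)
open Pool.Agent.TH910.LS Pool.Agent.Y725.LS

/-- the height of a quotient, from below -/
theorem le_logHeight (K : Type) [Field K] [NumberField K] {x y : ℤ} (hx : x ≠ 0) (hy : y ≠ 0) :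
    finrank ℚ K * (Real.log |(x : ℝ)| - Real.log |(y : ℝ)|) ≤ logHeight₁ ((x : K) / y) := by
  have hyK : (y : K) ≠ 0 := by exact_mod_cast hy
  have h1 : (x : K) = (x : K) / y * y := (div_mul_cancel₀ _ hyK).symm
  have h2 := logHeight₁_mul_le ((x : K) / y) (y : K)
  rw [← h1, logHeight_int K hx, logHeight_int K hy] at h2
  linarith

/-- polynomial invariants -/
theorem of_poly (d g : ℕ) (hg : 0 < g) (κ : ℝ) (hκ : 0 ≤ κ) : ∃ c : ℝ, 0 < c ∧
    ∀ y : ℤ, y ≠ 0 → ∃ X0 : ℝ, 0 ≤ X0 ∧ ∀ x : ℤ, X0 < |(x : ℝ)| → AllCurves c d g κ (x / y) := by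
  obtain ⟨c, δ, hc, hδ, h⟩ := dense_main d g 0 hg κ 1 hκ
  refine ⟨c, hc, fun y hy => ?_⟩
  obtain ⟨A, c₀, hc₀, h⟩ := h y.natAbs (Int.natAbs_ne_zero.mpr hy)
  refine ⟨Real.exp (A + Real.log |(y : ℝ)|), (Real.exp_pos _).le, fun x hxX => ?_⟩
  have hx0 : 0 < |(x : ℝ)| := (Real.exp_pos _).trans hxX
  have hx : x ≠ 0 := by
    rintro rfl
    simp at hx0
  intro K _ _ hK a b hab hab' hj L _ _ _ _ _
  refine ⟨chatLim a b hab L, fun ρ M P T hM hP hT hor => ?_⟩
  have hjK : jinv (a : K) b = (x : K) / y := by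
    rw [hj]
    push_cast
    rfl
  have hf : (0 : ℝ) < finrank ℚ K := by exact_mod_cast finrank_pos
  have hbig : A < absH (jinv (a : K) b) := by
    rw [hjK]
    unfold absH
    rw [lt_div_iff₀ hf]
    refine lt_of_lt_of_le ?_ (le_logHeight K hx hy)
    rw [mul_comm]
    refine mul_lt_mul_of_pos_left ?_ hf
    have h1 := (Real.lt_log_iff_exp_lt hx0).mpr hxX
    linarith
  have hSz : SzpiroLe 1 δ 0 y.natAbs a b L := by
    refine ⟨∅, ∅, by simp, by simp, fun S hS => ?_⟩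
    have hSe : S = ∅ := by
      rw [Finset.eq_empty_iff_forall_notMem]
      intro v hv
      obtain ⟨-, h1, h2⟩ := hS v hv
      have h3 : v.val (y : K) = 1 := by
        rcases Int.natAbs_eq y with h4 | h4
        · rw [h4, Int.cast_natCast]; exact h1
        · rw [h4, Int.cast_neg, AbsoluteValue.map_neg, Int.cast_natCast]; exact h1
      rw [hjK, map_div₀, h3, div_one] at h2
      have := int_le_one v x
      linarith
    rw [hSe]
    simp only [sum_empty, mul_zero, zero_add]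
    exact mul_nonneg hδ.le (zero_le_logHeight₁ _)
  have h1 := h K hK a b hab hab' L hSz ρ M P T hM hP hT hor
  rwa [if_pos hbig] at h1

/-- **the poles** -/
theorem poles_int {N : ℕ} {A D : ℤ[X]} (h : Rat N A D) (hD : 1 ≤ D.natDegree) (δ : ℝ) (hδ : 0 < δ) :
    ∃ c : ℝ, 0 < c ∧ ∀ᶠ B : ℕ in atTop, ∃ E : Finset ℤ, (E.card : ℝ) ≤ δ * B ∧
      ∀ t : ℤ, |t| ≤ (B : ℤ) → t ∉ E → D.eval t ≠ 0 ∧ ∃ F : Finset ℕ,
        (∀ p ∈ F, p.Prime ∧ (p : ℤ) ∣ D.eval t ∧ ¬ (p : ℤ) ∣ A.eval t) ∧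
          c * (B : ℝ) ≤ ((∏ p ∈ F, p : ℕ) : ℝ) := by
  classical
  obtain ⟨S0, hS0, hcop⟩ := h.cop
  obtain ⟨g, g', m, hm, hg1, hgsq, hgg, hdeg⟩ := pole_poly hD
  obtain ⟨S, c, hSS, hc, hev⟩ := count_int (f := g) hg1 hgsq (S0 ∪ m.natAbs.primeFactors)
    (fun p hp => by
      rcases mem_union.mp hp with h1 | h1
      · exact hS0 p h1
      · exact Nat.prime_of_mem_primeFactors h1) (δ / 2) (by positivity)
  refine ⟨c, hc, ?_⟩
  have hcast := tendsto_natCast_atTop_atTop (R := ℝ)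
  filter_upwards [hev, (hcast.const_mul_atTop (by positivity : 0 < δ / 2)).eventually_ge_atTop
    (D.roots.toFinset.card : ℝ)] with B h1 h2
  obtain ⟨E1, hE1, g1⟩ := h1
  refine ⟨E1 ∪ D.roots.toFinset, ?_, fun t ht hE => ?_⟩
  · have h5 : ((E1 ∪ D.roots.toFinset).card : ℝ) ≤ (E1.card : ℝ) + D.roots.toFinset.card := by
      exact_mod_cast card_union_le _ _
    linarith
  · rw [mem_union, not_or, Multiset.mem_toFinset, mem_roots h.D0] at hE
    obtain ⟨-, k2⟩ := g1 t ht hE.1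
    have l1 : D.eval t ≠ 0 := hE.2
    refine ⟨l1, (g.eval t).natAbs.primeFactors \ S, fun p hp => ?_, k2⟩
    rw [Finset.mem_sdiff, Nat.mem_primeFactors] at hp
    have hpr : Prime (p : ℤ) := Nat.prime_iff_prime_int.mp hp.1.1
    have hpt : (p : ℤ) ∣ g.eval t := by rw [Int.natCast_dvd]; exact hp.1.2.1
    have hpm : ¬ (p : ℤ) ∣ m := not_dvd_of hm hp.1.1 fun h5 =>
      hp.2 (hSS (mem_union_right _ h5))
    have hpD : (p : ℤ) ∣ D.eval t := by
      have e1 := congrArg (eval t) hgg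
      rw [eval_mul, eval_C, eval_mul] at e1
      have h5 : (p : ℤ) ∣ m * D.eval t := by
        rw [e1]; exact hpt.mul_right _
      exact (hpr.dvd_or_dvd h5).resolve_left hpm
    have h6 := hcop t 1 isCoprime_one_right p hp.1.1 (fun hs => hp.2 (hSS (mem_union_left _ hs)))
    rw [fv_int N h.degD, fv_int N h.degA] at h6
    exact ⟨hp.1.1, hpD, h6 hpD⟩

/-- **almost all integral arguments** -/
theorem main_int (N d g : ℕ) (hg : 0 < g) (κ : ℝ) (hκ : 0 ≤ κ) : ∃ c : ℝ, 0 < c ∧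
    ∀ A D : ℤ[X], Rat N A D → ∀ δ : ℝ, 0 < δ → ∀ᶠ B : ℕ in atTop, ∃ E : Finset ℤ,
      (E.card : ℝ) ≤ δ * B ∧ ∀ t : ℤ, |t| ≤ (B : ℤ) → t ∉ E → D.eval t ≠ 0 ∧
        AllCurves c d g κ ((A.eval t : ℤ) / (D.eval t : ℤ)) := by
  classical
  obtain ⟨c, hc, hmain⟩ := of_poles d g hg κ (4 * N * d) hκ (by positivity)
  obtain ⟨c', hc', hpoly⟩ := of_poly d g hg κ hκ
  refine ⟨min c c', lt_min hc hc', fun A D hR δ hδ => ?_⟩
  have hmono : ∀ (c₁ : ℝ) (j : ℚ), min c c' ≤ c₁ → AllCurves c₁ d g κ j →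
      AllCurves (min c c') d g κ j := by
    intro c₁ j hc₁ h K _ _ hK a b hab hab' hj L _ _ _ _ _
    obtain ⟨h1, h2⟩ := h K hK a b hab hab' hj L
    refine ⟨h1, fun ρ M P T hM hP hT hor => le_trans ?_ (h2 ρ M P T hM hP hT hor)⟩
    have hpos : 0 ≤ 1 + absH (jinv (a : K) b) + logNorms T / finrank ℚ L := by
      have h2 : 0 ≤ absH (jinv (a : K) b) := by
        unfold absH
        exact div_nonneg (zero_le_logHeight₁ _) (Nat.cast_nonneg _)
      have h3 : 0 ≤ logNorms T / finrank ℚ L :=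
        div_nonneg (Finset.sum_nonneg fun _ _ => Real.log_natCast_nonneg _) (Nat.cast_nonneg _)
      linarith
    exact mul_le_mul_of_nonneg_right hc₁ hpos
  have hcast := tendsto_natCast_atTop_atTop (R := ℝ)
  rcases Nat.eq_zero_or_pos D.natDegree with hD | hD
  · -- a polynomial
    obtain ⟨d0, hd0⟩ : ∃ d0 : ℤ, D = C d0 := ⟨_, eq_C_of_natDegree_eq_zero hD⟩
    have hd00 : d0 ≠ 0 := by
      rintro rfl
      exact hR.D0 (by rw [hd0, C_0])
    have hA : 1 ≤ A.natDegree := by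
      rcases hR.deg with h | h
      · rw [h]; exact hR.pos
      · have := hR.pos
        omega
    obtain ⟨X0, hX0, hall⟩ := hpoly d0 hd00
    obtain ⟨A0, hA0, hlarge⟩ := large_val hA
    obtain ⟨m, hm⟩ : ∃ m : ℕ, X0 + A0 ≤ m := exists_nat_ge _
    filter_upwards [(hcast.const_mul_atTop hδ).eventually_ge_atTop (2 * (m : ℝ) + 1)] with B h1
    refine ⟨Icc (-(m : ℤ)) m, ?_, fun t ht hE => ?_⟩
    · rw [Int.card_Icc]
      have e : ((m : ℤ) + 1 - -(m : ℤ)).toNat = 2 * m + 1 := by omega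
      rw [e]
      push_cast
      exact h1
    · have h2 : (m : ℤ) < |t| := by
        by_contra hcon
        push Not at hcon
        apply hE
        rw [mem_Icc]
        exact abs_le.mp hcon
      have h3 : (m : ℝ) < |(t : ℝ)| := by exact_mod_cast h2
      have h4 := hlarge t
      have e : D.eval t = d0 := by rw [hd0, eval_C]
      rw [e]
      exact ⟨hd00, hmono _ _ (min_le_right _ _) (hall _ (by linarith))⟩
  · -- a finite pole
    obtain ⟨c0, hc0, hev⟩ := poles_int hR hD δ hδ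
    obtain ⟨C, hC⟩ : ∃ C : ℝ, C = (∑ i ∈ range (N + 1), |(A.coeff i : ℝ)|) +
      (∑ i ∈ range (N + 1), |(D.coeff i : ℝ)|) + 1 := ⟨_, rfl⟩
    have hA0 : 0 ≤ ∑ i ∈ range (N + 1), |(A.coeff i : ℝ)| := sum_nonneg fun _ _ => abs_nonneg _
    have hD0 : 0 ≤ ∑ i ∈ range (N + 1), |(D.coeff i : ℝ)| := sum_nonneg fun _ _ => abs_nonneg _
    have hC1 : 1 ≤ C := by rw [hC]; linarith
    have hN : (1 : ℝ) ≤ N := by exact_mod_cast hR.pos
    have t1 : Tendsto (fun B : ℕ => Real.log (B : ℝ)) atTop atTop :=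
      Real.tendsto_log_atTop.comp hcast
    have t2 : Tendsto (fun B : ℕ => c0 * (B : ℝ)) atTop atTop := hcast.const_mul_atTop hc0
    filter_upwards [hev, t1.eventually_ge_atTop (Real.log C + 2 * |Real.log c0|),
      t2.eventually_ge_atTop 2, eventually_ge_atTop 1] with B h1 h2 h3 h4
    obtain ⟨E, hE, hg'⟩ := h1
    have hB : (1 : ℝ) ≤ B := by exact_mod_cast h4
    refine ⟨E, hE, fun t ht htE => ?_⟩
    obtain ⟨k1, F, hF, k2⟩ := hg' t ht htE
    refine ⟨k1, hmono _ _ (min_le_left _ _) ?_⟩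
    have hm : max |((t : ℤ) : ℝ)| |((1 : ℤ) : ℝ)| ≤ B := by
      refine max_le ?_ ?_
      · exact_mod_cast ht
      · rw [Int.cast_one, abs_one]
        exact hB
    have hm0 : 0 ≤ max |((t : ℤ) : ℝ)| |((1 : ℤ) : ℝ)| := le_max_of_le_left (abs_nonneg _)
    have hpw : (max |((t : ℤ) : ℝ)| |((1 : ℤ) : ℝ)|) ^ N ≤ (B : ℝ) ^ N := pow_le_pow_left₀ hm0 hm N
    have hbd : ∀ f : ℤ[X], f.natDegree ≤ N → (∑ i ∈ range (N + 1), |(f.coeff i : ℝ)|) ≤ C →
        |((f.eval t : ℤ) : ℝ)| ≤ C * (B : ℝ) ^ N := by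
      intro f hfN hf
      have h5 := fv_le N f t 1
      rw [fv_int N hfN] at h5
      exact h5.trans (mul_le_mul hf hpw (by positivity) (by linarith))
    have hprod : (2 : ℝ) ≤ ((∏ p ∈ F, p : ℕ) : ℝ) := by linarith
    have hx : A.eval t ≠ 0 := by
      intro h0
      have hne : F.Nonempty := by
        rw [nonempty_iff_ne_empty]
        rintro rfl
        simp at hprod
      obtain ⟨p, hp⟩ := hne
      refine (hF p hp).2.2 ?_
      rw [h0]
      exact dvd_zero _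
    have hlog : Real.log (c0 * B) ≤ Real.log ((∏ p ∈ F, p : ℕ) : ℝ) :=
      Real.log_le_log (by linarith) k2
    rw [Real.log_mul hc0.ne' (by linarith)] at hlog
    refine hmain _ _ F k1 (fun p hp => ⟨(hF p hp).1, (hF p hp).2.1, (hF p hp).2.2⟩)
      ⟨C * (B : ℝ) ^ N, hbd A hR.degA (by rw [hC]; linarith), hbd D hR.degD (by rw [hC]; linarith),
        hx, ?_⟩
    rw [Real.log_mul (by linarith) (by positivity), Real.log_pow]
    have hd : (0 : ℝ) ≤ d := Nat.cast_nonneg d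
    have h5 : 0 ≤ |Real.log c0| := abs_nonneg _
    have h6 := neg_abs_le (Real.log c0)
    have h7 : 0 ≤ Real.log C := Real.log_nonneg hC1
    have h8 : Real.log C + N * Real.log B ≤ 2 * N * Real.log ((∏ p ∈ F, p : ℕ) : ℝ) := by
      have h9 : Real.log C ≤ N * Real.log B - 2 * N * |Real.log c0| := by
        have : Real.log C ≤ N * (Real.log B - 2 * |Real.log c0|) := by
          have h10 : Real.log C ≤ Real.log B - 2 * |Real.log c0| := by linarith
          nlinarith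
        linarith
      nlinarith
    have h10 := mul_le_mul_of_nonneg_left h8 (by positivity : (0 : ℝ) ≤ 2 * d)
    calc (d : ℝ) * (2 * (Real.log C + N * Real.log B)) = 2 * d * (Real.log C + N * Real.log B) := by
          ring
      _ ≤ 2 * d * (2 * N * Real.log ((∏ p ∈ F, p : ℕ) : ℝ)) := h10
      _ = _ := by ring

/-- proportion `0` among the integers -/
theorem tend_int {Q : ℤ → Prop} (h : ∀ δ : ℝ, 0 < δ → ∀ᶠ B : ℕ in atTop, ∃ E : Finset ℤ,
      (E.card : ℝ) ≤ δ * B ∧ ∀ t : ℤ, |t| ≤ (B : ℤ) → t ∉ E → Q t) :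
    Tendsto (fun B : ℕ => (({t : ℤ | |t| ≤ (B : ℤ) ∧ ¬ Q t}.ncard : ℝ) / (2 * B + 1))) atTop
      (nhds 0) := by
  classical
  rw [Metric.tendsto_atTop]
  intro ε hε
  obtain ⟨B0, hB0⟩ := eventually_atTop.mp (h ε hε)
  refine ⟨B0, fun B hB => ?_⟩
  obtain ⟨E, hE, hg⟩ := hB0 B hB
  have h2 : ({t : ℤ | |t| ≤ (B : ℤ) ∧ ¬ Q t}.ncard : ℝ) ≤ (E.card : ℝ) := by
    refine Nat.cast_le.mpr ?_
    rw [← Set.ncard_coe_finset E]
    refine Set.ncard_le_ncard ?_ (Finset.finite_toSet E)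
    rintro t ⟨ht, hn⟩
    by_contra htE
    exact hn (hg t ht htE)
  have hB0' : (0 : ℝ) ≤ B := Nat.cast_nonneg B
  rw [Real.dist_eq, sub_zero, abs_of_nonneg (by positivity), div_lt_iff₀ (by positivity)]
  nlinarith

end Pool.Agent.N365.LS
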