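import Pool.Agent.N365.LS.D
import Pool.Agent.H785R2.ABC.A12

/-!
# Integers with a small radical, and cross products of the zeros of a form modulo `m`
-/

set_option autoImplicit false

namespace Pool.Agent.N365.LS

open Finset Polynomial Filter
open Pool.Agent.N365.SZ
open Pool.Agent.H785R2.ABC (rad stmtA2 rad_pos')
open Pool.Agent.Y670.RD (fv toQ)
open Pool.Agent.Y679.Md (rS rS_pos)

/-- integers with a small radical -/
theorem rad_count (ε : ℝ) (hε : 0 < ε) : ∃ C : ℝ, 0 < C ∧ ∀ N : ℕ, 1 ≤ N → ∀ Y : ℝ, 0 ≤ Y →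
    (((Icc 1 N).filter fun m => (rad m : ℝ) ≤ Y).card : ℝ) ≤ C * (N : ℝ) ^ ε * Y := by
  classical
  obtain ⟨C, hC, h⟩ := stmtA2 ε hε
  refine ⟨C, hC, fun N hN Y hY => ?_⟩
  have hsub : ((Icc 1 N).filter fun m => (rad m : ℝ) ≤ Y) ⊆
      (Icc 1 ⌊Y⌋₊).biUnion fun r => (Icc 1 N).filter fun m => rad m = r := by
    intro m hm
    rw [mem_filter] at hm
    rw [mem_biUnion]
    exact ⟨rad m, mem_Icc.mpr ⟨rad_pos' m, Nat.le_floor hm.2⟩, mem_filter.mpr ⟨hm.1, rfl⟩⟩
  calc (((Icc 1 N).filter fun m => (rad m : ℝ) ≤ Y).card : ℝ)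
      ≤ (((Icc 1 ⌊Y⌋₊).biUnion fun r => (Icc 1 N).filter fun m => rad m = r).card : ℝ) := by
        exact_mod_cast card_le_card hsub
    _ ≤ ∑ r ∈ Icc 1 ⌊Y⌋₊, (((Icc 1 N).filter fun m => rad m = r).card : ℝ) := by
        exact_mod_cast card_biUnion_le
    _ ≤ ∑ _r ∈ Icc 1 ⌊Y⌋₊, C * (N : ℝ) ^ ε := sum_le_sum fun r _ => h N hN r
    _ = (⌊Y⌋₊ : ℝ) * (C * (N : ℝ) ^ ε) := by
        rw [sum_const, Nat.card_Icc, nsmul_eq_mul]
        simp
    _ ≤ Y * (C * (N : ℝ) ^ ε) := by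
        refine mul_le_mul_of_nonneg_right (Nat.floor_le hY) (by positivity)
    _ = _ := by ring

theorem rad_le_rS {S : Finset ℕ} (hS : ∀ p ∈ S, p.Prime) (m : ℕ) :
    rad m ≤ (∏ p ∈ S, p) * rS S m := by
  classical
  unfold rad rS
  rw [← prod_inter_mul_prod_sdiff m.primeFactors S]
  refine Nat.mul_le_mul_right _ ?_
  exact prod_le_prod_of_subset_of_one_le' inter_subset_right fun p hp _ => (hS p hp).one_le

/-- a squarefree binary form, in both charts -/
structure SF (M : ℕ) (f f' : ℤ[X]) : Prop where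
  deg : f.natDegree ≤ M
  deg' : f'.natDegree ≤ M
  swap : ∀ s t : ℤ, fv M f s t = fv M f' t s
  bez : ∃ (R : ℤ) (u w : ℤ[X]), R ≠ 0 ∧ C R = u * f + w * f.derivative
  bez' : ∃ (R : ℤ) (u w : ℤ[X]), R ≠ 0 ∧ C R = u * f' + w * f'.derivative

theorem SF.symm {M : ℕ} {f f' : ℤ[X]} (h : SF M f f') : SF M f' f :=
  ⟨h.deg', h.deg, fun s t => (h.swap t s).symm, h.bez', h.bez⟩

theorem fv_reflect {M : ℕ} (f : ℤ[X]) (s t : ℤ) : fv M f s t = fv M (f.reflect M) t s := by
  unfold fv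
  rw [← sum_range_reflect (fun i => f.coeff i * s ^ i * t ^ (M - i)) (M + 1)]
  refine sum_congr rfl fun i hi => ?_
  have hi' : i ≤ M := by have := mem_range.mp hi; omega
  rw [coeff_reflect, revAt_le hi']
  have e1 : M + 1 - 1 - i = M - i := by omega
  have e2 : M - (M - i) = i := by omega
  rw [e1, e2]
  ring

theorem sq_mirror {f : ℚ[X]} (hf : Squarefree f) : Squarefree f.mirror := by
  intro a ha
  obtain ⟨b, hb⟩ := ha
  have h1 : f = a.mirror * a.mirror * b.mirror := by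
    rw [← mirror_mul_of_domain, ← mirror_mul_of_domain, ← hb, mirror_mirror]
  have h2 := hf a.mirror ⟨b.mirror, h1⟩
  have h3 := natDegree_eq_zero_of_isUnit h2
  rw [mirror_natDegree] at h3
  have h4 : a ≠ 0 := by
    rintro rfl
    rw [mirror_zero] at h2
    exact not_isUnit_zero h2
  rw [eq_C_of_natDegree_eq_zero h3] at h4 ⊢
  refine isUnit_C.mpr (isUnit_iff_ne_zero.mpr fun h5 => h4 (by rw [h5, C_0]))

theorem sq_reverse {f : ℚ[X]} (hf : Squarefree f) : Squarefree f.reverse := by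
  have h1 := sq_mirror hf
  unfold mirror at h1
  exact h1.squarefree_of_dvd (dvd_mul_right _ _)

theorem sq_reflect {f : ℚ[X]} (hf : Squarefree f) {M : ℕ} (hM : f.natDegree = M ∨ f.natDegree + 1 = M) :
    Squarefree (f.reflect M) := by
  rcases hM with hM | hM
  · rw [← hM]
    exact sq_reverse hf
  · have hf0 : f ≠ 0 := hf.ne_zero
    have e : f.reflect M = X * f.reverse := by
      ext i
      rw [coeff_reflect]
      rcases Nat.eq_zero_or_pos i with hi | hi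
      · subst hi
        rw [revAt_le (Nat.zero_le _), coeff_X_mul_zero]
        exact coeff_eq_zero_of_natDegree_lt (by omega)
      · obtain ⟨j, rfl⟩ : ∃ j, i = j + 1 := ⟨i - 1, by omega⟩
        rw [coeff_X_mul]
        unfold reverse
        rw [coeff_reflect]
        rcases le_or_gt j f.natDegree with hj | hj
        · rw [revAt_le (by omega), revAt_le hj]
          congr 1
          omega
        · rw [revAt_eq_self_of_lt (by omega), revAt_eq_self_of_lt hj]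
          rw [coeff_eq_zero_of_natDegree_lt (by omega), coeff_eq_zero_of_natDegree_lt hj]
    rw [e]
    refine (squarefree_mul_iff).mpr ⟨?_, irreducible_X.squarefree, sq_reverse hf⟩
    refine IsCoprime.isRelPrime ((irreducible_X.coprime_iff_not_dvd).mpr ?_)
    rw [X_dvd_iff, coeff_zero_reverse]
    exact leadingCoeff_ne_zero.mpr hf0

theorem SF.of {M : ℕ} {f : ℤ[X]} (hsq : Squarefree (toQ f))
    (hM : f.natDegree = M ∨ f.natDegree + 1 = M) : SF M f (f.reflect M) := by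
  have hq : Squarefree (toQ (f.reflect M)) := by
    have e : toQ (f.reflect M) = (toQ f).reflect M := by
      unfold toQ
      exact (reflect_map (Int.castRingHom ℚ) f M).symm
    rw [e]
    exact sq_reflect hsq (by rw [toQ_deg]; exact hM)
  refine ⟨by omega, ?_, fun s t => fv_reflect f s t, bez_der hsq, bez_der hq⟩
  rw [natDegree_le_iff_coeff_eq_zero]
  intro i hi
  rw [coeff_reflect, revAt_eq_self_of_lt hi]
  exact coeff_eq_zero_of_natDegree_lt (by omega)

/-- Hensel -/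
theorem hens {p : ℕ} (hp : p.Prime) {f u w : ℤ[X]} {R : ℤ}
    (hR : C R = u * f + w * f.derivative) {x x' : ℤ} {k e : ℕ} (h1 : (p : ℤ) ^ k ∣ f.eval x)
    (h2 : (p : ℤ) ^ k ∣ f.eval x') (he : (p : ℤ) ^ e ∣ R) (he' : ¬ (p : ℤ) ^ (e + 1) ∣ R)
    (hx : (p : ℤ) ^ (e + 1) ∣ x - x') : (p : ℤ) ^ k ∣ R * (x - x') := by
  have hpr : Prime (p : ℤ) := Nat.prime_iff_prime_int.mp hp
  obtain ⟨q, hq⟩ := f.binomExpansion x' (x - x')
  have e1 : x' + (x - x') = x := by ring
  rw [e1] at hq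
  have hRx := congrArg (eval x') hR
  rw [eval_C, eval_add, eval_mul, eval_mul] at hRx
  obtain ⟨R1, hR1⟩ := he
  obtain ⟨z, hz⟩ := hx
  have h3 : (p : ℤ) ^ k ∣ ((x - x') * (p : ℤ) ^ e) * (R1 + p * (w.eval x' * q * z)) := by
    have e2 : ((x - x') * (p : ℤ) ^ e) * (R1 + p * (w.eval x' * q * z)) =
        (w.eval x') * (f.eval x - f.eval x') + (x - x') * (u.eval x') * f.eval x' := by
      have e3 : (x - x') * (p : ℤ) ^ e * (R1 + p * (w.eval x' * q * z)) =
          (x - x') * R + w.eval x' * q * (x - x') * ((p : ℤ) ^ (e + 1) * z) := by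
        rw [hR1]; ring
      rw [e3, ← hz, hq, hRx]
      ring
    rw [e2]
    exact dvd_add ((dvd_sub h1 h2).mul_left _) (h2.mul_left _)
  have h4 : ¬ (p : ℤ) ∣ R1 + p * (w.eval x' * q * z) := by
    intro hd
    apply he'
    have h5 : (p : ℤ) ∣ R1 := (dvd_add_left (dvd_mul_right _ _)).mp hd
    rw [hR1, pow_succ]
    exact mul_dvd_mul_left _ h5
  have h5 := ((hpr.irreducible.coprime_iff_not_dvd.mpr h4).pow_left (m := k)).dvd_of_dvd_mul_right h3
  rw [hR1]
  have e4 : (p : ℤ) ^ e * R1 * (x - x') = (x - x') * (p : ℤ) ^ e * R1 := by ring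
  rw [e4]
  exact h5.mul_right _

/-- the local statement in one chart -/
theorem loc {p : ℕ} (hp : p.Prime) {M : ℕ} {f u w : ℤ[X]} (hM : f.natDegree ≤ M) {R : ℤ}
    (hR : C R = u * f + w * f.derivative) {P P' : ℤ × ℤ} (ht : ¬ (p : ℤ) ∣ P.2)
    (ht' : ¬ (p : ℤ) ∣ P'.2) {k e : ℕ} (h1 : (p : ℤ) ^ k ∣ fv M f P.1 P.2)
    (h2 : (p : ℤ) ^ k ∣ fv M f P'.1 P'.2) (he : (p : ℤ) ^ e ∣ R) (he' : ¬ (p : ℤ) ^ (e + 1) ∣ R)
    (hc : (p : ℤ) ^ (e + 1) ∣ cr P P') : (p : ℤ) ^ k ∣ R * cr P P' := by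
  obtain ⟨x, hx⟩ := chart hp ht (k + (e + 1)) P.1
  obtain ⟨x', hx'⟩ := chart hp ht' (k + (e + 1)) P'.1
  have a1 := (fv_chart hp ht hx (Nat.le_add_right k (e + 1)) hM).mp h1
  have a2 := (fv_chart hp ht' hx' (Nat.le_add_right k (e + 1)) hM).mp h2
  have a3 := (cr_chart hp ht ht' hx hx' (Nat.le_add_left (e + 1) k)).mp hc
  have a4 := hens hp hR a1 a2 he he' a3
  have e1 : R * cr P P' = (P.2 * P'.2) * (R * (x - x')) +
      R * (P'.2 * (P.1 - x * P.2) - P.2 * (P'.1 - x' * P'.2)) := by unfold cr; ring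
  rw [e1]
  have hk : (p : ℤ) ^ k ∣ (p : ℤ) ^ (k + (e + 1)) := pow_dvd_pow _ (Nat.le_add_right _ _)
  exact dvd_add (a4.mul_left _) ((dvd_sub ((hk.trans hx).mul_left _) ((hk.trans hx').mul_left _)).mul_left _)

/-- the exponent of a prime in an integer -/
theorem exists_exp {p : ℕ} (hp : p.Prime) {R : ℤ} (hR : R ≠ 0) :
    ∃ e : ℕ, (p : ℤ) ^ e ∣ R ∧ ¬ (p : ℤ) ^ (e + 1) ∣ R := by
  refine ⟨R.natAbs.factorization p, ?_, ?_⟩
  · rw [← Int.natCast_pow, Int.natCast_dvd]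
    exact Nat.ordProj_dvd _ _
  · rw [← Int.natCast_pow, Int.natCast_dvd]
    exact Nat.pow_succ_factorization_not_dvd (Int.natAbs_ne_zero.mpr hR) hp

/-- **cross products of zeros modulo `m`** -/
theorem SF.cr_dvd {M : ℕ} {f f' : ℤ[X]} (h : SF M f f') : ∃ q0 : ℕ, 1 ≤ q0 ∧
    ∀ (m r : ℕ), (∀ p : ℕ, p.Prime → p ∣ m → p ∣ r) → ∀ P P' : ℤ × ℤ,
      IsCoprime P.1 P.2 → IsCoprime P'.1 P'.2 → (m : ℤ) ∣ fv M f P.1 P.2 →
      (m : ℤ) ∣ fv M f P'.1 P'.2 → ((q0 * r : ℕ) : ℤ) ∣ cr P P' → (m : ℤ) ∣ q0 * cr P P' := by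
  obtain ⟨R, u, w, hR0, hR⟩ := h.bez
  obtain ⟨R', u', w', hR0', hR'⟩ := h.bez'
  refine ⟨(R * R').natAbs, ?_, ?_⟩
  · have := Int.natAbs_ne_zero.mpr (mul_ne_zero hR0 hR0')
    omega
  intro m r hr P P' hP hP' h1 h2 hc
  have hq1 : R ∣ (((R * R').natAbs : ℕ) : ℤ) := by
    rw [Int.dvd_natAbs]
    exact dvd_mul_right _ _
  have hq2 : R' ∣ (((R * R').natAbs : ℕ) : ℤ) := by
    rw [Int.dvd_natAbs]
    exact dvd_mul_left _ _
  obtain ⟨q0, hq0⟩ : ∃ q0 : ℕ, q0 = (R * R').natAbs := ⟨_, rfl⟩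
  rw [← hq0] at hq1 hq2 hc ⊢
  rw [Int.natCast_dvd, Int.natAbs_mul, Int.natAbs_natCast, Nat.dvd_iff_prime_pow_dvd_dvd]
  intro p k hp hk
  rcases Nat.eq_zero_or_pos k with hk0 | hk0
  · rw [hk0, pow_zero]; exact one_dvd _
  have hpr : Prime (p : ℤ) := Nat.prime_iff_prime_int.mp hp
  have hpm : p ∣ m := (dvd_pow_self p hk0.ne').trans hk
  have hprr : (p : ℤ) ∣ (r : ℤ) := by exact_mod_cast hr p hp hpm
  have hkm : (p : ℤ) ^ k ∣ (m : ℤ) := by exact_mod_cast hk
  have key : (p : ℤ) ^ k ∣ q0 * cr P P' := by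
    have hpc : (p : ℤ) ∣ cr P P' := by
      push_cast at hc
      exact (hprr.mul_left _).trans hc
    by_cases ht : (p : ℤ) ∣ P.2
    · have hs : ¬ (p : ℤ) ∣ P.1 := fun hs => hpr.not_isUnit (hP.isUnit_of_dvd' hs ht)
      have hs' : ¬ (p : ℤ) ∣ P'.1 := by
        intro hs'
        have ht' : ¬ (p : ℤ) ∣ P'.2 := fun ht' => hpr.not_isUnit (hP'.isUnit_of_dvd' hs' ht')
        have h3 : (p : ℤ) ∣ P.1 * P'.2 := by
          have e : P.1 * P'.2 = cr P P' + P'.1 * P.2 := by unfold cr; ring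
          rw [e]
          exact dvd_add hpc (hs'.mul_right _)
        rcases hpr.dvd_or_dvd h3 with h4 | h4
        · exact hs h4
        · exact ht' h4
      obtain ⟨e, he, he'⟩ := exists_exp hp hR0'
      have hce : (p : ℤ) ^ (e + 1) ∣ cr P P' := by
        refine Dvd.dvd.trans ?_ hc
        push_cast
        rw [pow_succ]
        exact mul_dvd_mul (he.trans hq2) hprr
      have hsw : cr P.swap P'.swap = - cr P P' := by
        unfold cr
        simp only [Prod.fst_swap, Prod.snd_swap]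
        ring
      have h5 := loc (P := P.swap) (P' := P'.swap) hp h.deg' hR' hs hs' (k := k) (e := e)
        (by
          simp only [Prod.fst_swap, Prod.snd_swap]
          rw [← h.swap]
          exact hkm.trans h1)
        (by
          simp only [Prod.fst_swap, Prod.snd_swap]
          rw [← h.swap]
          exact hkm.trans h2) he he' (by rw [hsw]; exact (dvd_neg).mpr hce)
      rw [hsw, mul_neg, dvd_neg] at h5
      exact h5.trans (mul_dvd_mul_right hq2 _)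
    · have ht' : ¬ (p : ℤ) ∣ P'.2 := by
        intro ht'
        have hs' : ¬ (p : ℤ) ∣ P'.1 := fun hs' => hpr.not_isUnit (hP'.isUnit_of_dvd' hs' ht')
        have h3 : (p : ℤ) ∣ P'.1 * P.2 := by
          have e : P'.1 * P.2 = P.1 * P'.2 - cr P P' := by unfold cr; ring
          rw [e]
          exact dvd_sub (ht'.mul_left _) hpc
        rcases hpr.dvd_or_dvd h3 with h4 | h4
        · exact hs' h4
        · exact ht h4
      obtain ⟨e, he, he'⟩ := exists_exp hp hR0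
      have hce : (p : ℤ) ^ (e + 1) ∣ cr P P' := by
        refine Dvd.dvd.trans ?_ hc
        push_cast
        rw [pow_succ]
        exact mul_dvd_mul (he.trans hq1) hprr
      exact (loc hp h.deg hR ht ht' (hkm.trans h1) (hkm.trans h2) he he' hce).trans
        (mul_dvd_mul_right hq1 _)
  have h6 := Int.natAbs_dvd_natAbs.mpr key
  rwa [Int.natAbs_pow, Int.natAbs_natCast, Int.natAbs_mul, Int.natAbs_natCast] at h6

end Pool.Agent.N365.LS
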