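import Pool.Agent.N365.LS.F1

/-!
# Zeros of a form in thin sectors
-/

set_option autoImplicit false

namespace Pool.Agent.N365.LS

open Finset Polynomial Filter
open Pool.Agent.N365.SZ
open Pool.Agent.Y670.RD (fv toQ)

/-- the real polynomial -/
noncomputable def rl (f : ℤ[X]) : ℝ[X] := f.map (Int.castRingHom ℝ)

theorem bounded_poly (F : ℝ[X]) : ∃ A : ℝ, 0 ≤ A ∧ ∀ x : ℝ, |x| ≤ 1 → |F.eval x| ≤ A := by
  obtain ⟨A, hA⟩ := (isCompact_Icc (a := (-1 : ℝ)) (b := 1)).exists_bound_of_continuousOn
    (f := fun x => F.eval x) F.continuous.continuousOn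
  refine ⟨max A 0, le_max_right _ _, fun x hx => ?_⟩
  have := hA x (abs_le.mp hx)
  rw [Real.norm_eq_abs] at this
  exact this.trans (le_max_left _ _)

theorem cells {f u w : ℤ[X]} {R : ℤ} (hR0 : R ≠ 0) (hR : C R = u * f + w * f.derivative) :
    ∃ (K : ℕ) (L : ℝ), 1 ≤ K ∧ 0 < L ∧ ∀ x x' : ℝ, |x| ≤ 1 → |x'| ≤ 1 →
      ⌊(K : ℝ) * x⌋ = ⌊(K : ℝ) * x'⌋ → |x - x'| ≤ L * max |(rl f).eval x| |(rl f).eval x'| := by
  obtain ⟨A1, hA1, hu⟩ := bounded_poly (rl u)
  obtain ⟨A2, hA2, hw⟩ := bounded_poly (rl w)
  obtain ⟨A3, hA3, hd⟩ := bounded_poly ((rl f).derivative.derivative)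
  obtain ⟨A, hA⟩ : ∃ A : ℝ, A = A1 + A2 + A3 + 1 := ⟨_, rfl⟩
  have hA0 : 1 ≤ A := by rw [hA]; linarith
  -- the cells have length at most `1 / (4 A²)`
  obtain ⟨K, hK⟩ : ∃ K : ℕ, 4 * A ^ 2 < K := exists_nat_gt _
  have hK0 : (0 : ℝ) < K := lt_trans (by positivity) hK
  refine ⟨K, 8 * A, by exact_mod_cast hK0, by positivity, ?_⟩
  -- main estimate for `x < x'`
  have main : ∀ x x' : ℝ, |x| ≤ 1 → |x'| ≤ 1 → x < x' → x' - x < 1 / (4 * A ^ 2) →
      x' - x ≤ 8 * A * max |(rl f).eval x| |(rl f).eval x'| := by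
    intro x x' hx hx' hlt hcl
    have hmax0 : 0 ≤ max |(rl f).eval x| |(rl f).eval x'| := le_max_of_le_left (abs_nonneg _)
    rcases le_or_gt (1 / (2 * A)) (|(rl f).eval x|) with hbig | hsmall
    · have h1 : x' - x ≤ 2 := by
        have := (abs_le.mp hx).1
        have := (abs_le.mp hx').2
        linarith
      have h2 : 1 / (2 * A) ≤ max |(rl f).eval x| |(rl f).eval x'| := hbig.trans (le_max_left _ _)
      have h3 : 8 * A * (1 / (2 * A)) = 4 := by field_simp; norm_num
      have h4 : 8 * A * (1 / (2 * A)) ≤ 8 * A * max |(rl f).eval x| |(rl f).eval x'| :=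
        mul_le_mul_of_nonneg_left h2 (by positivity)
      linarith
    · -- the derivative at `x` is at least `1 / (2 A)`
      have hbz : (R : ℝ) = (rl u).eval x * (rl f).eval x + (rl w).eval x * (rl f).derivative.eval x := by
        have h1 := congrArg (fun g : ℤ[X] => (g.map (Int.castRingHom ℝ)).eval x) hR
        simp only [Polynomial.map_add, Polynomial.map_mul, map_C, eval_C, eval_add, eval_mul] at h1
        rw [eq_intCast] at h1
        rw [h1]
        unfold rl
        rw [derivative_map]
      have hR1 : (1 : ℝ) ≤ |(R : ℝ)| := by exact_mod_cast Int.one_le_abs hR0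
      have hder : 1 / (2 * A) ≤ |(rl f).derivative.eval x| := by
        have h1 : |(R : ℝ)| ≤ |(rl u).eval x| * |(rl f).eval x| +
            |(rl w).eval x| * |(rl f).derivative.eval x| := by
          rw [hbz, ← abs_mul, ← abs_mul]
          exact abs_add_le _ _
        have h2 : |(rl u).eval x| * |(rl f).eval x| ≤ A * (1 / (2 * A)) := by
          refine mul_le_mul ((hu x hx).trans (by rw [hA]; linarith)) hsmall.le (abs_nonneg _)
            (by linarith)
        have h3 : A * (1 / (2 * A)) = 1 / 2 := by field_simp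
        have h4 : |(rl w).eval x| * |(rl f).derivative.eval x| ≤ A * |(rl f).derivative.eval x| :=
          mul_le_mul_of_nonneg_right ((hw x hx).trans (by rw [hA]; linarith)) (abs_nonneg _)
        rw [div_le_iff₀ (by positivity)]
        linarith
      -- mean value
      obtain ⟨ξ, hξ, hmv⟩ := exists_hasDerivAt_eq_slope (fun y => (rl f).eval y)
        (fun y => (rl f).derivative.eval y) hlt (rl f).continuous.continuousOn
        (fun y _ => (rl f).hasDerivAt y)
      obtain ⟨ζ, hζ, hmv2⟩ := exists_hasDerivAt_eq_slope (fun y => (rl f).derivative.eval y)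
        (fun y => (rl f).derivative.derivative.eval y) hξ.1 (rl f).derivative.continuous.continuousOn
        (fun y _ => (rl f).derivative.hasDerivAt y)
      have hxx : 0 < x' - x := by linarith
      have hxξ : 0 < ξ - x := by linarith [hξ.1]
      have hζ1 : |ζ| ≤ 1 := by
        rw [abs_le]
        have := (abs_le.mp hx).1
        have := (abs_le.mp hx').2
        constructor <;> linarith [hζ.1, hζ.2, hξ.2]
      rw [eq_div_iff hxξ.ne'] at hmv2
      rw [eq_div_iff hxx.ne'] at hmv
      have h5 : |(rl f).derivative.eval ξ - (rl f).derivative.eval x| ≤ 1 / (4 * A) := by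
        rw [← hmv2, abs_mul, abs_of_pos hxξ]
        have h6 : |(rl f).derivative.derivative.eval ζ| ≤ A := (hd ζ hζ1).trans (by rw [hA]; linarith)
        have h7 : ξ - x ≤ 1 / (4 * A ^ 2) := by linarith [hξ.2]
        calc |(rl f).derivative.derivative.eval ζ| * (ξ - x) ≤ A * (1 / (4 * A ^ 2)) :=
              mul_le_mul h6 h7 hxξ.le (by linarith)
          _ = 1 / (4 * A) := by field_simp
      have h8 : 1 / (4 * A) ≤ |(rl f).derivative.eval ξ| := by
        have h9 : |(rl f).derivative.eval x| ≤ |(rl f).derivative.eval ξ| +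
            |(rl f).derivative.eval ξ - (rl f).derivative.eval x| := by
          have := abs_sub_abs_le_abs_sub ((rl f).derivative.eval x) ((rl f).derivative.eval ξ)
          rw [abs_sub_comm] at this
          linarith
        have h10 : 1 / (2 * A) = 1 / (4 * A) + 1 / (4 * A) := by field_simp; norm_num
        linarith
      have h11 : |(rl f).derivative.eval ξ| * (x' - x) = |(rl f).eval x' - (rl f).eval x| := by
        rw [← hmv, abs_mul, abs_of_pos hxx]
      have h12 : 1 / (4 * A) * (x' - x) ≤ |(rl f).eval x' - (rl f).eval x| := by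
        rw [← h11]
        exact mul_le_mul_of_nonneg_right h8 hxx.le
      have h13 : |(rl f).eval x' - (rl f).eval x| ≤ 2 * max |(rl f).eval x| |(rl f).eval x'| := by
        have := abs_sub ((rl f).eval x') ((rl f).eval x)
        have h14 := le_max_left |(rl f).eval x| |(rl f).eval x'|
        have h15 := le_max_right |(rl f).eval x| |(rl f).eval x'|
        linarith
      have h16 : 1 / (4 * A) * (x' - x) = (x' - x) / (4 * A) := by ring
      rw [h16, div_le_iff₀ (by positivity)] at h12
      nlinarith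
  intro x x' hx hx' hfl
  have hclose : |(K : ℝ) * x - K * x'| < 1 := Int.abs_sub_lt_one_of_floor_eq_floor hfl
  rw [← mul_sub, abs_mul, abs_of_pos hK0] at hclose
  have hlt1 : |x - x'| < 1 / (4 * A ^ 2) := by
    rw [lt_div_iff₀ (by positivity)]
    have h0 : 0 ≤ |x - x'| := abs_nonneg _
    nlinarith
  rcases lt_trichotomy x x' with h | h | h
  · have h1 : |x - x'| = x' - x := by rw [abs_sub_comm]; exact abs_of_pos (by linarith)
    rw [h1] at hlt1 ⊢
    exact main x x' hx hx' h hlt1
  · subst h
    simp only [sub_self, abs_zero, max_self]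
    positivity
  · have h1 : |x - x'| = x - x' := abs_of_pos (by linarith)
    rw [h1] at hlt1 ⊢
    rw [max_comm]
    exact main x' x hx' hx h hlt1

/-- separated points -/
theorem sep_real {ι : Type*} (A : Finset ι) (x : ι → ℝ) {L δ : ℝ} (hδ : 0 < δ) (hL : 0 ≤ L)
    (h1 : ∀ i ∈ A, ∀ j ∈ A, |x i - x j| ≤ L)
    (h2 : ∀ i ∈ A, ∀ j ∈ A, i ≠ j → δ ≤ |x i - x j|) : (A.card : ℝ) ≤ L / δ + 1 := by
  classical
  rcases A.eq_empty_or_nonempty with rfl | hne
  · simp only [card_empty, Nat.cast_zero]
    positivity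
  obtain ⟨i0, hi0, hmin⟩ := A.exists_min_image x hne
  have hcard : A.card ≤ (range (⌊L / δ⌋₊ + 1)).card := by
    refine card_le_card_of_injOn (fun i => ⌊(x i - x i0) / δ⌋₊) ?_ ?_
    · intro i hi
      rw [mem_coe] at hi
      rw [coe_range, Set.mem_Iio, Nat.lt_succ_iff]
      refine Nat.floor_le_floor ?_
      refine div_le_div_of_nonneg_right ?_ hδ.le
      exact (le_abs_self _).trans (h1 i hi i0 hi0)
    · intro i hi j hj he
      rw [mem_coe] at hi hj
      by_contra hne'
      have h3 := h2 i hi j hj hne'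
      simp only at he
      have n1 : 0 ≤ (x i - x i0) / δ := div_nonneg (by linarith [hmin i hi]) hδ.le
      have n2 : 0 ≤ (x j - x i0) / δ := div_nonneg (by linarith [hmin j hj]) hδ.le
      have a1 := Nat.floor_le n1
      have a2 := Nat.lt_floor_add_one ((x i - x i0) / δ)
      have a3 := Nat.floor_le n2
      have a4 := Nat.lt_floor_add_one ((x j - x i0) / δ)
      rw [he] at a1 a2
      have h4 : |(x i - x i0) / δ - (x j - x i0) / δ| < 1 := by
        rw [abs_lt]
        constructor <;> linarith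
      have e : (x i - x i0) / δ - (x j - x i0) / δ = (x i - x j) / δ := by ring
      rw [e, abs_div, abs_of_pos hδ, div_lt_one hδ] at h4
      linarith
  rw [card_range] at hcard
  have h5 : (⌊L / δ⌋₊ : ℝ) ≤ L / δ := Nat.floor_le (by positivity)
  have h6 : (A.card : ℝ) ≤ (⌊L / δ⌋₊ : ℝ) + 1 := by exact_mod_cast hcard
  linarith

end Pool.Agent.N365.LS
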