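import Pool.Agent.N365.LS.F2

/-!
# The number of representations of `m` by a squarefree form
-/

set_option autoImplicit false

namespace Pool.Agent.N365.LS

open Finset Polynomial Filter
open Pool.Agent.N365.SZ
open Pool.Agent.H785R2.ABC (rad stmtA2 rad_pos')
open Pool.Agent.Y670.RD (fv fv_eq toQ)

theorem fv_rl {M : ℕ} {f : ℤ[X]} (hf : f.natDegree ≤ M) {s t : ℤ} (ht : t ≠ 0) :
    ((fv M f s t : ℤ) : ℝ) = (t : ℝ) ^ M * (rl f).eval ((s : ℝ) / t) := by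
  have htR : ((t : ℤ) : ℝ) ≠ 0 := by exact_mod_cast ht
  rw [fv_eq (K := ℝ) hf htR]
  unfold rl
  rw [eval_map, aeval_def]
  rfl

/-- one class in a thin sector -/
theorem fiber_sector {M : ℕ} (hM : 2 ≤ M) {f : ℤ[X]} (hf : f.natDegree ≤ M) {K : ℕ} {L : ℝ}
    (hL : 0 < L) (hcell : ∀ x x' : ℝ, |x| ≤ 1 → |x'| ≤ 1 →
      ⌊(K : ℝ) * x⌋ = ⌊(K : ℝ) * x'⌋ → |x - x'| ≤ L * max |(rl f).eval x| |(rl f).eval x'|)
    {q m k : ℕ} (hq : 1 ≤ q) (hm : 1 ≤ m) (A : Finset (ℤ × ℤ))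
    (hA : ∀ P ∈ A, |P.1| ≤ |P.2| ∧ IsCoprime P.1 P.2 ∧ (fv M f P.1 P.2).natAbs = m)
    (hlog : ∀ P ∈ A, Nat.log 2 P.2.natAbs = k)
    (hfl : ∀ P ∈ A, ∀ P' ∈ A, ⌊(K : ℝ) * ((P.1 : ℝ) / P.2)⌋ = ⌊(K : ℝ) * ((P'.1 : ℝ) / P'.2)⌋)
    (hsg : ∀ P ∈ A, ∀ P' ∈ A, Int.sign P.2 = Int.sign P'.2)
    (hcr : ∀ P ∈ A, ∀ P' ∈ A, (m : ℤ) ∣ q * cr P P') : (A.card : ℝ) ≤ 4 * L * q + 1 := by
  classical
  have hqR : (0 : ℝ) < q := by exact_mod_cast hq
  have hmR : (0 : ℝ) < m := by exact_mod_cast hm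
  have ht0 : ∀ P ∈ A, P.2 ≠ 0 := by
    intro P hP h0
    obtain ⟨h1, h2, -⟩ := hA P hP
    rw [h0, abs_zero] at h1
    have h3 : P.1 = 0 := abs_eq_zero.mp (le_antisymm h1 (abs_nonneg _))
    rw [h3, h0] at h2
    exact not_isCoprime_zero_zero h2
  obtain ⟨T, hT⟩ : ∃ T : ℝ, T = (2 : ℝ) ^ k := ⟨_, rfl⟩
  have hT1 : 1 ≤ T := by rw [hT]; exact one_le_pow₀ (by norm_num)
  have hT0 : 0 < T := by linarith
  have hlo : ∀ P ∈ A, T ≤ |(P.2 : ℝ)| := by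
    intro P hP
    have h1 := Nat.pow_log_le_self 2 (Int.natAbs_ne_zero.mpr (ht0 P hP))
    rw [hlog P hP] at h1
    have h2 : ((2 ^ k : ℕ) : ℝ) ≤ (P.2.natAbs : ℝ) := by exact_mod_cast h1
    rw [Nat.cast_natAbs, Int.cast_abs] at h2
    rw [hT]
    push_cast at h2
    exact h2
  have hhi : ∀ P ∈ A, |(P.2 : ℝ)| ≤ 2 * T := by
    intro P hP
    have h1 := Nat.lt_pow_succ_log_self (b := 2) (by norm_num) P.2.natAbs
    rw [hlog P hP] at h1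
    have h2 : (P.2.natAbs : ℝ) < ((2 ^ (k + 1) : ℕ) : ℝ) := by exact_mod_cast h1
    rw [Nat.cast_natAbs, Int.cast_abs] at h2
    push_cast at h2
    rw [pow_succ, ← hT] at h2
    linarith
  have hx : ∀ P ∈ A, |(P.1 : ℝ) / P.2| ≤ 1 := by
    intro P hP
    rw [abs_div]
    have h3 : (0 : ℝ) < |(P.2 : ℝ)| := abs_pos.mpr (by exact_mod_cast ht0 P hP)
    rw [div_le_one h3]
    exact_mod_cast (hA P hP).1
  have hF : ∀ P ∈ A, |(rl f).eval ((P.1 : ℝ) / P.2)| ≤ m / T ^ 2 := by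
    intro P hP
    have h1 := fv_rl hf (s := P.1) (ht0 P hP)
    have h2 : |((fv M f P.1 P.2 : ℤ) : ℝ)| = m := by
      rw [← Int.cast_abs, ← Nat.cast_natAbs, (hA P hP).2.2]
    rw [h1, abs_mul, abs_pow] at h2
    have h3 : T ^ 2 ≤ |(P.2 : ℝ)| ^ M := by
      calc T ^ 2 ≤ T ^ M := pow_le_pow_right₀ hT1 hM
        _ ≤ _ := pow_le_pow_left₀ hT0.le (hlo P hP) M
    rw [le_div_iff₀ (by positivity)]
    have h4 : 0 ≤ |(rl f).eval ((P.1 : ℝ) / P.2)| := abs_nonneg _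
    nlinarith
  have hsep := sep_real A (fun P : ℤ × ℤ => (P.1 : ℝ) / P.2) (L := L * (m / T ^ 2))
    (δ := (m / q) / (4 * T ^ 2)) (by positivity) (by positivity)
    (by
      intro P hP P' hP'
      refine (hcell _ _ (hx P hP) (hx P' hP') (hfl P hP P' hP')).trans ?_
      exact mul_le_mul_of_nonneg_left (max_le (hF P hP) (hF P' hP')) hL.le)
    (by
      intro P hP P' hP' hne
      have h1 : cr P P' ≠ 0 := fun h0 =>
        hne (eq_of_cr (hA P hP).2.1 (hA P' hP').2.1 h0 (hsg P hP P' hP') (ht0 P hP))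
      have h2 : (m : ℝ) ≤ q * |((cr P P' : ℤ) : ℝ)| := by
        have h3 : (q : ℤ) * cr P P' ≠ 0 := mul_ne_zero (by exact_mod_cast (by omega : q ≠ 0)) h1
        have h4 := Int.le_of_dvd (abs_pos.mpr h3) ((dvd_abs _ _).mpr (hcr P hP P' hP'))
        rw [abs_mul, Nat.abs_cast] at h4
        exact_mod_cast h4
      have hR : (P.2 : ℝ) ≠ 0 := by exact_mod_cast ht0 P hP
      have hR' : (P'.2 : ℝ) ≠ 0 := by exact_mod_cast ht0 P' hP'
      have e : (P.1 : ℝ) / P.2 - (P'.1 : ℝ) / P'.2 = ((cr P P' : ℤ) : ℝ) / (P.2 * P'.2) := by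
        unfold cr
        push_cast
        field_simp
      rw [e, abs_div, abs_mul]
      have h5 : |(P.2 : ℝ)| * |(P'.2 : ℝ)| ≤ 4 * T ^ 2 := by
        have := mul_le_mul (hhi P hP) (hhi P' hP') (abs_nonneg _) (by positivity)
        nlinarith
      have h6 : (m : ℝ) / q ≤ |((cr P P' : ℤ) : ℝ)| := by
        rw [div_le_iff₀ hqR]
        linarith
      have h7 : 0 < |(P.2 : ℝ)| * |(P'.2 : ℝ)| :=
        mul_pos (abs_pos.mpr hR) (abs_pos.mpr hR')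
      exact div_le_div₀ (abs_nonneg _) h6 h7 h5)
  refine hsep.trans (le_of_eq ?_)
  field_simp

/-- one chart -/
theorem chart_card {M : ℕ} (hM : 2 ≤ M) {f : ℤ[X]} (hf : f.natDegree ≤ M) {K : ℕ} {L : ℝ}
    (hL : 0 < L) (hcell : ∀ x x' : ℝ, |x| ≤ 1 → |x'| ≤ 1 →
      ⌊(K : ℝ) * x⌋ = ⌊(K : ℝ) * x'⌋ → |x - x'| ≤ L * max |(rl f).eval x| |(rl f).eval x'|)
    {B q m : ℕ} (hq : 1 ≤ q) (hm : 1 ≤ m) (A : Finset (ℤ × ℤ))
    (hA : ∀ P ∈ A, (|P.1| ≤ |P.2| ∧ |P.2| ≤ B) ∧ IsCoprime P.1 P.2 ∧ (fv M f P.1 P.2).natAbs = m)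
    (hcr : ∀ P ∈ A, ∀ P' ∈ A, (q : ℤ) ∣ cr P P' → (m : ℤ) ∣ q * cr P P') :
    (A.card : ℝ) ≤ (2 * (Nat.log 2 B + 1) * (2 * K + 1) * q ^ 2 : ℕ) * (4 * L * q + 1) := by
  classical
  have hq0 : (0 : ℤ) < q := by exact_mod_cast hq
  obtain ⟨lab, hlab⟩ : ∃ lab : ℤ × ℤ → ((ℤ × ℤ) × (ℕ × ℤ)) × Bool, ∀ P, lab P =
    (((P.1 % q, P.2 % q), (Nat.log 2 P.2.natAbs, ⌊(K : ℝ) * ((P.1 : ℝ) / P.2)⌋)),
      decide (0 < P.2)) := ⟨_, fun _ => rfl⟩
  have ht0 : ∀ P ∈ A, P.2 ≠ 0 := by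
    intro P hP h0
    obtain ⟨⟨h1, -⟩, h2, -⟩ := hA P hP
    rw [h0, abs_zero] at h1
    have h3 : P.1 = 0 := abs_eq_zero.mp (le_antisymm h1 (abs_nonneg _))
    rw [h3, h0] at h2
    exact not_isCoprime_zero_zero h2
  obtain ⟨Tg, hTg⟩ : ∃ Tg : Finset (((ℤ × ℤ) × (ℕ × ℤ)) × Bool), Tg =
    ((Ico (0 : ℤ) q ×ˢ Ico (0 : ℤ) q) ×ˢ (range (Nat.log 2 B + 1) ×ˢ Icc (-(K : ℤ)) K)) ×ˢ
      (univ : Finset Bool) := ⟨_, rfl⟩
  have hmaps : ∀ P ∈ A, lab P ∈ Tg := by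
    intro P hP
    obtain ⟨⟨h1, h2⟩, -, -⟩ := hA P hP
    rw [hlab, hTg, mem_product, mem_product, mem_product, mem_product]
    refine ⟨⟨⟨?_, ?_⟩, ?_, ?_⟩, mem_univ _⟩
    · exact mem_Ico.mpr ⟨Int.emod_nonneg _ hq0.ne', Int.emod_lt_of_pos _ hq0⟩
    · exact mem_Ico.mpr ⟨Int.emod_nonneg _ hq0.ne', Int.emod_lt_of_pos _ hq0⟩
    · show Nat.log 2 P.2.natAbs ∈ range (Nat.log 2 B + 1)
      rw [mem_range, Nat.lt_succ_iff]
      refine Nat.log_mono_right ?_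
      have : (P.2.natAbs : ℤ) ≤ B := by rw [Int.natCast_natAbs]; exact h2
      exact_mod_cast this
    · show ⌊(K : ℝ) * ((P.1 : ℝ) / P.2)⌋ ∈ Icc (-(K : ℤ)) K
      have hx : |(P.1 : ℝ) / P.2| ≤ 1 := by
        rw [abs_div]
        have h3 : (0 : ℝ) < |(P.2 : ℝ)| := abs_pos.mpr (by exact_mod_cast ht0 P hP)
        rw [div_le_one h3]
        exact_mod_cast h1
      have hK0 : (0 : ℝ) ≤ K := Nat.cast_nonneg K
      rw [abs_le] at hx
      rw [mem_Icc]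
      constructor
      · rw [Int.le_floor]
        push_cast
        nlinarith
      · have h4 : (⌊(K : ℝ) * ((P.1 : ℝ) / P.2)⌋ : ℝ) ≤ K := by
          refine (Int.floor_le _).trans ?_
          nlinarith
        exact_mod_cast h4
  have hcardT : Tg.card = 2 * (Nat.log 2 B + 1) * (2 * K + 1) * q ^ 2 := by
    rw [hTg, card_product, card_product, card_product, card_product, Int.card_Ico, card_range,
      Int.card_Icc, card_univ, Fintype.card_bool]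
    have e1 : ((q : ℤ) - 0).toNat = q := by omega
    have e2 : ((K : ℤ) + 1 - -(K : ℤ)).toNat = 2 * K + 1 := by omega
    rw [e1, e2]
    ring
  rw [card_eq_sum_card_fiberwise (f := lab) (t := Tg) (fun P hP => hmaps P hP), ← hcardT]
  push_cast
  have hfib : ∀ b ∈ Tg, (((A.filter fun P => lab P = b).card : ℕ) : ℝ) ≤ 4 * L * q + 1 := by
    intro b _
    have hmem : ∀ P ∈ A.filter fun P => lab P = b, P ∈ A ∧ lab P = b := fun P hP =>
      mem_filter.mp hP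
    obtain ⟨⟨⟨b1, b2⟩, b3, b4⟩, b5⟩ := b
    have hl : ∀ P ∈ A.filter fun P => lab P = (((b1, b2), (b3, b4)), b5),
        P.1 % q = b1 ∧ P.2 % q = b2 ∧ Nat.log 2 P.2.natAbs = b3 ∧
          ⌊(K : ℝ) * ((P.1 : ℝ) / P.2)⌋ = b4 ∧ decide (0 < P.2) = b5 := by
      intro P hP
      have h1 := (hmem P hP).2
      rw [hlab] at h1
      simp only [Prod.mk.injEq] at h1
      exact ⟨h1.1.1.1, h1.1.1.2, h1.1.2.1, h1.1.2.2, h1.2⟩
    refine fiber_sector hM hf hL hcell hq hm _ (k := b3) ?_ ?_ ?_ ?_ ?_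
    · intro P hP
      obtain ⟨h1, h2, h3⟩ := hA P (hmem P hP).1
      exact ⟨h1.1, h2, h3⟩
    · intro P hP
      exact (hl P hP).2.2.1
    · intro P hP P' hP'
      rw [(hl P hP).2.2.2.1, (hl P' hP').2.2.2.1]
    · intro P hP P' hP'
      have h1 := (hl P hP).2.2.2.2
      have h2 := (hl P' hP').2.2.2.2
      have h3 := ht0 P (hmem P hP).1
      have h4 := ht0 P' (hmem P' hP').1
      rw [← h2] at h1
      rcases lt_or_gt_of_ne h3 with h5 | h5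
      · have h6 : ¬ 0 < P'.2 := by
          intro h6
          have := of_decide_eq_true (h1.trans (decide_eq_true h6))
          omega
        rw [Int.sign_eq_neg_one_of_neg h5, Int.sign_eq_neg_one_of_neg (by omega)]
      · have h6 : 0 < P'.2 := of_decide_eq_true (h1.symm.trans (decide_eq_true h5))
        rw [Int.sign_eq_one_of_pos h5, Int.sign_eq_one_of_pos h6]
    · intro P hP P' hP'
      refine hcr P (hmem P hP).1 P' (hmem P' hP').1 ?_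
      have h1 : (q : ℤ) ∣ P.1 - P'.1 := Int.ModEq.dvd (by
        show P'.1 % q = P.1 % q
        rw [(hl P hP).1, (hl P' hP').1])
      have h2 : (q : ℤ) ∣ P'.2 - P.2 := Int.ModEq.dvd (by
        show P.2 % q = P'.2 % q
        rw [(hl P hP).2.1, (hl P' hP').2.1])
      have e : cr P P' = P'.2 * (P.1 - P'.1) + P'.1 * (P'.2 - P.2) := by unfold cr; ring
      rw [e]
      exact dvd_add (h1.mul_left _) (h2.mul_left _)
  refine (sum_le_sum hfib).trans (le_of_eq ?_)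
  rw [sum_const, nsmul_eq_mul]

/-- **few representations** -/
theorem SF.rep_card {M : ℕ} (hM : 2 ≤ M) {f f' : ℤ[X]} (h : SF M f f') : ∃ C : ℝ, 0 < C ∧
    ∀ B m : ℕ, 1 ≤ m →
      (((Box B).filter fun P => (fv M f P.1 P.2).natAbs = m).card : ℝ) ≤
        C * (Nat.log 2 B + 1) * (rad m : ℝ) ^ 3 := by
  classical
  obtain ⟨q0, hq0, hcr⟩ := h.cr_dvd
  obtain ⟨R, u, w, hR0, hR⟩ := h.bez
  obtain ⟨R', u', w', hR0', hR'⟩ := h.bez'
  obtain ⟨K, L, hK, hL, hcell⟩ := cells hR0 hR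
  obtain ⟨K', L', hK', hL', hcell'⟩ := cells hR0' hR'
  refine ⟨2 * (2 * K + 1) * q0 ^ 2 * (4 * L * q0 + 1) +
    2 * (2 * K' + 1) * q0 ^ 2 * (4 * L' * q0 + 1), by positivity, fun B m hm => ?_⟩
  have hr1 : 1 ≤ rad m := rad_pos' m
  have hrR : (1 : ℝ) ≤ rad m := by exact_mod_cast hr1
  have hqq : 1 ≤ q0 * rad m := Nat.mul_pos hq0 hr1
  have hprime : ∀ p : ℕ, p.Prime → p ∣ m → p ∣ rad m := fun p hp hd =>
    dvd_prod_of_mem _ (Nat.mem_primeFactors.mpr ⟨hp, hd, by omega⟩)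
  obtain ⟨A, hA⟩ : ∃ A : Finset (ℤ × ℤ), A = (Box B).filter fun P =>
    (fv M f P.1 P.2).natAbs = m := ⟨_, rfl⟩
  have hAm : ∀ P ∈ A, (|P.1| ≤ B ∧ |P.2| ≤ B) ∧ IsCoprime P.1 P.2 ∧
      (fv M f P.1 P.2).natAbs = m := by
    intro P hP
    rw [hA, mem_filter, mem_Box] at hP
    exact ⟨hP.1.1, hP.1.2, hP.2⟩
  have hcrA : ∀ P ∈ A, ∀ P' ∈ A, ((q0 * rad m : ℕ) : ℤ) ∣ cr P P' →
      (m : ℤ) ∣ ((q0 * rad m : ℕ) : ℤ) * cr P P' := by
    intro P hP P' hP' hd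
    obtain ⟨-, h1, h2⟩ := hAm P hP
    obtain ⟨-, h1', h2'⟩ := hAm P' hP'
    have h3 := hcr m (rad m) hprime P P' h1 h1' (by rw [← Int.dvd_natAbs, h2])
      (by rw [← Int.dvd_natAbs, h2']) hd
    push_cast
    have e : (q0 : ℤ) * (rad m : ℤ) * cr P P' = rad m * (q0 * cr P P') := by ring
    rw [e]
    exact h3.mul_left _
  have c1 := chart_card (B := B) hM h.deg hL hcell hqq hm (A.filter fun P => |P.1| ≤ |P.2|) (by
    intro P hP
    rw [mem_filter] at hP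
    obtain ⟨h1, h2, h3⟩ := hAm P hP.1
    exact ⟨⟨hP.2, h1.2⟩, h2, h3⟩) (by
    intro P hP P' hP'
    exact hcrA P (mem_filter.mp hP).1 P' (mem_filter.mp hP').1)
  have c2 := chart_card (B := B) hM h.deg' hL' hcell' hqq hm ((A.filter fun P => ¬ |P.1| ≤ |P.2|).map
      (Equiv.prodComm ℤ ℤ).toEmbedding) (by
    intro P hP
    rw [Finset.mem_map] at hP
    obtain ⟨P', hP', rfl⟩ := hP
    rw [mem_filter] at hP'
    obtain ⟨h1, h2, h3⟩ := hAm P' hP'.1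
    refine ⟨⟨?_, h1.1⟩, h2.symm, ?_⟩
    · exact (not_le.mp hP'.2).le
    · simp only [Equiv.coe_toEmbedding, Equiv.prodComm_apply, Prod.fst_swap, Prod.snd_swap]
      rw [← h.swap]
      exact h3) (by
    intro P hP P' hP' hd
    rw [Finset.mem_map] at hP hP'
    obtain ⟨R, hR, rfl⟩ := hP
    obtain ⟨R', hR', rfl⟩ := hP'
    have e : cr ((Equiv.prodComm ℤ ℤ).toEmbedding R) ((Equiv.prodComm ℤ ℤ).toEmbedding R') =
        -cr R R' := by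
      unfold cr
      simp only [Equiv.coe_toEmbedding, Equiv.prodComm_apply, Prod.fst_swap, Prod.snd_swap]
      ring
    rw [e] at hd ⊢
    rw [mul_neg]
    exact (dvd_neg).mpr (hcrA R (mem_filter.mp hR).1 R' (mem_filter.mp hR').1
      ((dvd_neg).mp hd)))
  rw [card_map] at c2
  have hsum : (A.filter fun P => |P.1| ≤ |P.2|).card + (A.filter fun P => ¬ |P.1| ≤ |P.2|).card =
      A.card := card_filter_add_card_filter_not _
  have hsumR : ((A.filter fun P => |P.1| ≤ |P.2|).card : ℝ) +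
      ((A.filter fun P => ¬ |P.1| ≤ |P.2|).card : ℝ) = (A.card : ℝ) := by exact_mod_cast hsum
  rw [← hA, ← hsumR]
  have hlg : (0 : ℝ) ≤ (Nat.log 2 B : ℝ) + 1 := by positivity
  have bnd : ∀ (K : ℕ) (L : ℝ), 0 < L →
      ((2 * (Nat.log 2 B + 1) * (2 * K + 1) * (q0 * rad m) ^ 2 : ℕ) : ℝ) *
        (4 * L * ((q0 * rad m : ℕ) : ℝ) + 1) ≤
      (2 * (2 * K + 1) * q0 ^ 2 * (4 * L * q0 + 1)) * (Nat.log 2 B + 1) * (rad m : ℝ) ^ 3 := by
    intro K L hL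
    push_cast
    have e1 : (4 * L * ((q0 : ℝ) * rad m) + 1) ≤ (4 * L * q0 + 1) * rad m := by nlinarith
    calc (2 * ((Nat.log 2 B : ℝ) + 1) * (2 * K + 1) * ((q0 : ℝ) * rad m) ^ 2) *
          (4 * L * ((q0 : ℝ) * rad m) + 1)
        ≤ (2 * ((Nat.log 2 B : ℝ) + 1) * (2 * K + 1) * ((q0 : ℝ) * rad m) ^ 2) *
          ((4 * L * q0 + 1) * rad m) := mul_le_mul_of_nonneg_left e1 (by positivity)
      _ = _ := by ring
  have d1 := c1.trans (bnd K L hL)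
  have d2 := c2.trans (bnd K' L' hL')
  have e : (2 * (2 * K + 1) * q0 ^ 2 * (4 * L * q0 + 1) +
      2 * (2 * K' + 1) * q0 ^ 2 * (4 * L' * q0 + 1)) * ((Nat.log 2 B : ℝ) + 1) * (rad m : ℝ) ^ 3 =
      (2 * (2 * K + 1) * q0 ^ 2 * (4 * L * q0 + 1)) * (Nat.log 2 B + 1) * (rad m : ℝ) ^ 3 +
      (2 * (2 * K' + 1) * q0 ^ 2 * (4 * L' * q0 + 1)) * (Nat.log 2 B + 1) * (rad m : ℝ) ^ 3 := by
    ring
  rw [e]
  exact add_le_add d1 d2

end Pool.Agent.N365.LS
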