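import Pool.Agent.N365.LS.F3

/-!
# Few values of a form have a small radical
-/

set_option autoImplicit false

namespace Pool.Agent.N365.LS

open Finset Polynomial Filter
open Pool.Agent.N365.SZ
open Pool.Agent.H785R2.ABC (rad stmtA2 rad_pos')
open Pool.Agent.Y670.RD (fv fv_le toQ)
open Pool.Agent.Y679.Md (rS rS_pos)

theorem log_rpow (ε : ℝ) (hε : 0 < ε) : ∃ C : ℝ, 0 < C ∧ ∀ B : ℕ, 1 ≤ B →
    ((Nat.log 2 B : ℝ) + 1) ≤ C * (B : ℝ) ^ ε := by
  refine ⟨2 / ε + 1, by positivity, fun B hB => ?_⟩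
  have hB1 : (1 : ℝ) ≤ B := by exact_mod_cast hB
  have h1 : (Nat.log 2 B : ℝ) ≤ Real.logb 2 B := by
    have := Real.natLog_le_logb B 2
    exact_mod_cast this
  have h2 : Real.logb 2 B ≤ 2 * Real.log B := by
    rw [Real.logb, div_le_iff₀ (Real.log_pos (by norm_num))]
    have h3 := Real.log_two_gt_d9
    have h4 : 0 ≤ Real.log B := Real.log_nonneg hB1
    nlinarith
  have h5 : Real.log B ≤ (B : ℝ) ^ ε / ε := Real.log_le_rpow_div (by linarith) hε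
  have h6 : 1 ≤ (B : ℝ) ^ ε := Real.one_le_rpow hB1 hε.le
  have e : (2 / ε + 1) * (B : ℝ) ^ ε = 2 * ((B : ℝ) ^ ε / ε) + (B : ℝ) ^ ε := by ring
  rw [e]
  linarith

theorem total {ι : Type*} (E : Finset ι) (v : ι → ℕ) {X : ℕ} {Y W : ℝ}
    (hv : ∀ i ∈ E, 1 ≤ v i ∧ v i ≤ X ∧ (rad (v i) : ℝ) ≤ Y)
    (hW : ∀ m : ℕ, 1 ≤ m → m ≤ X → (rad m : ℝ) ≤ Y → ∀ F : Finset ι, F ⊆ E →
      (∀ i ∈ F, v i = m) → (F.card : ℝ) ≤ W) :
    (E.card : ℝ) ≤ (((Icc 1 X).filter fun m => (rad m : ℝ) ≤ Y).card : ℝ) * W := by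
  classical
  rw [card_eq_sum_card_fiberwise (f := v) (t := (Icc 1 X).filter fun m => (rad m : ℝ) ≤ Y)
    (fun i hi => by
      obtain ⟨h1, h2, h3⟩ := hv i hi
      exact mem_coe.mpr (mem_filter.mpr ⟨mem_Icc.mpr ⟨h1, h2⟩, h3⟩))]
  push_cast
  calc ∑ m ∈ (Icc 1 X).filter fun m => (rad m : ℝ) ≤ Y, ((E.filter fun i => v i = m).card : ℝ)
      ≤ ∑ _m ∈ (Icc 1 X).filter fun m => (rad m : ℝ) ≤ Y, W := by
        refine sum_le_sum fun m hm => ?_
        rw [mem_filter, mem_Icc] at hm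
        exact hW m hm.1.1 hm.1.2 hm.2 _ (filter_subset _ _) fun i hi => (mem_filter.mp hi).2
    _ = _ := by rw [sum_const, nsmul_eq_mul]

theorem few_values (M : ℕ) (hM : 1 ≤ M) (C0 Q : ℝ) (hC0 : 1 ≤ C0) (hQ : 1 ≤ Q) (ε : ℝ)
    (hε : 0 < ε) : ∃ C : ℝ, 0 < C ∧ ∀ B : ℕ, 1 ≤ B →
      (((Icc 1 ⌊C0 * (B : ℝ) ^ M⌋₊).filter fun m => (rad m : ℝ) ≤ Q * (B : ℝ) ^ (ε / 8)).card : ℝ) ≤
        C * (B : ℝ) ^ (3 * ε / 8) := by
  have hMR : (0 : ℝ) < M := by exact_mod_cast hM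
  obtain ⟨C, hC, h⟩ := rad_count (ε / (4 * M)) (by positivity)
  refine ⟨C * C0 ^ (ε / (4 * M)) * Q, by positivity, fun B hB => ?_⟩
  have hB1 : (1 : ℝ) ≤ B := by exact_mod_cast hB
  have hX0 : 1 ≤ C0 * (B : ℝ) ^ M := by
    have := one_le_pow₀ hB1 (n := M)
    nlinarith
  have hX1 : 1 ≤ ⌊C0 * (B : ℝ) ^ M⌋₊ := Nat.le_floor (by exact_mod_cast hX0)
  refine (h _ hX1 _ (by positivity)).trans ?_
  have h1 : ((⌊C0 * (B : ℝ) ^ M⌋₊ : ℕ) : ℝ) ^ (ε / (4 * M)) ≤ C0 ^ (ε / (4 * M)) * (B : ℝ) ^ (ε / 4) := by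
    calc ((⌊C0 * (B : ℝ) ^ M⌋₊ : ℕ) : ℝ) ^ (ε / (4 * M)) ≤ (C0 * (B : ℝ) ^ M) ^ (ε / (4 * M)) :=
          Real.rpow_le_rpow (Nat.cast_nonneg _) (Nat.floor_le (by positivity)) (by positivity)
      _ = C0 ^ (ε / (4 * M)) * (B : ℝ) ^ (ε / 4) := by
          rw [Real.mul_rpow (by linarith) (by positivity), ← Real.rpow_natCast (B : ℝ) M,
            ← Real.rpow_mul (by linarith)]
          congr 2
          field_simp
  have e : (3 * ε / 8 : ℝ) = ε / 4 + ε / 8 := by ring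
  rw [e, Real.rpow_add (by linarith)]
  calc C * ((⌊C0 * (B : ℝ) ^ M⌋₊ : ℕ) : ℝ) ^ (ε / (4 * M)) * (Q * (B : ℝ) ^ (ε / 8))
      ≤ C * (C0 ^ (ε / (4 * M)) * (B : ℝ) ^ (ε / 4)) * (Q * (B : ℝ) ^ (ε / 8)) := by
        refine mul_le_mul_of_nonneg_right ?_ (by positivity)
        exact mul_le_mul_of_nonneg_left h1 hC.le
    _ = _ := by ring

/-- the pairs with a value of small radical -/
noncomputable def Sm (M : ℕ) (f : ℤ[X]) (S : Finset ℕ) (η : ℝ) (B : ℕ) : Finset (ℤ × ℤ) := by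
  classical
  exact (Box B).filter fun P => fv M f P.1 P.2 ≠ 0 ∧
    (rS S (fv M f P.1 P.2).natAbs : ℝ) ≤ (B : ℝ) ^ η

theorem mem_Sm {M : ℕ} {f : ℤ[X]} {S : Finset ℕ} {η : ℝ} {B : ℕ} {P : ℤ × ℤ} :
    P ∈ Sm M f S η B ↔ P ∈ Box B ∧ fv M f P.1 P.2 ≠ 0 ∧
      (rS S (fv M f P.1 P.2).natAbs : ℝ) ≤ (B : ℝ) ^ η := by
  classical
  unfold Sm
  rw [mem_filter]

theorem fv_bound (M : ℕ) (f : ℤ[X]) : ∃ C0 : ℝ, 1 ≤ C0 ∧ ∀ (B : ℕ) (P : ℤ × ℤ), P ∈ Box B →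
    (((fv M f P.1 P.2).natAbs : ℕ) : ℝ) ≤ C0 * (B : ℝ) ^ M := by
  have h0 : 0 ≤ ∑ i ∈ range (M + 1), |(f.coeff i : ℝ)| := sum_nonneg fun _ _ => abs_nonneg _
  refine ⟨(∑ i ∈ range (M + 1), |(f.coeff i : ℝ)|) + 1, by linarith, fun B P hP => ?_⟩
  rw [Nat.cast_natAbs, Int.cast_abs]
  refine (fv_le M f P.1 P.2).trans ?_
  have hPb := mem_Box.mp hP
  have hm : max |(P.1 : ℝ)| |(P.2 : ℝ)| ≤ B := by
    refine max_le ?_ ?_
    · exact_mod_cast hPb.1.1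
    · exact_mod_cast hPb.1.2
  have hm0 : 0 ≤ max |(P.1 : ℝ)| |(P.2 : ℝ)| := le_max_of_le_left (abs_nonneg _)
  exact mul_le_mul (by linarith) (pow_le_pow_left₀ hm0 hm M) (by positivity) (by linarith)

theorem prod_one_le {S : Finset ℕ} (hS : ∀ p ∈ S, p.Prime) : (1 : ℝ) ≤ ((∏ p ∈ S, p : ℕ) : ℝ) := by
  have : 1 ≤ ∏ p ∈ S, p := Nat.one_le_iff_ne_zero.mpr (prod_ne_zero_iff.mpr fun p hp => (hS p hp).ne_zero)
  exact_mod_cast this

/-- the data of a value -/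
theorem val_data {S : Finset ℕ} (hS : ∀ p ∈ S, p.Prime) {y : ℤ} (hy : y ≠ 0) {Y X : ℝ}
    (h1 : (rS S y.natAbs : ℝ) ≤ Y) (h2 : ((y.natAbs : ℕ) : ℝ) ≤ X) :
    1 ≤ y.natAbs ∧ y.natAbs ≤ ⌊X⌋₊ ∧ (rad y.natAbs : ℝ) ≤ ((∏ p ∈ S, p : ℕ) : ℝ) * Y := by
  have h0 : 0 < y.natAbs := Int.natAbs_pos.mpr hy
  refine ⟨h0, Nat.le_floor h2, ?_⟩
  have h3 := rad_le_rS hS y.natAbs
  have h4 : (rad y.natAbs : ℝ) ≤ ((∏ p ∈ S, p : ℕ) : ℝ) * (rS S y.natAbs : ℝ) := by exact_mod_cast h3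
  have h5 := prod_one_le hS
  exact h4.trans (mul_le_mul_of_nonneg_left h1 (by linarith))

/-- **forms of degree at least two** -/
theorem SF.small_card {M : ℕ} (hM : 2 ≤ M) {f f' : ℤ[X]} (h : SF M f f') {S : Finset ℕ}
    (hS : ∀ p ∈ S, p.Prime) (ε : ℝ) (hε : 0 < ε) : ∃ C : ℝ, 0 < C ∧ ∀ B : ℕ, 1 ≤ B →
      ((Sm M f S (ε / 8) B).card : ℝ) ≤ C * (B : ℝ) ^ ε := by
  classical
  obtain ⟨C0, hC0, hbd⟩ := fv_bound M f
  obtain ⟨Q, hQ⟩ : ∃ Q : ℝ, Q = ((∏ p ∈ S, p : ℕ) : ℝ) := ⟨_, rfl⟩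
  have hQ1 : 1 ≤ Q := by rw [hQ]; exact prod_one_le hS
  obtain ⟨C1, hC1, hrep⟩ := h.rep_card hM
  obtain ⟨C2, hC2, hlog⟩ := log_rpow (ε / 4) (by positivity)
  obtain ⟨C3, hC3, hfew⟩ := few_values M (by omega) C0 Q hC0 hQ1 ε hε
  refine ⟨C3 * (C1 * C2 * Q ^ 3), by positivity, fun B hB => ?_⟩
  have hB1 : (1 : ℝ) ≤ B := by exact_mod_cast hB
  have htot := total (Sm M f S (ε / 8) B) (fun P => (fv M f P.1 P.2).natAbs)
    (X := ⌊C0 * (B : ℝ) ^ M⌋₊) (Y := Q * (B : ℝ) ^ (ε / 8))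
    (W := C1 * C2 * Q ^ 3 * (B : ℝ) ^ (5 * ε / 8))
    (fun P hP => by
      obtain ⟨h1, h2, h3⟩ := mem_Sm.mp hP
      have := val_data hS h2 h3 (hbd B P h1)
      rwa [← hQ] at this)
    (fun m hm1 hm2 hm3 F hF hFm => by
      have h1 := hrep B m hm1
      have h2 : F ⊆ (Box B).filter fun P => (fv M f P.1 P.2).natAbs = m := fun P hP =>
        mem_filter.mpr ⟨(mem_Sm.mp (hF hP)).1, hFm P hP⟩
      have h3 : (F.card : ℝ) ≤ (((Box B).filter fun P => (fv M f P.1 P.2).natAbs = m).card : ℝ) := by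
        exact_mod_cast card_le_card h2
      refine (h3.trans h1).trans ?_
      have h4 : (rad m : ℝ) ^ 3 ≤ (Q * (B : ℝ) ^ (ε / 8)) ^ 3 :=
        pow_le_pow_left₀ (Nat.cast_nonneg _) hm3 3
      have e : (5 * ε / 8 : ℝ) = ε / 4 + ε / 8 * (3 : ℕ) := by push_cast; ring
      rw [e, Real.rpow_add (by linarith), Real.rpow_mul (by linarith), Real.rpow_natCast]
      calc C1 * (↑(Nat.log 2 B) + 1) * (rad m : ℝ) ^ 3
          ≤ C1 * (C2 * (B : ℝ) ^ (ε / 4)) * (Q * (B : ℝ) ^ (ε / 8)) ^ 3 := by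
            refine mul_le_mul (mul_le_mul_of_nonneg_left (hlog B hB) hC1.le) h4 (by positivity)
              (by positivity)
        _ = _ := by ring)
  refine htot.trans ?_
  have h5 := hfew B hB
  calc _ ≤ (C3 * (B : ℝ) ^ (3 * ε / 8)) * (C1 * C2 * Q ^ 3 * (B : ℝ) ^ (5 * ε / 8)) :=
        mul_le_mul_of_nonneg_right h5 (by positivity)
    _ = C3 * (C1 * C2 * Q ^ 3) * ((B : ℝ) ^ (3 * ε / 8) * (B : ℝ) ^ (5 * ε / 8)) := by ring
    _ = _ := by
        rw [← Real.rpow_add (by linarith)]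
        congr 2
        ring

/-- **linear forms** -/
theorem lin_card {f : ℤ[X]} (hf : f ≠ 0) (hd : f.natDegree ≤ 1) {S : Finset ℕ}
    (hS : ∀ p ∈ S, p.Prime) (ε : ℝ) (hε : 0 < ε) : ∃ C : ℝ, 0 < C ∧ ∀ B : ℕ, 1 ≤ B →
      ((Sm 1 f S (ε / 8) B).card : ℝ) ≤ C * (B : ℝ) ^ (1 + ε) := by
  classical
  obtain ⟨C0, hC0, hbd⟩ := fv_bound 1 f
  obtain ⟨Q, hQ⟩ : ∃ Q : ℝ, Q = ((∏ p ∈ S, p : ℕ) : ℝ) := ⟨_, rfl⟩
  have hQ1 : 1 ≤ Q := by rw [hQ]; exact prod_one_le hS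
  obtain ⟨C3, hC3, hfew⟩ := few_values 1 le_rfl C0 Q hC0 hQ1 ε hε
  refine ⟨C3 * 6, by positivity, fun B hB => ?_⟩
  have hB1 : (1 : ℝ) ≤ B := by exact_mod_cast hB
  have hform : ∀ s t : ℤ, fv 1 f s t = f.coeff 0 * t + f.coeff 1 * s := by
    intro s t
    unfold fv
    rw [sum_range_succ, sum_range_succ, range_zero, sum_empty]
    simp
  have htot := total (Sm 1 f S (ε / 8) B) (fun P => (fv 1 f P.1 P.2).natAbs)
    (X := ⌊C0 * (B : ℝ) ^ 1⌋₊) (Y := Q * (B : ℝ) ^ (ε / 8)) (W := 6 * B)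
    (fun P hP => by
      obtain ⟨h1, h2, h3⟩ := mem_Sm.mp hP
      have := val_data hS h2 h3 (hbd B P h1)
      rwa [← hQ] at this)
    (fun m hm1 hm2 hm3 F hF hFm => by
      have hcard : F.card ≤ ((Icc (-(B : ℤ)) B) ×ˢ (univ : Finset Bool)).card := by
        by_cases h1 : f.coeff 1 = 0
        · have h0 : f.coeff 0 ≠ 0 := by
            intro h0
            apply hf
            ext i
            rcases i with _ | _ | i
            · simpa using h0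
            · simpa using h1
            · rw [coeff_eq_zero_of_natDegree_lt (by omega), coeff_zero]
          refine card_le_card_of_injOn (fun P => (P.1, decide (0 < fv 1 f P.1 P.2))) ?_ ?_
          · intro P hP
            rw [mem_coe] at hP
            rw [mem_coe, mem_product]
            refine ⟨?_, mem_univ _⟩
            rw [mem_Icc]
            exact abs_le.mp (mem_Box.mp (mem_Sm.mp (hF hP)).1).1.1
          · intro P hP P' hP' he
            rw [mem_coe] at hP hP'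
            simp only [Prod.mk.injEq, decide_eq_decide] at he
            have a1 := hFm P hP
            have a2 := hFm P' hP'
            have a3 : fv 1 f P.1 P.2 = fv 1 f P'.1 P'.2 := by omega
            rw [hform, hform, h1] at a3
            have a4 : f.coeff 0 * P.2 = f.coeff 0 * P'.2 := by linarith
            exact Prod.ext he.1 (mul_left_cancel₀ h0 a4)
        · refine card_le_card_of_injOn (fun P => (P.2, decide (0 < fv 1 f P.1 P.2))) ?_ ?_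
          · intro P hP
            rw [mem_coe] at hP
            rw [mem_coe, mem_product]
            refine ⟨?_, mem_univ _⟩
            rw [mem_Icc]
            exact abs_le.mp (mem_Box.mp (mem_Sm.mp (hF hP)).1).1.2
          · intro P hP P' hP' he
            rw [mem_coe] at hP hP'
            simp only [Prod.mk.injEq, decide_eq_decide] at he
            have a1 := hFm P hP
            have a2 := hFm P' hP'
            have a3 : fv 1 f P.1 P.2 = fv 1 f P'.1 P'.2 := by omega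
            rw [hform, hform, he.1] at a3
            have a4 : f.coeff 1 * P.1 = f.coeff 1 * P'.1 := by linarith
            exact Prod.ext (mul_left_cancel₀ h1 a4) he.1
      rw [card_product, Int.card_Icc, card_univ, Fintype.card_bool] at hcard
      have e : ((B : ℤ) + 1 - -(B : ℤ)).toNat = 2 * B + 1 := by omega
      rw [e] at hcard
      have h2 : (F.card : ℝ) ≤ (2 * B + 1) * 2 := by exact_mod_cast hcard
      linarith)
  refine htot.trans ?_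
  have h5 := hfew B hB
  have h6 : (B : ℝ) ^ (3 * ε / 8) ≤ (B : ℝ) ^ ε := Real.rpow_le_rpow_of_exponent_le hB1 (by linarith)
  rw [Real.rpow_add (by linarith), Real.rpow_one]
  calc _ ≤ (C3 * (B : ℝ) ^ (3 * ε / 8)) * (6 * B) := mul_le_mul_of_nonneg_right h5 (by positivity)
    _ ≤ (C3 * (B : ℝ) ^ ε) * (6 * B) :=
        mul_le_mul_of_nonneg_right (mul_le_mul_of_nonneg_left h6 hC3.le) (by positivity)
    _ = _ := by ring

/-- the integers with a value of small radical -/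
noncomputable def SmI (f : ℤ[X]) (S : Finset ℕ) (η : ℝ) (B : ℕ) : Finset ℤ := by
  classical
  exact (Icc (-(B : ℤ)) B).filter fun t => f.eval t ≠ 0 ∧
    (rS S (f.eval t).natAbs : ℝ) ≤ (B : ℝ) ^ η

theorem mem_SmI {f : ℤ[X]} {S : Finset ℕ} {η : ℝ} {B : ℕ} {t : ℤ} :
    t ∈ SmI f S η B ↔ |t| ≤ (B : ℤ) ∧ f.eval t ≠ 0 ∧
      (rS S (f.eval t).natAbs : ℝ) ≤ (B : ℝ) ^ η := by
  classical
  unfold SmI
  rw [mem_filter, mem_Icc, abs_le]

/-- **integers** -/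
theorem int_card {f : ℤ[X]} (hf : 1 ≤ f.natDegree) {S : Finset ℕ}
    (hS : ∀ p ∈ S, p.Prime) (ε : ℝ) (hε : 0 < ε) : ∃ C : ℝ, 0 < C ∧ ∀ B : ℕ, 1 ≤ B →
      ((SmI f S (ε / 8) B).card : ℝ) ≤ C * (B : ℝ) ^ ε := by
  classical
  obtain ⟨C0, hC0, hbd⟩ := fv_bound f.natDegree f
  obtain ⟨Q, hQ⟩ : ∃ Q : ℝ, Q = ((∏ p ∈ S, p : ℕ) : ℝ) := ⟨_, rfl⟩
  have hQ1 : 1 ≤ Q := by rw [hQ]; exact prod_one_le hS
  obtain ⟨C3, hC3, hfew⟩ := few_values f.natDegree hf C0 Q hC0 hQ1 ε hε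
  refine ⟨C3 * (2 * f.natDegree), by positivity, fun B hB => ?_⟩
  have hB1 : (1 : ℝ) ≤ B := by exact_mod_cast hB
  have htot := total (SmI f S (ε / 8) B) (fun t => (f.eval t).natAbs)
    (X := ⌊C0 * (B : ℝ) ^ f.natDegree⌋₊) (Y := Q * (B : ℝ) ^ (ε / 8)) (W := 2 * f.natDegree)
    (fun t ht => by
      obtain ⟨h1, h2, h3⟩ := mem_SmI.mp ht
      have hb : ((t, 1) : ℤ × ℤ) ∈ Box B := mem_Box.mpr ⟨⟨h1, by
        show |(1 : ℤ)| ≤ B
        rw [abs_one]; exact_mod_cast hB⟩, isCoprime_one_right⟩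
      have h4 := hbd B (t, 1) hb
      simp only at h4
      rw [fv_int _ le_rfl] at h4
      have := val_data hS h2 h3 h4
      rwa [← hQ] at this)
    (fun m hm1 hm2 hm3 F hF hFm => by
      have hne : ∀ k : ℤ, f - C k ≠ 0 := by
        intro k h0
        rw [sub_eq_zero] at h0
        rw [h0, natDegree_C] at hf
        omega
      have hdeg : ∀ k : ℤ, (f - C k).roots.toFinset.card ≤ f.natDegree := by
        intro k
        refine (Multiset.toFinset_card_le _).trans ((card_roots' _).trans ?_)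
        refine (natDegree_sub_le _ _).trans ?_
        rw [natDegree_C]
        omega
      have hsub : F ⊆ (f - C (m : ℤ)).roots.toFinset ∪ (f - C (-(m : ℤ))).roots.toFinset := by
        intro t ht
        have h1 := hFm t ht
        rw [mem_union, Multiset.mem_toFinset, Multiset.mem_toFinset, mem_roots (hne _),
          mem_roots (hne _), IsRoot.def, IsRoot.def, eval_sub, eval_sub, eval_C, eval_C]
        omega
      have h2 : F.card ≤ f.natDegree + f.natDegree :=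
        (card_le_card hsub).trans ((card_union_le _ _).trans (Nat.add_le_add (hdeg _) (hdeg _)))
      have h3 : (F.card : ℝ) ≤ f.natDegree + f.natDegree := by exact_mod_cast h2
      linarith)
  refine htot.trans ?_
  have h5 := hfew B hB
  have h6 : (B : ℝ) ^ (3 * ε / 8) ≤ (B : ℝ) ^ ε := Real.rpow_le_rpow_of_exponent_le hB1 (by linarith)
  calc _ ≤ (C3 * (B : ℝ) ^ (3 * ε / 8)) * (2 * f.natDegree) :=
        mul_le_mul_of_nonneg_right h5 (by positivity)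
    _ ≤ (C3 * (B : ℝ) ^ ε) * (2 * f.natDegree) :=
        mul_le_mul_of_nonneg_right (mul_le_mul_of_nonneg_left h6 hC3.le) (by positivity)
    _ = _ := by ring

end Pool.Agent.N365.LS
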