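import Pool.Agent.N365.LS.F4
import Pool.Agent.N365.LS.A

/-!
# The form of the poles
-/

set_option autoImplicit false

namespace Pool.Agent.N365.LS

open Finset Polynomial Filter UniqueFactorizationMonoid
open Pool.Agent.N365.SZ
open Pool.Agent.Y670.RD (fv fvq fv_le fv_mul toQ toQ_inj clr fv_mod)
open Pool.Agent.Y679.Md (rS rS_pos)

/-- the number of the poles of `A / D` on the projective line over `ℂ` -/
noncomputable def poleCount (N : ℕ) (D : ℤ[X]) : ℕ :=
  (D.map (Int.castRingHom ℂ)).roots.toFinset.card + if D.natDegree < N then 1 else 0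

theorem toQ_zero : toQ (0 : ℤ[X]) = 0 := by unfold toQ; simp

theorem fv_zero_right {M : ℕ} (f : ℤ[X]) (s : ℤ) : fv M f s 0 = f.coeff M * s ^ M := by
  have h := fv_mod M f s 0
  rw [zero_dvd_iff, sub_eq_zero] at h
  exact h

/-- **the form of the poles** -/
theorem Rat.form {N : ℕ} {A D : ℤ[X]} (h : Rat N A D) : ∃ (M : ℕ) (G : ℤ[X]) (S : Finset ℕ),
    SF M G (G.reflect M) ∧ G ≠ 0 ∧ G.natDegree ≤ M ∧ (∀ p ∈ S, p.Prime) ∧ 1 ≤ M ∧
    poleCount N D ≤ M ∧ (1 ≤ D.natDegree → 1 ≤ G.natDegree) ∧
    ∀ s t : ℤ, IsCoprime s t → fv M G s t ≠ 0 → fv N D s t ≠ 0 ∧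
      ∀ p : ℕ, p.Prime → p ∉ S → (p : ℤ) ∣ fv M G s t →
        (p : ℤ) ∣ fv N D s t ∧ ¬ (p : ℤ) ∣ fv N A s t := by
  classical
  obtain ⟨S0, hS0, hcop⟩ := h.cop
  have hq0 : toQ D ≠ 0 := by
    intro h0
    exact h.D0 (toQ_inj (by rw [h0, toQ_zero]))
  obtain ⟨ρ, hρ⟩ := radical_dvd_self (a := toQ D)
  obtain ⟨k, hk⟩ := exists_dvd_radical_self_pow (a := toQ D) hq0
  obtain ⟨m1, G, hm1, hG⟩ := clr (radical (toQ D))
  obtain ⟨m2, H, hm2, hH⟩ := clr ρ
  have hm1' : ((m1 : ℤ) : ℚ) ≠ 0 := by exact_mod_cast hm1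
  have hm2' : ((m2 : ℤ) : ℚ) ≠ 0 := by exact_mod_cast hm2
  have hρ0 : ρ ≠ 0 := by
    rintro rfl
    rw [mul_zero] at hρ
    exact hq0 hρ
  have hrad0 : radical (toQ D) ≠ 0 := radical_ne_zero
  have hG0 : G ≠ 0 := by
    rintro rfl
    rw [toQ_zero] at hG
    exact mul_ne_zero (C_ne_zero.mpr hm1') hrad0 hG.symm
  have e1 : G.natDegree = (radical (toQ D)).natDegree := by
    rw [← toQ_deg, hG, natDegree_C_mul hm1']
  have e2 : H.natDegree = ρ.natDegree := by
    rw [← toQ_deg, hH, natDegree_C_mul hm2']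
  have hu : IsUnit (C ((m1 : ℤ) : ℚ)) := isUnit_C.mpr (isUnit_iff_ne_zero.mpr hm1')
  have hsq : Squarefree (toQ G) := by
    rw [hG]
    have ha : Associated (radical (toQ D)) (C ((m1 : ℤ) : ℚ) * radical (toQ D)) :=
      (associated_unit_mul_left _ _ hu).symm
    exact ha.squarefree_iff.mp squarefree_radical
  have hDG : C (m1 * m2) * D = G * H := by
    apply toQ_inj
    rw [toQ_mul, toQ_mul, toQ_C, hG, hH]
    conv_lhs => rw [hρ]
    push_cast
    rw [C_mul]
    ring
  have hdeg : G.natDegree + H.natDegree = D.natDegree := by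
    rw [e1, e2, ← natDegree_mul hrad0 hρ0, ← hρ, toQ_deg]
  have hpow : toQ D ∣ (toQ G) ^ k := by
    rw [hG, mul_pow]
    exact hk.mul_left _
  obtain ⟨M, hM⟩ : ∃ M : ℕ, M = G.natDegree + if D.natDegree < N then 1 else 0 := ⟨_, rfl⟩
  have hGM : G.natDegree = M ∨ G.natDegree + 1 = M := by
    rw [hM]
    split_ifs
    · right; rfl
    · left; rfl
  have hGD : 1 ≤ D.natDegree → 1 ≤ G.natDegree := by
    intro hD
    by_contra hcon
    have hG0' : G.natDegree = 0 := by omega
    obtain ⟨g0, hg0⟩ : ∃ g0 : ℤ, G = C g0 := ⟨_, eq_C_of_natDegree_eq_zero hG0'⟩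
    have h1 : IsUnit (toQ G ^ k) := by
      rw [hg0, toQ_C]
      refine (isUnit_C.mpr (isUnit_iff_ne_zero.mpr ?_)).pow k
      intro h2
      apply hG0
      rw [hg0]
      have : g0 = 0 := by exact_mod_cast h2
      rw [this, C_0]
    have h2 := natDegree_eq_zero_of_isUnit (isUnit_of_dvd_unit hpow h1)
    rw [toQ_deg] at h2
    omega
  refine ⟨M, G, S0 ∪ (m1 * m2).natAbs.primeFactors ∪ G.leadingCoeff.natAbs.primeFactors,
    SF.of hsq hGM, hG0, by omega, ?_, ?_, ?_, hGD, ?_⟩
  · intro p hp
    rw [mem_union, mem_union] at hp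
    rcases hp with (h1 | h1) | h1
    · exact hS0 p h1
    · exact Nat.prime_of_mem_primeFactors h1
    · exact Nat.prime_of_mem_primeFactors h1
  · rw [hM]
    have h1 := h.pos
    have h2 := h.degD
    by_cases h3 : D.natDegree < N
    · have e : (if D.natDegree < N then 1 else 0) = 1 := if_pos h3
      omega
    · rw [if_neg h3]
      have := hGD (by omega)
      omega
  · rw [hM]
    unfold poleCount
    refine Nat.add_le_add_right ?_ _
    have hinj : Function.Injective (Int.castRingHom ℂ) := Int.cast_injective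
    have hGC : G.map (Int.castRingHom ℂ) ≠ 0 := (Polynomial.map_ne_zero_iff hinj).mpr hG0
    have hDC : D.map (Int.castRingHom ℂ) ≠ 0 := (Polynomial.map_ne_zero_iff hinj).mpr h.D0
    have hcomp : ∀ f : ℤ[X], f.map (Int.castRingHom ℂ) = (toQ f).map (algebraMap ℚ ℂ) := by
      intro f
      unfold toQ
      rw [Polynomial.map_map]
      congr 1
    have hsub : (D.map (Int.castRingHom ℂ)).roots.toFinset ⊆
        (G.map (Int.castRingHom ℂ)).roots.toFinset := by
      intro α hα
      rw [Multiset.mem_toFinset, mem_roots hDC, IsRoot.def] at hα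
      rw [Multiset.mem_toFinset, mem_roots hGC, IsRoot.def]
      have h1 : D.map (Int.castRingHom ℂ) ∣ (G.map (Int.castRingHom ℂ)) ^ k := by
        rw [hcomp, hcomp, ← Polynomial.map_pow]
        exact Polynomial.map_dvd _ hpow
      obtain ⟨q, hq⟩ := h1
      have h2 := congrArg (eval α) hq
      rw [eval_pow, eval_mul, hα, zero_mul] at h2
      have hk0 : k ≠ 0 := by
        rintro rfl
        rw [pow_zero] at h2
        exact one_ne_zero h2
      exact (pow_eq_zero_iff hk0).mp h2
    calc (D.map (Int.castRingHom ℂ)).roots.toFinset.card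
        ≤ (G.map (Int.castRingHom ℂ)).roots.toFinset.card := card_le_card hsub
      _ ≤ (G.map (Int.castRingHom ℂ)).roots.card := Multiset.toFinset_card_le _
      _ ≤ (G.map (Int.castRingHom ℂ)).natDegree := card_roots' _
      _ ≤ _ := natDegree_map_le
  · intro s t hst hne
    by_cases ht : t = 0
    · subst ht
      have hs : IsUnit s := isCoprime_zero_right.mp hst
      rw [fv_zero_right] at hne
      have hcM : G.coeff M ≠ 0 := left_ne_zero_of_mul hne
      have hMG : G.natDegree = M := by
        rcases hGM with h1 | h1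
        · exact h1
        · exact absurd (coeff_eq_zero_of_natDegree_lt (by omega)) hcM
      have hDN : D.natDegree = N := by
        by_contra hcon
        have h1 : D.natDegree < N := lt_of_le_of_ne h.degD hcon
        rw [if_pos h1] at hM
        omega
      refine ⟨?_, fun p hp hpS hd => ?_⟩
      · rw [fv_zero_right, ← hDN]
        exact mul_ne_zero (leadingCoeff_ne_zero.mpr h.D0) (pow_ne_zero _ hs.ne_zero)
      · exfalso
        rw [fv_zero_right] at hd
        have hpr : Prime (p : ℤ) := Nat.prime_iff_prime_int.mp hp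
        rw [mem_union, mem_union, not_or, not_or] at hpS
        refine not_dvd_of (leadingCoeff_ne_zero.mpr hG0) hp hpS.2 ?_
        rcases hpr.dvd_or_dvd hd with h1 | h1
        · unfold leadingCoeff
          rwa [hMG]
        · exact absurd (isUnit_of_dvd_unit (hpr.dvd_of_dvd_pow h1) hs) hpr.not_isUnit
    · have hD' := fv_pad (f := D) h.degD (s := s) ht
      have hG' := fv_pad (f := G) (N := M) (by omega) (s := s) ht
      have hmul : (m1 * m2) * fv D.natDegree D s t = fv G.natDegree G s t * fv H.natDegree H s t := by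
        rw [← fv_C, hDG, ← hdeg, fv_mul le_rfl le_rfl ht]
      refine ⟨?_, fun p hp hpS hd => ?_⟩
      · intro h0
        apply hne
        have h1 : ((fv N D s t : ℤ) : ℚ) = 0 := by rw [h0, Int.cast_zero]
        rw [fvq h.degD ht] at h1
        have htQ : ((t : ℤ) : ℚ) ≠ 0 := by exact_mod_cast ht
        have h2 := (mul_eq_zero.mp h1).resolve_left (pow_ne_zero _ htQ)
        have h3 : ((fv M G s t : ℤ) : ℚ) = 0 := by
          rw [fvq (by omega) ht]
          obtain ⟨q, hq⟩ := hpow
          have h4 := congrArg (eval ((s : ℚ) / t)) hq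
          have h5 : eval ((s : ℚ) / t) (toQ D) = 0 := by
            unfold toQ
            rw [eval_map]
            rw [aeval_def] at h2
            exact h2
          rw [eval_pow, eval_mul, h5, zero_mul] at h4
          have h6 : k ≠ 0 := by
            rintro rfl
            rw [pow_zero] at h4
            exact one_ne_zero h4
          have h7 := (pow_eq_zero_iff h6).mp h4
          unfold toQ at h7
          rw [eval_map] at h7
          rw [aeval_def]
          have h8 : eval₂ (algebraMap ℤ ℚ) ((s : ℚ) / t) G = 0 := h7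
          rw [h8, mul_zero]
        exact_mod_cast h3
      · have hpr : Prime (p : ℤ) := Nat.prime_iff_prime_int.mp hp
        rw [mem_union, mem_union, not_or, not_or] at hpS
        have hpm : ¬ (p : ℤ) ∣ m1 * m2 := not_dvd_of (mul_ne_zero hm1 hm2) hp hpS.1.2
        have hpD : (p : ℤ) ∣ fv N D s t := by
          rw [hG'] at hd
          rcases hpr.dvd_or_dvd hd with h1 | h1
          · have h2 : (p : ℤ) ∣ t := hpr.dvd_of_dvd_pow h1
            have h3 : M ≠ G.natDegree := by
              intro h3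
              rw [h3, Nat.sub_self, pow_zero] at h1
              exact hpr.not_isUnit (isUnit_of_dvd_one h1)
            have h4 : D.natDegree < N := by
              by_contra hcon
              rw [if_neg hcon] at hM
              omega
            rw [hD']
            exact (dvd_pow h2 (by omega)).mul_right _
          · rw [hD']
            refine Dvd.dvd.mul_left ?_ _
            have h5 : (p : ℤ) ∣ (m1 * m2) * fv D.natDegree D s t := by
              rw [hmul]; exact h1.mul_right _
            exact (hpr.dvd_or_dvd h5).resolve_left hpm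
        exact ⟨hpD, hcop s t hst p hp hpS.1.1 hpD⟩

/-- the coprime zeros of a form -/
theorem zeros_fin {M : ℕ} {G : ℤ[X]} (hG : G ≠ 0) (hM : G.natDegree ≤ M) :
    ∃ Z : Finset (ℤ × ℤ), ∀ P : ℤ × ℤ, IsCoprime P.1 P.2 → fv M G P.1 P.2 = 0 → P ∈ Z := by
  classical
  have hq0 : toQ G ≠ 0 := by
    intro h0
    exact hG (toQ_inj (by rw [h0, toQ_zero]))
  refine ⟨((toQ G).roots.toFinset.image fun r => (r.num, (r.den : ℤ))) ∪
    ((toQ G).roots.toFinset.image fun r => (-r.num, -(r.den : ℤ))) ∪ {(1, 0), (-1, 0)}, ?_⟩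
  rintro ⟨s, t⟩ hP h0
  simp only at hP h0
  rw [mem_union, mem_union, mem_image, mem_image]
  by_cases ht : t = 0
  · right
    subst ht
    have hs : IsUnit s := isCoprime_zero_right.mp hP
    rcases Int.isUnit_iff.mp hs with h1 | h1 <;> simp [h1]
  · left
    have htQ : ((t : ℤ) : ℚ) ≠ 0 := by exact_mod_cast ht
    have hroot : (s : ℚ) / t ∈ (toQ G).roots.toFinset := by
      rw [Multiset.mem_toFinset, mem_roots hq0, IsRoot.def]
      have h1 : ((fv M G s t : ℤ) : ℚ) = 0 := by rw [h0, Int.cast_zero]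
      rw [fvq hM ht] at h1
      have h2 := (mul_eq_zero.mp h1).resolve_left (pow_ne_zero _ htQ)
      unfold toQ
      rw [eval_map]
      rw [aeval_def] at h2
      exact h2
    have hnat : Nat.Coprime s.natAbs t.natAbs := Int.isCoprime_iff_nat_coprime.mp hP
    rcases lt_or_gt_of_ne ht with h1 | h1
    · right
      refine ⟨(s : ℚ) / t, hroot, ?_⟩
      have e : (s : ℚ) / t = ((-s : ℤ) : ℚ) / ((-t : ℤ) : ℚ) := by
        push_cast
        rw [neg_div_neg_eq]
      have a1 := Rat.num_div_eq_of_coprime (a := -s) (b := -t) (by omega)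
        (by rwa [Int.natAbs_neg, Int.natAbs_neg])
      have a2 := Rat.den_div_eq_of_coprime (a := -s) (b := -t) (by omega)
        (by rwa [Int.natAbs_neg, Int.natAbs_neg])
      rw [← e] at a1 a2
      rw [a1, a2, neg_neg, neg_neg]
    · left
      refine ⟨(s : ℚ) / t, hroot, ?_⟩
      have a1 := Rat.num_div_eq_of_coprime (a := s) (b := t) h1 hnat
      have a2 := Rat.den_div_eq_of_coprime (a := s) (b := t) h1 hnat
      rw [a1, a2]

end Pool.Agent.N365.LS
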