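import Pool.Agent.N365.LS.F5
import Pool.Agent.N365.LS.E

/-!
# Lang and Silverman's lower bound for all but few members of every one-parameter family
-/

set_option autoImplicit false

namespace Pool.Agent.N365.LS

open Finset Polynomial Filter Module NumberField IsDedekindDomain Height
open Pool.Agent.N365.SZ (Box mem_Box card_Box)
open Pool.Agent.Y670.RD (fv fv_le toQ)
open Pool.Agent.Y679.Md (rS rS_pos)
open Pool.Agent.TH910.LS Pool.Agent.Y725.LS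

/-- the primes that are poles: enough for the bound -/
def Enough (σ : ℝ) (x y : ℤ) : Prop :=
  y ≠ 0 ∧ ∃ F : Finset ℕ, (∀ p ∈ F, p.Prime ∧ (p : ℤ) ∣ y ∧ ¬ (p : ℤ) ∣ x) ∧
    ∃ H : ℝ, 1 ≤ H ∧ |(x : ℝ)| ≤ H ∧ |(y : ℝ)| ≤ H ∧ x ≠ 0 ∧
      2 * Real.log H ≤ σ * Real.log (∏ p ∈ F, p : ℕ)

/-- from a large radical -/
theorem enough_of {N : ℕ} {S : Finset ℕ} {η C0 : ℝ} (hη : 0 < η) {x y v : ℤ} {B : ℕ} (hB : 1 ≤ B)
    (hC0 : 1 ≤ C0) (hCB : C0 ≤ B) (hy : y ≠ 0)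
    (hp : ∀ p : ℕ, p.Prime → p ∉ S → (p : ℤ) ∣ v → (p : ℤ) ∣ y ∧ ¬ (p : ℤ) ∣ x)
    (hbig : (B : ℝ) ^ η < (rS S v.natAbs : ℝ)) (hx : |(x : ℝ)| ≤ C0 * (B : ℝ) ^ N)
    (hy' : |(y : ℝ)| ≤ C0 * (B : ℝ) ^ N) : Enough (2 * (N + 1) / η) x y := by
  have hB1 : (1 : ℝ) ≤ B := by exact_mod_cast hB
  refine ⟨hy, v.natAbs.primeFactors \ S, fun p hpF => ?_, C0 * (B : ℝ) ^ N, ?_, hx, hy', ?_, ?_⟩
  · rw [Finset.mem_sdiff, Nat.mem_primeFactors] at hpF
    exact ⟨hpF.1.1, hp p hpF.1.1 hpF.2 (by rw [Int.natCast_dvd]; exact hpF.1.2.1)⟩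
  · have := one_le_pow₀ hB1 (n := N)
    nlinarith
  · intro h0
    have h1 : (1 : ℝ) ≤ (B : ℝ) ^ η := Real.one_le_rpow hB1 hη.le
    have h2 : 1 < rS S v.natAbs := by
      have : (1 : ℝ) < (rS S v.natAbs : ℝ) := by linarith
      exact_mod_cast this
    have hne : (v.natAbs.primeFactors \ S).Nonempty := by
      rw [nonempty_iff_ne_empty]
      intro he
      unfold rS at h2
      rw [he, prod_empty] at h2
      exact lt_irrefl _ h2
    obtain ⟨p, hpF⟩ := hne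
    rw [Finset.mem_sdiff, Nat.mem_primeFactors] at hpF
    refine (hp p hpF.1.1 hpF.2 (by rw [Int.natCast_dvd]; exact hpF.1.2.1)).2 ?_
    rw [h0]
    exact dvd_zero _
  · have hlogB : 0 ≤ Real.log B := Real.log_nonneg hB1
    have h1 : Real.log (C0 * (B : ℝ) ^ N) ≤ (N + 1) * Real.log B := by
      rw [Real.log_mul (by linarith) (by positivity), Real.log_pow]
      have := Real.log_le_log (by linarith) hCB
      linarith
    have h2 : η * Real.log B ≤ Real.log ((rS S v.natAbs : ℕ) : ℝ) := by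
      rw [← Real.log_rpow (by linarith)]
      exact Real.log_le_log (by positivity) hbig.le
    have h3 : Real.log ((∏ p ∈ v.natAbs.primeFactors \ S, p : ℕ) : ℝ) =
        Real.log ((rS S v.natAbs : ℕ) : ℝ) := rfl
    rw [h3]
    calc 2 * Real.log (C0 * (B : ℝ) ^ N) ≤ 2 * ((N + 1) * Real.log B) := by linarith
      _ = 2 * (N + 1) / η * (η * Real.log B) := by field_simp
      _ ≤ _ := mul_le_mul_of_nonneg_left h2 (by positivity)

theorem fv_bound2 (N : ℕ) (A D : ℤ[X]) : ∃ C0 : ℝ, 1 ≤ C0 ∧ ∀ (B : ℕ) (P : ℤ × ℤ), P ∈ Box B →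
    |((fv N A P.1 P.2 : ℤ) : ℝ)| ≤ C0 * (B : ℝ) ^ N ∧
      |((fv N D P.1 P.2 : ℤ) : ℝ)| ≤ C0 * (B : ℝ) ^ N := by
  obtain ⟨C1, hC1, h1⟩ := fv_bound N A
  obtain ⟨C2, hC2, h2⟩ := fv_bound N D
  refine ⟨max C1 C2, le_max_of_le_left hC1, fun B P hP => ⟨?_, ?_⟩⟩
  · have h := h1 B P hP
    rw [Nat.cast_natAbs, Int.cast_abs] at h
    exact h.trans (mul_le_mul_of_nonneg_right (le_max_left _ _) (by positivity))
  · have h := h2 B P hP
    rw [Nat.cast_natAbs, Int.cast_abs] at h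
    exact h.trans (mul_le_mul_of_nonneg_right (le_max_right _ _) (by positivity))

/-- **all but few rational arguments** -/
theorem Rat.enough {N : ℕ} {A D : ℤ[X]} (h : Rat N A D) (ε : ℝ) (hε : 0 < ε) :
    ∃ C : ℝ, 0 < C ∧ ∀ B : ℕ, 1 ≤ B → ∃ E : Finset (ℤ × ℤ),
      (E.card : ℝ) ≤ C * (B : ℝ) ^ (if 2 ≤ poleCount N D then ε else 1 + ε) ∧
      ∀ P ∈ Box B, P ∉ E →
        Enough (16 * (N + 1) / ε) (fv N A P.1 P.2) (fv N D P.1 P.2) := by
  classical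
  obtain ⟨M, G, S, hSF, hG0, hGM, hS, hM1, hpc, -, hdata⟩ := h.form
  obtain ⟨C0, hC0, hbd⟩ := fv_bound2 N A D
  obtain ⟨Z, hZ⟩ := zeros_fin hG0 hGM
  obtain ⟨ex, hex⟩ : ∃ ex : ℝ, ex = if 2 ≤ poleCount N D then ε else 1 + ε := ⟨_, rfl⟩
  have hex0 : 0 ≤ ex := by rw [hex]; split_ifs <;> linarith
  have hcount : ∃ C : ℝ, 0 < C ∧ ∀ B : ℕ, 1 ≤ B →
      ((Sm M G S (ε / 8) B).card : ℝ) ≤ C * (B : ℝ) ^ ex := by
    rcases Nat.lt_or_ge M 2 with hM2 | hM2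
    · have hM' : M = 1 := by omega
      subst hM'
      obtain ⟨C, hC, hc⟩ := lin_card hG0 hGM hS ε hε
      refine ⟨C, hC, fun B hB => ?_⟩
      rw [hex, if_neg (by omega)]
      exact hc B hB
    · obtain ⟨C, hC, hc⟩ := hSF.small_card hM2 hS ε hε
      refine ⟨C, hC, fun B hB => (hc B hB).trans ?_⟩
      refine mul_le_mul_of_nonneg_left ?_ hC.le
      refine Real.rpow_le_rpow_of_exponent_le (by exact_mod_cast hB) ?_
      rw [hex]
      split_ifs <;> linarith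
  obtain ⟨C, hC, hcount⟩ := hcount
  rw [← hex]
  refine ⟨C + Z.card + (2 * C0 + 1) ^ 2, by positivity, fun B hB => ?_⟩
  have hB1 : (1 : ℝ) ≤ B := by exact_mod_cast hB
  have hpw : 1 ≤ (B : ℝ) ^ ex := Real.one_le_rpow hB1 hex0
  have hZ0 : (0 : ℝ) ≤ Z.card := Nat.cast_nonneg _
  rcases lt_or_ge (B : ℝ) C0 with hBC | hBC
  · refine ⟨Box B, ?_, fun P hP hPE => absurd hP hPE⟩
    have h1 : (2 * (B : ℝ) + 1) ^ 2 ≤ (2 * C0 + 1) ^ 2 := by
      refine pow_le_pow_left₀ (by positivity) (by linarith) 2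
    have h2 : 0 ≤ C * (B : ℝ) ^ ex := by positivity
    calc ((Box B).card : ℝ) ≤ (2 * C0 + 1) ^ 2 * 1 := by
          rw [mul_one]
          exact (card_Box B).trans h1
      _ ≤ (C + Z.card + (2 * C0 + 1) ^ 2) * (B : ℝ) ^ ex := by
          refine mul_le_mul (by linarith) hpw zero_le_one (by positivity)
  · refine ⟨Sm M G S (ε / 8) B ∪ Z, ?_, fun P hP hPE => ?_⟩
    · have h1 : ((Sm M G S (ε / 8) B ∪ Z).card : ℝ) ≤ (Sm M G S (ε / 8) B).card + Z.card := by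
        exact_mod_cast card_union_le _ _
      have h2 : (Z.card : ℝ) ≤ Z.card * (B : ℝ) ^ ex := le_mul_of_one_le_right hZ0 hpw
      have h3 : 0 ≤ (2 * C0 + 1) ^ 2 * (B : ℝ) ^ ex := by positivity
      have h4 := hcount B hB
      have e : (C + Z.card + (2 * C0 + 1) ^ 2) * (B : ℝ) ^ ex =
        C * (B : ℝ) ^ ex + Z.card * (B : ℝ) ^ ex + (2 * C0 + 1) ^ 2 * (B : ℝ) ^ ex := by ring
      rw [e]
      linarith
    · rw [mem_union, not_or] at hPE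
      have hcop := (mem_Box.mp hP).2
      have hv : fv M G P.1 P.2 ≠ 0 := fun h0 => hPE.2 (hZ P hcop h0)
      obtain ⟨k1, k2⟩ := hdata P.1 P.2 hcop hv
      have hbig : (B : ℝ) ^ (ε / 8) < (rS S (fv M G P.1 P.2).natAbs : ℝ) := by
        by_contra hcon
        push Not at hcon
        exact hPE.1 (mem_Sm.mpr ⟨hP, hv, hcon⟩)
      have h5 := enough_of (N := N) (η := ε / 8) (by positivity) hB hC0 hBC k1 k2 hbig
        (hbd B P hP).1 (hbd B P hP).2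
      have e : (2 * ((N : ℝ) + 1) / (ε / 8)) = 16 * (N + 1) / ε := by field_simp; ring
      rwa [e] at h5

/-- **all but few integers**, when the function is not a polynomial -/
theorem Rat.enough_int {N : ℕ} {A D : ℤ[X]} (h : Rat N A D) (hD : 1 ≤ D.natDegree) (ε : ℝ)
    (hε : 0 < ε) :
    ∃ C : ℝ, 0 < C ∧ ∀ B : ℕ, 1 ≤ B → ∃ E : Finset ℤ, (E.card : ℝ) ≤ C * (B : ℝ) ^ ε ∧
      ∀ t : ℤ, |t| ≤ (B : ℤ) → t ∉ E → Enough (16 * (N + 1) / ε) (A.eval t) (D.eval t) := by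
  classical
  obtain ⟨M, G, S, hSF, hG0, hGM, hS, hM1, hpc, hGD, hdata⟩ := h.form
  obtain ⟨C0, hC0, hbd⟩ := fv_bound2 N A D
  obtain ⟨C, hC, hcount⟩ := int_card (hGD hD) hS ε hε
  obtain ⟨Z, hZ⟩ : ∃ Z : Finset ℤ, Z = G.roots.toFinset := ⟨_, rfl⟩
  refine ⟨C + Z.card + (2 * C0 + 1), by positivity, fun B hB => ?_⟩
  have hB1 : (1 : ℝ) ≤ B := by exact_mod_cast hB
  have hpw : 1 ≤ (B : ℝ) ^ ε := Real.one_le_rpow hB1 hε.le
  have hZ0 : (0 : ℝ) ≤ Z.card := Nat.cast_nonneg _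
  rcases lt_or_ge (B : ℝ) C0 with hBC | hBC
  · refine ⟨Icc (-(B : ℤ)) B, ?_, fun t ht htE => absurd (mem_Icc.mpr (abs_le.mp ht)) htE⟩
    have e1 : ((B : ℤ) + 1 - -(B : ℤ)).toNat = 2 * B + 1 := by omega
    rw [Int.card_Icc, e1]
    push_cast
    have h2 : 0 ≤ C * (B : ℝ) ^ ε := by positivity
    calc (2 * (B : ℝ) + 1) ≤ (2 * C0 + 1) * 1 := by linarith
      _ ≤ (C + Z.card + (2 * C0 + 1)) * (B : ℝ) ^ ε := by
          refine mul_le_mul (by linarith) hpw zero_le_one (by positivity)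
  · refine ⟨SmI G S (ε / 8) B ∪ Z, ?_, fun t ht htE => ?_⟩
    · have h1 : ((SmI G S (ε / 8) B ∪ Z).card : ℝ) ≤ (SmI G S (ε / 8) B).card + Z.card := by
        exact_mod_cast card_union_le _ _
      have h2 : (Z.card : ℝ) ≤ Z.card * (B : ℝ) ^ ε := le_mul_of_one_le_right hZ0 hpw
      have h3 : 0 ≤ (2 * C0 + 1) * (B : ℝ) ^ ε := by positivity
      have h4 := hcount B hB
      have e : (C + Z.card + (2 * C0 + 1)) * (B : ℝ) ^ ε =
        C * (B : ℝ) ^ ε + Z.card * (B : ℝ) ^ ε + (2 * C0 + 1) * (B : ℝ) ^ ε := by ring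
      rw [e]
      linarith
    · rw [mem_union, not_or, hZ, Multiset.mem_toFinset, mem_roots hG0] at htE
      have hv : fv M G t 1 ≠ 0 := by
        rw [fv_int M hGM]
        exact htE.2
      obtain ⟨k1, k2⟩ := hdata t 1 isCoprime_one_right hv
      have hbig : (B : ℝ) ^ (ε / 8) < (rS S (fv M G t 1).natAbs : ℝ) := by
        rw [fv_int M hGM]
        by_contra hcon
        push Not at hcon
        exact htE.1 (mem_SmI.mpr ⟨ht, htE.2, hcon⟩)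
      have hP : ((t, 1) : ℤ × ℤ) ∈ Box B := mem_Box.mpr ⟨⟨ht, by
        show |(1 : ℤ)| ≤ B
        rw [abs_one]; exact_mod_cast hB⟩, isCoprime_one_right⟩
      have h5 := enough_of (N := N) (η := ε / 8) (by positivity) hB hC0 hBC k1 k2 hbig
        (hbd B _ hP).1 (hbd B _ hP).2
      have e : (2 * ((N : ℝ) + 1) / (ε / 8)) = 16 * (N + 1) / ε := by field_simp; ring
      rw [e] at h5
      rwa [fv_int N h.degA, fv_int N h.degD] at h5

/-- the lower bound from the poles -/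
theorem of_enough (d g : ℕ) (hg : 0 < g) (κ σ : ℝ) (hκ : 0 ≤ κ) (hσ : 0 ≤ σ) : ∃ c : ℝ, 0 < c ∧
    ∀ x y : ℤ, Enough σ x y → AllCurves c d g κ (x / y) := by
  obtain ⟨c, hc, h⟩ := of_poles d g hg κ (d * σ) hκ (by positivity)
  refine ⟨c, hc, fun x y hE => ?_⟩
  obtain ⟨hy, F, hF, H, hH1, hxH, hyH, hx, hle⟩ := hE
  refine h x y F hy hF ⟨H, hxH, hyH, hx, ?_⟩
  rw [mul_assoc]
  exact mul_le_mul_of_nonneg_left hle (Nat.cast_nonneg d)

theorem AllCurves.mono {c c₁ : ℝ} {d g : ℕ} {κ : ℝ} {j : ℚ} (hc : c ≤ c₁)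
    (h : AllCurves c₁ d g κ j) : AllCurves c d g κ j := by
  intro K _ _ hK a b hab hab' hj L _ _ _ _ _
  obtain ⟨h1, h2⟩ := h K hK a b hab hab' hj L
  refine ⟨h1, fun ρ M P T hM hP hT hor => le_trans ?_ (h2 ρ M P T hM hP hT hor)⟩
  have hpos : 0 ≤ 1 + absH (jinv (a : K) b) + logNorms T / finrank ℚ L := by
    have h2 : 0 ≤ absH (jinv (a : K) b) := by
      unfold absH
      exact div_nonneg (zero_le_logHeight₁ _) (Nat.cast_nonneg _)
    have h3 : 0 ≤ logNorms T / finrank ℚ L :=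
      div_nonneg (Finset.sum_nonneg fun _ _ => Real.log_natCast_nonneg _) (Nat.cast_nonneg _)
    linarith
  exact mul_le_mul_of_nonneg_right hc hpos

/-- a general form of the theorem, for a property of the arguments -/
theorem few_of {Prt : ℚ → Prop} {σ : ℝ} (hPrt : ∀ x y : ℤ, Enough σ x y → Prt (x / y)) {N : ℕ}
    {A D : ℤ[X]} (h : Rat N A D) (ε : ℝ) (hε : 0 < ε) (hσ : σ = 16 * (N + 1) / ε) :
    ∃ C : ℝ, 0 < C ∧ ∀ B : ℕ, 1 ≤ B →
      ({P : ℤ × ℤ | P ∈ Box B ∧ ¬ (fv N D P.1 P.2 ≠ 0 ∧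
        Prt (fv N A P.1 P.2 / fv N D P.1 P.2))}.ncard : ℝ) ≤
        C * (B : ℝ) ^ (if 2 ≤ poleCount N D then ε else 1 + ε) := by
  obtain ⟨C, hC, hc⟩ := h.enough ε hε
  refine ⟨C, hC, fun B hB => ?_⟩
  obtain ⟨E, hE, hg⟩ := hc B hB
  refine le_trans ?_ hE
  refine Nat.cast_le.mpr ?_
  rw [← Set.ncard_coe_finset E]
  refine Set.ncard_le_ncard ?_ (Finset.finite_toSet E)
  rintro P ⟨hP, hn⟩
  by_contra hPE
  have h1 := hg P hP hPE
  rw [← hσ] at h1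
  exact hn ⟨h1.1, hPrt _ _ h1⟩

theorem few_of_int {Prt : ℚ → Prop} {σ : ℝ} (hPrt : ∀ x y : ℤ, Enough σ x y → Prt (x / y))
    (hpoly : ∀ y : ℤ, y ≠ 0 → ∃ X0 : ℝ, 0 ≤ X0 ∧ ∀ x : ℤ, X0 < |(x : ℝ)| → Prt (x / y)) {N : ℕ}
    {A D : ℤ[X]} (h : Rat N A D) (ε : ℝ) (hε : 0 < ε) (hσ : σ = 16 * (N + 1) / ε) :
    ∃ C : ℝ, 0 < C ∧ ∀ B : ℕ, 1 ≤ B →
      ({t : ℤ | |t| ≤ (B : ℤ) ∧ ¬ (D.eval t ≠ 0 ∧
        Prt ((A.eval t : ℤ) / (D.eval t : ℤ)))}.ncard : ℝ) ≤ C * (B : ℝ) ^ ε := by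
  classical
  have hkey : ∃ C : ℝ, 0 < C ∧ ∀ B : ℕ, 1 ≤ B → ∃ E : Finset ℤ, (E.card : ℝ) ≤ C * (B : ℝ) ^ ε ∧
      ∀ t : ℤ, |t| ≤ (B : ℤ) → t ∉ E → D.eval t ≠ 0 ∧ Prt ((A.eval t : ℤ) / (D.eval t : ℤ)) := by
    rcases Nat.eq_zero_or_pos D.natDegree with hD | hD
    · obtain ⟨d0, hd0⟩ : ∃ d0 : ℤ, D = C d0 := ⟨_, eq_C_of_natDegree_eq_zero hD⟩
      have hd00 : d0 ≠ 0 := by
        rintro rfl
        exact h.D0 (by rw [hd0, C_0])
      have hA : 1 ≤ A.natDegree := by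
        rcases h.deg with h1 | h1
        · rw [h1]; exact h.pos
        · have := h.pos
          omega
      obtain ⟨X0, hX0, hall⟩ := hpoly d0 hd00
      obtain ⟨A0, hA0, hlarge⟩ := large_val hA
      obtain ⟨m, hm⟩ : ∃ m : ℕ, X0 + A0 ≤ m := exists_nat_ge _
      refine ⟨2 * (m : ℝ) + 1, by positivity, fun B hB => ?_⟩
      have hB1 : (1 : ℝ) ≤ B := by exact_mod_cast hB
      have hpw : 1 ≤ (B : ℝ) ^ ε := Real.one_le_rpow hB1 hε.le
      refine ⟨Icc (-(m : ℤ)) m, ?_, fun t ht hE => ?_⟩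
      · rw [Int.card_Icc]
        have e : ((m : ℤ) + 1 - -(m : ℤ)).toNat = 2 * m + 1 := by omega
        rw [e]
        push_cast
        exact le_mul_of_one_le_right (by positivity) hpw
      · have h2 : (m : ℤ) < |t| := by
          by_contra hcon
          push Not at hcon
          apply hE
          rw [mem_Icc]
          exact abs_le.mp hcon
        have h3 : (m : ℝ) < |(t : ℝ)| := by exact_mod_cast h2
        have h4 := hlarge t
        have e : D.eval t = d0 := by rw [hd0, eval_C]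
        rw [e]
        exact ⟨hd00, hall _ (by linarith)⟩
    · obtain ⟨C, hC, hc⟩ := h.enough_int hD ε hε
      refine ⟨C, hC, fun B hB => ?_⟩
      obtain ⟨E, hE, hg⟩ := hc B hB
      refine ⟨E, hE, fun t ht htE => ?_⟩
      have h1 := hg t ht htE
      rw [← hσ] at h1
      exact ⟨h1.1, hPrt _ _ h1⟩
  obtain ⟨C, hC, hc⟩ := hkey
  refine ⟨C, hC, fun B hB => ?_⟩
  obtain ⟨E, hE, hg⟩ := hc B hB
  refine le_trans ?_ hE
  refine Nat.cast_le.mpr ?_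
  rw [← Set.ncard_coe_finset E]
  refine Set.ncard_le_ncard ?_ (Finset.finite_toSet E)
  rintro t ⟨ht, hn⟩
  by_contra htE
  exact hn (hg t ht htE)

end Pool.Agent.N365.LS
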