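import Pool.Agent.N365.LS.F6

/-!
# The strong alternative for all but few members of every one-parameter family
-/

set_option autoImplicit false

namespace Pool.Agent.N365.LS

open Finset Polynomial Filter Module NumberField IsDedekindDomain Height TH951
open Pool.Agent.TH910.LS Pool.Agent.Y725.LS

/-- the alternative, with the constants `c₁` and `c₂`, for all forms of dimension `g` of the powers
of the curve `y² = x³ + a x + b` over `K` that are split by `L` -/
def Alternative (c₁ : ℝ) (c₂ g : ℕ) {K : Type} [Field K] [NumberField K] (a b : 𝓞 K) (L : Type)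
    [Field L] [NumberField L] [Algebra K L] [DecidableEq L] : Prop :=
  ∀ (ρ : (L ≃ₐ[K] L) →* Matrix (Fin g) (Fin g) ℤ) (M : Matrix (Fin g) (Fin g) ℤ)
    (P : Fin g → Pts L a b) (T : Finset (HeightOneSpectrum (𝓞 L))),
    Faithful ρ → Polar ρ M → FixedPt ρ P → RamPrimes K T →
      SubvarLe c₂ ρ M P ∨
      (¬ IsOfFinAddOrder P ∧
        c₁ * (1 + absH (jinv (a : K) b) + logNorms T / Module.finrank ℚ L) ≤
          chatM M P / Module.finrank ℚ L)

/-- the alternative for all curves of invariant `j` over all number fields of degree at most `d` -/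
def AllStrong (c₁ : ℝ) (c₂ d g : ℕ) (κ : ℝ) (j : ℚ) : Prop :=
  ∀ (K : Type) [Field K] [NumberField K], finrank ℚ K ≤ d →
    ∀ a b : 𝓞 K, 4 * (a : K) ^ 3 + 27 * (b : K) ^ 2 ≠ 0 →
      absH (a : K) + absH (b : K) ≤ κ * (1 + absH (jinv (a : K) b)) → jinv (a : K) b = (j : K) →
      ∀ (L : Type) [Field L] [NumberField L] [Algebra K L] [IsGalois K L] [DecidableEq L],
        ChatLim L a b ∧ Alternative c₁ c₂ g a b L

theorem subvar_mono {K : Type} [Field K] [NumberField K] {a b : 𝓞 K} {g : ℕ} {L : Type}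
    [Field L] [NumberField L] [Algebra K L] [DecidableEq L] {c c' : ℕ} (h : c ≤ c')
    {ρ : (L ≃ₐ[K] L) →* Matrix (Fin g) (Fin g) ℤ} {M : Matrix (Fin g) (Fin g) ℤ}
    {P : Fin g → Pts L a b} (hM : Polar ρ M) (hs : SubvarLe c ρ M P) : SubvarLe c' ρ M P := by
  obtain ⟨m, β, hm, h1, h2, h3, n, hn0, hn, h4⟩ := hs
  have hdet : 0 < M.det := by
    have h5 := hM.1.det_pos
    have h6 : (M.map (Int.cast : ℤ → ℝ)).det = (M.det : ℝ) := by
      have := (Int.castRingHom ℝ).map_det M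
      simp only [eq_intCast] at this
      rw [this]
      rfl
    rw [h6] at h5
    exact_mod_cast h5
  refine ⟨m, β, hm, h1, h2, h3.trans ?_, n, hn0, hn.trans h, h4⟩
  have h7 : (c : ℤ) ≤ c' := by exact_mod_cast h
  have h8 : (0 : ℤ) < (g.factorial : ℤ) := by exact_mod_cast Nat.factorial_pos g
  exact mul_le_mul_of_nonneg_right h7 (by positivity)

theorem pos_bound {K : Type} [Field K] [NumberField K] (x : K) (L : Type) [Field L]
    [NumberField L] (T : Finset (HeightOneSpectrum (𝓞 L))) :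
    0 ≤ 1 + absH x + logNorms T / finrank ℚ L := by
  have h2 : 0 ≤ absH x := by
    unfold absH
    exact div_nonneg (zero_le_logHeight₁ _) (Nat.cast_nonneg _)
  have h3 : 0 ≤ logNorms T / finrank ℚ L :=
    div_nonneg (Finset.sum_nonneg fun _ _ => Real.log_natCast_nonneg _) (Nat.cast_nonneg _)
  linarith

theorem AllStrong.mono {c₁ c₁' : ℝ} {c₂ c₂' d g : ℕ} {κ : ℝ} {j : ℚ} (hc : c₁' ≤ c₁)
    (hc' : c₂ ≤ c₂') (h : AllStrong c₁ c₂ d g κ j) : AllStrong c₁' c₂' d g κ j := by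
  intro K _ _ hK a b hab hab' hj L _ _ _ _ _
  obtain ⟨h1, h2⟩ := h K hK a b hab hab' hj L
  refine ⟨h1, fun ρ M P T hf hM hP hT => ?_⟩
  rcases h2 ρ M P T hf hM hP hT with k | ⟨k1, k2⟩
  · left
    exact subvar_mono hc' hM k
  · right
    exact ⟨k1, le_trans (mul_le_mul_of_nonneg_right hc (pos_bound _ _ _)) k2⟩

/-- the alternative from the poles -/
theorem strong_enough (d g : ℕ) (hg : 0 < g) (κ σ : ℝ) (hκ : 0 ≤ κ) (hσ : 0 ≤ σ) :
    ∃ c₁ : ℝ, 0 < c₁ ∧ ∃ c₂ : ℕ, ∀ x y : ℤ, Enough σ x y → AllStrong c₁ c₂ d g κ (x / y) := by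
  obtain ⟨c, δ, hc, hδ, c₂, h⟩ := strong_main d g 0 hg κ (d * σ) hκ
  obtain ⟨A, c', hc', c₂', h⟩ := h 1 one_ne_zero
  refine ⟨min c c', lt_min hc hc', max c₂ c₂', fun x y hE => ?_⟩
  obtain ⟨hy, F, hF, H, hH1, hxH, hyH, hx, hle⟩ := hE
  intro K _ _ hK a b hab hab' hj L _ _ _ _ _
  refine ⟨chatLim a b hab L, fun ρ M P T hf hM hP hT => ?_⟩
  obtain ⟨V, hV, hsum⟩ := exists_poles K hy F hF
  have hjK : jinv (a : K) b = (x : K) / y := by
    rw [hj]
    push_cast
    rfl
  have hlogH : 0 ≤ Real.log H := Real.log_nonneg hH1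
  have hheight : logHeight₁ ((x : K) / y) ≤ (d * σ) * ∑ v ∈ V, Real.log (TH951.NF.Nm v) := by
    refine (logHeight_le K hx hy hxH hyH).trans ?_
    calc (finrank ℚ K : ℝ) * (2 * Real.log H) ≤ d * (2 * Real.log H) := by
          refine mul_le_mul_of_nonneg_right (by exact_mod_cast hK) (by positivity)
      _ ≤ d * (σ * Real.log (∏ p ∈ F, p : ℕ)) := mul_le_mul_of_nonneg_left hle (Nat.cast_nonneg d)
      _ ≤ d * (σ * ∑ v ∈ V, Real.log (TH951.NF.Nm v)) :=
          mul_le_mul_of_nonneg_left (mul_le_mul_of_nonneg_left hsum hσ) (Nat.cast_nonneg d)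
      _ = _ := by ring
  have hSz := szp (by positivity) hV hheight hab hjK L hδ.le 1
  rcases h K hK a b hab hab' L hSz ρ M P T hf hM hP hT with k | ⟨k1, k2⟩
  · left
    split_ifs at k
    · exact subvar_mono (le_max_left _ _) hM k
    · exact subvar_mono (le_max_right _ _) hM k
  · right
    refine ⟨k1, le_trans (mul_le_mul_of_nonneg_right ?_ (pos_bound _ _ _)) k2⟩
    split_ifs
    · exact min_le_left _ _
    · exact min_le_right _ _

/-- the height of a rational number with fixed denominator -/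
theorem height_big (K : Type) [Field K] [NumberField K] {x y : ℤ} (hy : y ≠ 0) {A : ℝ}
    (hxX : Real.exp (A + Real.log |(y : ℝ)|) < |(x : ℝ)|) : A < absH ((x : K) / y) := by
  have hx0 : 0 < |(x : ℝ)| := (Real.exp_pos _).trans hxX
  have hx : x ≠ 0 := by
    rintro rfl
    simp at hx0
  have hf : (0 : ℝ) < finrank ℚ K := by exact_mod_cast finrank_pos
  unfold absH
  rw [lt_div_iff₀ hf]
  refine lt_of_lt_of_le ?_ (le_logHeight K hx hy)
  rw [mul_comm]
  refine mul_lt_mul_of_pos_left ?_ hf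
  have h1 := (Real.lt_log_iff_exp_lt hx0).mpr hxX
  linarith

/-- integral invariants, up to a fixed denominator -/
theorem szp_poly {K : Type} [Field K] [NumberField K] {a b : 𝓞 K} {x y : ℤ}
    (hjK : jinv (a : K) b = (x : K) / y) (L : Type) [Field L] [NumberField L] [Algebra K L]
    {δ : ℝ} (hδ : 0 ≤ δ) : SzpiroLe 1 δ 0 y.natAbs a b L := by
  refine ⟨∅, ∅, by simp, by simp, fun S hS => ?_⟩
  have hSe : S = ∅ := by
    rw [Finset.eq_empty_iff_forall_notMem]
    intro v hv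
    obtain ⟨-, h1, h2⟩ := hS v hv
    have h3 : v.val (y : K) = 1 := by
      rcases Int.natAbs_eq y with h4 | h4
      · rw [h4, Int.cast_natCast]; exact h1
      · rw [h4, Int.cast_neg, AbsoluteValue.map_neg, Int.cast_natCast]; exact h1
    rw [hjK, map_div₀, h3, div_one] at h2
    have := int_le_one v x
    linarith
  rw [hSe]
  simp only [sum_empty, mul_zero, zero_add]
  exact mul_nonneg hδ (zero_le_logHeight₁ _)

/-- polynomial invariants -/
theorem strong_poly (d g : ℕ) (hg : 0 < g) (κ : ℝ) (hκ : 0 ≤ κ) : ∃ c₁ : ℝ, 0 < c₁ ∧ ∃ c₂ : ℕ,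
    ∀ y : ℤ, y ≠ 0 → ∃ X0 : ℝ, 0 ≤ X0 ∧ ∀ x : ℤ, X0 < |(x : ℝ)| →
      AllStrong c₁ c₂ d g κ (x / y) := by
  obtain ⟨c, δ, hc, hδ, c₂, h⟩ := strong_main d g 0 hg κ 1 hκ
  refine ⟨c, hc, c₂, fun y hy => ?_⟩
  obtain ⟨A, c', hc', c₂', h⟩ := h y.natAbs (Int.natAbs_ne_zero.mpr hy)
  refine ⟨Real.exp (A + Real.log |(y : ℝ)|), (Real.exp_pos _).le, fun x hxX => ?_⟩
  intro K _ _ hK a b hab hab' hj L _ _ _ _ _
  refine ⟨chatLim a b hab L, fun ρ M P T hf hM hP hT => ?_⟩
  have hjK : jinv (a : K) b = (x : K) / y := by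
    rw [hj]
    push_cast
    rfl
  have hbig : A < absH (jinv (a : K) b) := by
    rw [hjK]
    exact height_big K hy hxX
  have h1 := h K hK a b hab hab' L (szp_poly hjK L hδ.le) ρ M P T hf hM hP hT
  rwa [if_pos hbig, if_pos hbig] at h1

end Pool.Agent.N365.LS
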